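import Mathlib

namespace Pool.Agent.P.MP_224820_co

open Finset

/-- a strictly positive solution from the dual condition -/
theorem pos_sol {E T : Type*} [Fintype E] [Fintype T] (v : T → E → ℝ)
    (hv : ∀ t, ∑ e, v t e = 3)
    (h : ∀ y : E → ℝ, (∀ t, 0 ≤ ∑ e, y e * v t e) → ∑ e, y e ≤ 0 → y = 0) :
    ∃ w : T → ℝ, (∀ t, 0 < w t) ∧ ∀ e, ∑ t, w t * v t e = 1 := by
  classical
  rcases isEmpty_or_nonempty E with hE | hE
  · exact ⟨fun _ => 1, fun _ => one_pos, fun e => isEmptyElim e⟩
  let s : E → ℝ := fun e => ∑ t, v t e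
  obtain ⟨ε, hε, hε1, hε2⟩ : ∃ ε : ℝ, 0 < ε ∧ 0 < ∑ e, (1 - ε * s e) ∧ ∀ y : E → ℝ,
      (∀ t, 0 ≤ ∑ e, y e * v t e) → 0 ≤ ∑ e, y e * (1 - ε * s e) := by
    let K : Set (E → ℝ) := Metric.sphere 0 1 ∩ {y | ∀ t, 0 ≤ ∑ e, y e * v t e}
    have hK : IsCompact K := by
      refine (isCompact_sphere 0 1).inter_right ?_
      simp only [Set.ofPred_forall]
      exact isClosed_iInter fun t => isClosed_le continuous_const (by fun_prop)
    have h1 : (fun _ => (1 : ℝ)) ∈ K := by
      refine ⟨by simp [pi_norm_const], fun t => ?_⟩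
      simp [hv t]
    obtain ⟨y0, hy0, hmin⟩ := hK.exists_isMinOn ⟨_, h1⟩
      (f := fun y => ∑ e, y e) (by fun_prop)
    have hμ : 0 < ∑ e, y0 e := by
      by_contra hc
      have := h y0 hy0.2 (not_lt.1 hc)
      have h2 := hy0.1
      rw [this] at h2
      simp at h2
    set μ := ∑ e, y0 e
    set C := ∑ e, |s e|
    have C0 : 0 ≤ C := sum_nonneg fun _ _ => abs_nonneg _
    have key : ∀ y ∈ K, 0 < ∑ e, y e * (1 - μ / (C + 1) * s e) := by
      intro y hy
      have a1 : μ ≤ ∑ e, y e := hmin hy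
      have a2 : ∑ e, y e * s e ≤ C := by
        refine sum_le_sum fun e _ => ?_
        have n1 : |y e| ≤ 1 := by
          have := norm_le_pi_norm y e
          rw [mem_sphere_zero_iff_norm.1 hy.1] at this
          exact this
        calc y e * s e ≤ |y e * s e| := le_abs_self _
          _ = |y e| * |s e| := abs_mul _ _
          _ ≤ |s e| := by nlinarith [abs_nonneg (s e)]
      have a3 : ∑ e, y e * (1 - μ / (C + 1) * s e) = ∑ e, y e - μ / (C + 1) * ∑ e, y e * s e := by
        rw [mul_sum, ← sum_sub_distrib]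
        exact sum_congr rfl fun e _ => by ring
      have a4 : μ / (C + 1) * ∑ e, y e * s e ≤ μ / (C + 1) * C :=
        mul_le_mul_of_nonneg_left a2 (by positivity)
      have a5 : μ / (C + 1) * C < μ := by
        rw [div_mul_eq_mul_div, div_lt_iff₀ (by positivity)]; nlinarith
      linarith
    refine ⟨μ / (C + 1), by positivity, by simpa using key _ h1, fun y hy => ?_⟩
    by_cases y0 : y = 0
    · simp [y0]
    have ny : 0 < ‖y‖ := norm_pos_iff.2 y0
    have := key (‖y‖⁻¹ • y) ⟨by simp [norm_smul, ny.ne'], fun t => by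
      simp only [Pi.smul_apply, smul_eq_mul, mul_assoc, ← mul_sum]
      exact mul_nonneg (by positivity) (hy t)⟩
    simp only [Pi.smul_apply, smul_eq_mul, mul_assoc, ← mul_sum] at this
    exact ((mul_pos_iff_of_pos_left (by positivity)).1 this).le
  set x : E → ℝ := fun e => 1 - ε * s e with hx
  set σ := ∑ e, x e with hσ
  have hmem : (3 / σ) • x ∈ convexHull ℝ (Set.range v) := by
    by_contra hc
    obtain ⟨f, u, hf1, hf2⟩ := geometric_hahn_banach_point_closed (convex_convexHull ℝ _)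
      ((Set.finite_range v).isCompact_convexHull ℝ).isClosed hc
    have rep : ∀ z : E → ℝ, f z = ∑ e, f (Pi.single e 1) * z e := by
      intro z
      conv_lhs => rw [pi_eq_sum_univ' z]
      rw [map_sum]
      exact sum_congr rfl fun e _ => by rw [map_smul, smul_eq_mul, mul_comm]
    have := hε2 (fun e => f (Pi.single e 1) - u / 3) (fun t => by
      have := hf2 (v t) (subset_convexHull ℝ _ ⟨t, rfl⟩)
      rw [rep] at this
      simp only [sub_mul, sum_sub_distrib, ← mul_sum, hv t]
      linarith)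
    change 0 ≤ ∑ e, (f (Pi.single e 1) - u / 3) * x e at this
    simp only [sub_mul, sum_sub_distrib, ← mul_sum] at this
    rw [← rep x] at this
    rw [map_smul, smul_eq_mul, div_mul_eq_mul_div, div_lt_iff₀ hε1] at hf1
    change 0 ≤ f x - u / 3 * σ at this
    linarith
  rw [convexHull_range_eq_exists_affineCombination] at hmem
  obtain ⟨S, c, hc0, hc1, hc2⟩ := hmem
  rw [affineCombination_eq_linear_combination _ _ _ hc1] at hc2
  refine ⟨fun t => σ / 3 * (if t ∈ S then c t else 0) + ε, fun t => ?_, fun e => ?_⟩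
  · have : 0 ≤ (if t ∈ S then c t else 0) := by
      split_ifs with ht
      · exact hc0 t ht
      · exact le_rfl
    positivity
  · have e1 := congrFun hc2 e
    simp only [Finset.sum_apply, Pi.smul_apply, smul_eq_mul] at e1
    have e2 : ∑ t, (if t ∈ S then c t else 0) * v t e = ∑ t ∈ S, c t * v t e := by
      simp [ite_mul, sum_ite_mem]
    simp only [add_mul, sum_add_distrib, mul_assoc, ← mul_sum]
    rw [e2, e1]
    change σ / 3 * (3 / σ * x e) + ε * s e = 1
    have : σ / 3 * (3 / σ * x e) = x e := by field_simp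
    rw [this, hx]
    ring

lemma exists_coeff {E T : Type*} [Fintype T] (v : T → E → ℤ) {x : E → ℤ}
    (hx : x ∈ AddSubgroup.closure (Set.range v)) : ∃ z : T → ℤ, ∀ e, ∑ t, z t * v t e = x e := by
  have : x ∈ Submodule.span ℤ (Set.range v) := by
    rw [← Submodule.mem_toAddSubgroup, Submodule.span_int_eq_addSubgroupClosure]
    exact hx
  obtain ⟨z, hz⟩ := (Submodule.mem_span_range_iff_exists_fun ℤ).1 this
  exact ⟨z, fun e => by simpa using congrFun hz e⟩

/-- lattice points deep in the cone are in the semigroup -/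
theorem semigroup {E T : Type*} [Fintype E] [Fintype T] (v : T → E → ℤ)
    (h0 : ∀ t e, 0 ≤ v t e) (h1 : ∀ t e, v t e ≤ 1)
    (w : T → ℝ) (hw : ∀ t, 0 < w t) (hs : ∀ e, ∑ t, w t * v t e = 1) :
    ∀ᶠ m : ℕ in Filter.atTop, (fun _ => (m : ℤ)) ∈ AddSubgroup.closure (Set.range v) →
      ∃ c : T → ℕ, ∀ e, ∑ t, (c t : ℤ) * v t e = m := by
  classical
  have : ∀ x : E → ℤ, ∃ z : T → ℤ, x ∈ AddSubgroup.closure (Set.range v) →
      ∀ e, ∑ t, z t * v t e = x e := fun x => by
    by_cases hx : x ∈ AddSubgroup.closure (Set.range v)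
    · obtain ⟨z, hz⟩ := exists_coeff v hx
      exact ⟨z, fun _ => hz⟩
    · exact ⟨0, fun h => (hx h).elim⟩
  choose z hz using this
  let F : Finset (E → ℤ) := Fintype.piFinset fun _ => Icc 0 (Fintype.card T : ℤ)
  have ev : ∀ᶠ m : ℕ in Filter.atTop, ∀ t, ∀ x ∈ F, (|z x t| : ℤ) ≤ (m : ℝ) * w t := by
    rw [Filter.eventually_all]
    intro t
    rw [Filter.eventually_all_finset]
    intro x _
    exact (tendsto_natCast_atTop_atTop.atTop_mul_const (hw t)).eventually_ge_atTop _
  filter_upwards [ev] with m hm hmem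
  let a : T → ℤ := fun t => ⌊(m : ℝ) * w t⌋
  let ρ : E → ℤ := fun e => m - ∑ t, a t * v t e
  have hρ : ρ ∈ AddSubgroup.closure (Set.range v) := by
    have : ρ = (fun _ => (m : ℤ)) - ∑ t, a t • v t := by
      funext e; simp [ρ]
    rw [this]
    exact sub_mem hmem (sum_mem fun t _ => zsmul_mem (AddSubgroup.subset_closure (Set.mem_range_self t)) _)
  have hF : ρ ∈ F := by
    rw [Fintype.mem_piFinset]
    intro e
    have e1 : (ρ e : ℝ) = ∑ t, ((m : ℝ) * w t - a t) * v t e := by
      simp only [ρ, sub_mul, sum_sub_distrib, mul_assoc, ← mul_sum, hs e]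
      push_cast
      ring
    have b0 : ∀ t, (0 : ℝ) ≤ v t e := fun t => by exact_mod_cast h0 t e
    have b1 : ∀ t, (v t e : ℝ) ≤ 1 := fun t => by exact_mod_cast h1 t e
    have f0 : ∀ t, 0 ≤ (m : ℝ) * w t - a t := fun t => sub_nonneg.2 (Int.floor_le _)
    have f1 : ∀ t, (m : ℝ) * w t - a t ≤ 1 := fun t => by
      have := Int.lt_floor_add_one ((m : ℝ) * w t)
      simp only [a]; linarith
    rw [mem_Icc]
    constructor
    · have : (0 : ℝ) ≤ ρ e := by
        rw [e1]; exact sum_nonneg fun t _ => mul_nonneg (f0 t) (b0 t)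
      exact_mod_cast this
    · have : (ρ e : ℝ) ≤ Fintype.card T := by
        rw [e1]
        calc _ ≤ ∑ _t : T, (1 : ℝ) := sum_le_sum fun t _ => by nlinarith [f0 t, f1 t, b0 t, b1 t]
          _ = _ := by simp
      exact_mod_cast this
  have pos : ∀ t, 0 ≤ a t + z ρ t := fun t => by
    have a1 : |z ρ t| ≤ a t := Int.le_floor.2 (hm t ρ hF)
    have := neg_abs_le (z ρ t)
    linarith
  refine ⟨fun t => (a t + z ρ t).toNat, fun e => ?_⟩
  simp only [Int.toNat_of_nonneg (pos _), add_mul, sum_add_distrib, hz ρ hρ e, ρ]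
  ring

/-- a lattice spanned by short nonnegative vectors has a small generating subset -/
theorem small_generators {E T : Type*} [Fintype E] (v : T → E → ℤ)
    (h0 : ∀ t e, 0 ≤ v t e) (h3 : ∀ t, ∑ e, v t e = 3) (K : Finset T) :
    ∃ J ⊆ K, J.card ≤ 7 * Fintype.card E ∧
      ∀ t ∈ K, v t ∈ AddSubgroup.closure (v '' (J : Set T)) := by
  classical
  obtain ⟨J, hJ, hmin⟩ := exists_min_image
    (K.powerset.filter fun J : Finset T => ∀ t ∈ K, v t ∈ AddSubgroup.closure (v '' (J : Set T))) card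
    ⟨K, by
      simp only [mem_filter, mem_powerset, subset_refl, true_and]
      exact fun t ht => AddSubgroup.subset_closure ⟨t, ht, rfl⟩⟩
  simp only [mem_filter, mem_powerset] at hJ hmin
  refine ⟨J, hJ.1, ?_, hJ.2⟩
  have indep : ∀ j ∈ J, v j ∉ AddSubgroup.closure (v '' (J.erase j : Set T)) := by
    intro j hj hc
    have := hmin (J.erase j) ⟨(erase_subset _ _).trans hJ.1, fun t ht => ?_⟩
    · have := card_erase_lt_of_mem hj
      omega
    · refine (AddSubgroup.closure_le _).2 ?_ (hJ.2 t ht)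
      rintro _ ⟨i, hi, rfl⟩
      by_cases e : i = j
      · rw [e]; exact hc
      · exact AddSubgroup.subset_closure ⟨i, by simpa using ⟨hi, e⟩, rfl⟩
  have aux : ∀ A B : Finset T, A ⊆ J → B ⊆ J → ∑ t ∈ A, v t = ∑ t ∈ B, v t → A ⊆ B := by
    intro A B hA hB e j hj
    by_contra hjB
    apply indep j (hA hj)
    have : v j = ∑ t ∈ B, v t - ∑ t ∈ A.erase j, v t := by
      rw [← e, ← add_sum_erase A v hj]; abel
    rw [this]
    refine sub_mem (sum_mem fun t ht => AddSubgroup.subset_closure ⟨t, ?_, rfl⟩)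
      (sum_mem fun t ht => AddSubgroup.subset_closure ⟨t, ?_, rfl⟩)
    · simp only [coe_erase, Set.mem_sdiff, mem_coe, Set.mem_singleton_iff]
      exact ⟨hB ht, fun e' => hjB (e' ▸ ht)⟩
    · simp only [coe_erase, Set.mem_sdiff, mem_coe, Set.mem_singleton_iff]
      exact ⟨hA (mem_of_mem_erase ht), ne_of_mem_erase ht⟩
  set k := J.card with hk
  let g : Finset T → E → ℕ := fun A e => (∑ t ∈ A, v t e).toNat
  have hg : ∀ A e, (g A e : ℤ) = ∑ t ∈ A, v t e := fun A e =>
    Int.toNat_of_nonneg (sum_nonneg fun t _ => h0 t e)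
  have hsum : ∀ A, ∑ e, g A e = 3 * A.card := fun A => by
    have : ((∑ e, g A e : ℕ) : ℤ) = 3 * A.card := by
      push_cast
      simp only [hg]
      rw [sum_comm]
      simp [h3, mul_comm]
    exact_mod_cast this
  have inj : Set.InjOn g (J.powerset : Set (Finset T)) := by
    intro A hA B hB e
    have hA' : A ⊆ J := mem_powerset.1 hA
    have hB' : B ⊆ J := mem_powerset.1 hB
    have : ∑ t ∈ A, v t = ∑ t ∈ B, v t := by
      funext i
      simp only [Finset.sum_apply]
      rw [← hg, ← hg, e]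
    exact (aux A B hA' hB' this).antisymm (aux B A hB' hA' this.symm)
  let P : Finset (E → ℕ) := Fintype.piFinset fun _ => range (3 * k + 1)
  have sub : J.powerset.image g ⊆ P := by
    intro z hz
    obtain ⟨A, hA, rfl⟩ := mem_image.1 hz
    rw [Fintype.mem_piFinset]
    intro e
    have a1 : g A e ≤ ∑ e, g A e := single_le_sum (fun _ _ => Nat.zero_le _) (mem_univ e)
    have a2 := card_le_card (mem_powerset.1 hA)
    rw [hsum] at a1
    rw [mem_range]
    omega
  have c1 : (2 : ℝ) ^ k * (9 / 10) ^ (3 * k) ≤ 10 ^ Fintype.card E := by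
    calc (2 : ℝ) ^ k * (9 / 10) ^ (3 * k) = ∑ _A ∈ J.powerset, (9 / 10 : ℝ) ^ (3 * k) := by
          simp [card_powerset, hk]
      _ ≤ ∑ A ∈ J.powerset, ∏ e, (9 / 10 : ℝ) ^ g A e := by
          refine sum_le_sum fun A hA => ?_
          rw [prod_pow_eq_pow_sum, hsum]
          refine pow_le_pow_of_le_one (by norm_num) (by norm_num) ?_
          have := card_le_card (mem_powerset.1 hA)
          omega
      _ = ∑ z ∈ J.powerset.image g, ∏ e, (9 / 10 : ℝ) ^ z e :=
          (sum_image (f := fun z : E → ℕ => ∏ e, (9 / 10 : ℝ) ^ z e) inj).symm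
      _ ≤ ∑ z ∈ P, ∏ e, (9 / 10 : ℝ) ^ z e :=
          sum_le_sum_of_subset_of_nonneg sub fun _ _ _ => by positivity
      _ = ∏ _e : E, ∑ i ∈ range (3 * k + 1), (9 / 10 : ℝ) ^ i := (prod_univ_sum _ _).symm
      _ ≤ ∏ _e : E, (10 : ℝ) := by
          refine prod_le_prod (fun _ _ => by positivity) fun _ _ => ?_
          rw [geom_sum_eq (by norm_num)]
          have : (0 : ℝ) ≤ (9 / 10) ^ (3 * k + 1) := by positivity
          rw [div_le_iff_of_neg (by norm_num)]
          linarith
      _ = _ := by simp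
  by_contra hc
  replace hc := not_le.1 hc
  have c2 : (10 : ℝ) ^ Fintype.card E < (2 : ℝ) ^ k * (9 / 10) ^ (3 * k) := by
    rw [pow_mul, ← mul_pow]
    calc (10 : ℝ) ^ Fintype.card E ≤ ((2 * (9 / 10) ^ 3) ^ 7) ^ Fintype.card E :=
          pow_le_pow_left₀ (by norm_num) (by norm_num) _
      _ = (2 * (9 / 10) ^ 3) ^ (7 * Fintype.card E) := by rw [← pow_mul]
      _ < _ := pow_lt_pow_right₀ (by norm_num) hc
  linarith

end Pool.Agent.P.MP_224820_co
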