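import Pool.Agent.P.MP_224820_co.Ind

namespace Pool.Agent.P.MP_224820_co

open Finset

variable {V : Type*} [Fintype V]

lemma sum3_const (c : ℝ) : ∑ _u : V, ∑ _v : V, ∑ _w : V, c = c * (Fintype.card V : ℝ) ^ 3 := by
  simp; ring

/-- The bulk lemma. -/
theorem bulk (z : V → V → ℝ) (hs : ∀ u v, z u v = z v u) (hn : 0 < (Fintype.card V : ℝ))
    (b : V → V → V → ℝ) (hb0 : ∀ u v w, 0 ≤ b u v w)
    (hb : ∀ u v w, -b u v w ≤ z u v + z u w + z v w)
    (hB : ∑ u, ∑ v, ∑ w, b u v w ≤ (Fintype.card V : ℝ) ^ 3 / 10 ^ 15)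
    (hX : (Fintype.card V : ℝ) ^ 2 / 10 ^ 7 ≤ c2 (fun u v => z u v = -1)) :
    3 * ((Fintype.card V : ℝ) ^ 2 / 10 ^ 7) < ∑ u, ∑ v, z u v := by
  by_contra hZ
  push Not at hZ
  set n : ℝ := (Fintype.card V : ℝ) with hnd
  set d : V → ℝ := fun u => ∑ w, z u w with hd
  set Z : ℝ := ∑ u, ∑ v, z u v with hZd
  set B2 : V → V → ℝ := fun u v => ∑ w, b u v w with hB2
  set B1 : V → ℝ := fun u => ∑ v, B2 u v with hB1
  set Bt : ℝ := ∑ u, B1 u with hBt
  have hBt' : Bt ≤ n ^ 3 / 10 ^ 15 := hB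
  have B2n : ∀ u v, 0 ≤ B2 u v := fun u v => sum_nonneg fun w _ => hb0 u v w
  have B1n : ∀ u, 0 ≤ B1 u := fun u => sum_nonneg fun v _ => B2n u v
  have Btn : 0 ≤ Bt := sum_nonneg fun u _ => B1n u
  have e2 : ∀ u v, -B2 u v ≤ n * z u v + d u + d v := by
    intro u v
    have : ∑ w, -b u v w ≤ ∑ w, (z u v + z u w + z v w) := sum_le_sum fun w _ => hb u v w
    simp only [sum_neg_distrib, sum_add_distrib, sum_const, card_univ, nsmul_eq_mul] at this
    exact this
  have e1 : ∀ u, -B1 u ≤ 2 * n * d u + Z := by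
    intro u
    have : ∑ v, -B2 u v ≤ ∑ v, (n * z u v + d u + d v) := sum_le_sum fun v _ => e2 u v
    simp only [sum_neg_distrib, sum_add_distrib, sum_const, card_univ, nsmul_eq_mul,
      ← mul_sum] at this
    have h2 : ∑ v, d v = Z := rfl
    have h3 : ∑ v, z u v = d u := rfl
    rw [h2, h3] at this
    change -B1 u ≤ _ at this
    linarith
  set U : V → Prop := fun u => n / 4 ≤ d u with hU
  set N : V → ℝ := fun u => c1 (fun v => z u v = -1) with hN
  have s2 : ∀ u v, ind (z u v = -1) ≤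
      ind (U u) * ind (z u v = -1) + ind (U v) * ind (z v u = -1) + 2 / n * B2 u v := by
    intro u v
    have hpos : 0 ≤ 2 / n * B2 u v := mul_nonneg (by positivity) (B2n u v)
    rw [hs v u]
    by_cases h : z u v = -1
    · rw [ind_pos h]
      by_cases h1 : U u
      · rw [ind_pos h1]; nlinarith [ind_nonneg (U v)]
      by_cases h2 : U v
      · rw [ind_pos h2]; nlinarith [ind_nonneg (U u)]
      rw [ind_neg h1, ind_neg h2]
      simp only [hU, not_le] at h1 h2
      have := e2 u v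
      rw [h] at this
      have h4 : n / 2 ≤ B2 u v := by linarith
      have : 1 ≤ 2 / n * B2 u v := by
        rw [div_mul_eq_mul_div, le_div_iff₀ hn]; linarith
      linarith
    · rw [ind_neg h]; simpa using hpos
  have t2 : n ^ 2 / 10 ^ 7 ≤ 2 * ∑ u, ind (U u) * N u + 2 / n * Bt := by
    refine hX.trans ?_
    have : c2 (fun u v => z u v = -1) ≤ ∑ u, ∑ v, (ind (U u) * ind (z u v = -1) +
        ind (U v) * ind (z v u = -1) + 2 / n * B2 u v) :=
      sum_le_sum fun u _ => sum_le_sum fun v _ => s2 u v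
    refine this.trans (le_of_eq ?_)
    simp only [sum_add_distrib]
    rw [sum_comm (f := fun u v => ind (U v) * ind (z v u = -1))]
    simp only [← mul_sum]
    change ∑ u, ind (U u) * N u + ∑ u, ind (U u) * N u + 2 / n * Bt = _
    ring
  have s3 : ∀ u, n / 4 * ind (U u) - (3 * (n ^ 2 / 10 ^ 7) + B1 u) / (2 * n) ≤ d u := by
    intro u
    have h0 : 0 ≤ (3 * (n ^ 2 / 10 ^ 7) + B1 u) / (2 * n) := by
      have := B1n u; positivity
    by_cases h : U u
    · rw [ind_pos h]; simp only [hU] at h; linarith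
    · rw [ind_neg h]
      have := e1 u
      have h5 : -(3 * (n ^ 2 / 10 ^ 7) + B1 u) / (2 * n) ≤ d u := by
        rw [div_le_iff₀ (by positivity)]; linarith
      rw [neg_div] at h5
      linarith
  have t3 : c1 U ≤ 20 * (n / 10 ^ 7) := by
    have : ∑ u, (n / 4 * ind (U u) - (3 * (n ^ 2 / 10 ^ 7) + B1 u) / (2 * n)) ≤ ∑ u, d u :=
      sum_le_sum fun u _ => s3 u
    simp only [sum_sub_distrib, ← mul_sum, ← sum_div, sum_add_distrib, sum_const, card_univ,
      nsmul_eq_mul] at this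
    change n / 4 * c1 U - (3 * (n * n ^ 2 / 10 ^ 7) + Bt) / (2 * n) ≤ Z at this
    have h6 : (3 * (n * n ^ 2 / 10 ^ 7) + Bt) / (2 * n) ≤ 2 * (n ^ 2 / 10 ^ 7) := by
      rw [div_le_iff₀ (by positivity)]
      have : 0 < n ^ 3 := by positivity
      nlinarith
    have h7 : n / 4 * c1 U ≤ n / 4 * (20 * (n / 10 ^ 7)) := by nlinarith
    exact le_of_mul_le_mul_left h7 (by positivity)
  have s4 : ∀ u, 6 * N u ^ 3 ≤ 9 * (n ^ 3 / 10 ^ 7) + 3 * n * B1 u + Bt := by
    intro u
    have p : ∀ v w x, 6 * (ind (z u v = -1) * ind (z u w = -1) * ind (z u x = -1))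
        - b u v w - b u v x - b u w x - b v w x ≤ z v w + z v x + z w x := by
      intro v w x
      have := hb0 u v w
      have := hb0 u v x
      have := hb0 u w x
      have := hb0 v w x
      have h0 := hb v w x
      by_cases h1 : z u v = -1
      · by_cases h2 : z u w = -1
        · by_cases h3 : z u x = -1
          · rw [ind_pos h1, ind_pos h2, ind_pos h3]
            have a1 := hb u v w
            have a2 := hb u v x
            have a3 := hb u w x
            rw [h1, h2] at a1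
            rw [h1, h3] at a2
            rw [h2, h3] at a3
            linarith
          · rw [ind_neg h3]; linarith
        · rw [ind_neg h2]; linarith
      · rw [ind_neg h1]; linarith
    have := sum_le_sum fun v (_ : v ∈ univ) => sum_le_sum fun w (_ : w ∈ univ) =>
      sum_le_sum fun x (_ : x ∈ univ) => p v w x
    simp only [sum_sub_distrib, sum_add_distrib, sum_const, card_univ, nsmul_eq_mul,
      ← mul_sum, ← sum_mul] at this
    change 6 * (N u * N u * N u) - n * B1 u - n * B1 u - n * B1 u - Bt ≤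
      n * Z + n * Z + n * Z at this
    have h8 : n * Z ≤ n * (3 * (n ^ 2 / 10 ^ 7)) := mul_le_mul_of_nonneg_left hZ hn.le
    nlinarith
  have s5 : ∀ u, ind (U u) * N u ≤ n / 100 * ind (U u) + 10 ^ 7 / n * B1 u := by
    intro u
    have h0 : 0 ≤ 10 ^ 7 / n * B1 u := mul_nonneg (by positivity) (B1n u)
    by_cases h : U u
    swap
    · rw [ind_neg h]; simpa using h0
    rw [ind_pos h]
    by_cases hb1 : n ^ 2 / 10 ^ 7 ≤ B1 u
    · have : N u ≤ n := c1_le _
      have h9 : n ≤ 10 ^ 7 / n * B1 u := by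
        rw [div_mul_eq_mul_div, le_div_iff₀ hn]; nlinarith
      nlinarith
    · push Not at hb1
      have h4 := s4 u
      have hN0 : 0 ≤ N u := c1_nonneg _
      have h10 : N u ^ 3 ≤ (n / 100) ^ 3 := by
        have : n * B1 u ≤ n * (n ^ 2 / 10 ^ 7) := mul_le_mul_of_nonneg_left hb1.le hn.le
        have : 0 < n ^ 3 := by positivity
        nlinarith
      have : N u ≤ n / 100 := le_of_pow_le_pow_left₀ (by norm_num) (by positivity) h10
      linarith
  have t5 : ∑ u, ind (U u) * N u ≤ n / 100 * c1 U + 10 ^ 7 / n * Bt := by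
    have := sum_le_sum fun u (_ : u ∈ univ) => s5 u
    simp only [sum_add_distrib, ← mul_sum] at this
    exact this
  have f1 : 10 ^ 7 / n * Bt ≤ n ^ 2 / 10 ^ 8 := by
    rw [div_mul_eq_mul_div, div_le_iff₀ hn]; nlinarith
  have f2 : 2 / n * Bt ≤ 2 * n ^ 2 / 10 ^ 15 := by
    rw [div_mul_eq_mul_div, div_le_iff₀ hn]; nlinarith
  have f3 : n / 100 * c1 U ≤ n / 100 * (20 * (n / 10 ^ 7)) :=
    mul_le_mul_of_nonneg_left t3 (by positivity)
  have : 0 < n ^ 2 := by positivity
  nlinarith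

/-- layer cake comparison -/
theorem layer_cake {ι : Type*} [Fintype ι] (F G : ι → ℝ) (k : ℕ)
    (h : ∀ s : ℝ, 0 < s → k * c1 (fun i => s ≤ F i) ≤ c1 (fun i => s ≤ G i)) :
    k * ∑ i, max (F i) 0 ≤ ∑ i, max (G i) 0 := by
  open MeasureTheory in
  have key : ∀ F : ι → ℝ, ∑ i, max (F i) 0 = ∫ s in Set.Ioi (0 : ℝ), c1 (fun i => s ≤ F i) ∧
      IntegrableOn (fun s => c1 (fun i => s ≤ F i)) (Set.Ioi 0) := by
    intro F
    have e : ∀ i, (fun s : ℝ => ind (s ≤ F i)) = (Set.Iic (F i)).indicator 1 := by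
      intro i
      funext s
      by_cases hs : s ≤ F i <;> simp [ind, hs, Set.indicator]
    have int : ∀ i, IntegrableOn (fun s : ℝ => ind (s ≤ F i)) (Set.Ioi 0) := by
      intro i
      rw [e, IntegrableOn, integrable_indicator_iff measurableSet_Iic, IntegrableOn,
        Measure.restrict_restrict measurableSet_Iic, Set.Iic_inter_Ioi]
      exact integrable_const _
    refine ⟨?_, integrable_finsetSum _ fun i _ => int i⟩
    unfold c1
    rw [integral_finsetSum _ fun i _ => int i]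
    refine sum_congr rfl fun i _ => ?_
    rw [e, integral_indicator_one measurableSet_Iic, measureReal_restrict_apply measurableSet_Iic,
      Set.Iic_inter_Ioi]
    simp
  rw [(key F).1, (key G).1, ← MeasureTheory.integral_const_mul]
  refine MeasureTheory.setIntegral_mono_on ((key F).2.const_mul _) (key G).2 measurableSet_Ioi ?_
  intro s hs
  exact h s hs

/-- the threshold level -/
theorem exists_level (f : V → V → ℝ) (L : ℝ) (hL : 0 ≤ L) :
    ∃ s0 : ℝ, 0 ≤ s0 ∧ c2 (fun u v => s0 < f u v) ≤ L ∧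
      (0 < s0 → L ≤ c2 (fun u v => s0 ≤ f u v)) := by
  classical
  let S : Finset ℝ := (univ.image fun p : V × V => f p.1 p.2).filter
    fun s => 0 < s ∧ L ≤ c2 (fun u v => s ≤ f u v)
  have aux : ∀ s0 : ℝ, 0 ≤ s0 → (∀ s ∈ S, s ≤ s0) → c2 (fun u v => s0 < f u v) ≤ L := by
    intro s0 h0 hS
    by_contra hc
    push Not at hc
    let T : Finset (V × V) := univ.filter fun p => s0 < f p.1 p.2
    have hT : T.Nonempty := by
      obtain ⟨u, v, huv⟩ := c2_pos_iff.1 (hL.trans_lt hc)
      exact ⟨(u, v), by simp [T, huv]⟩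
    obtain ⟨p, hp, hmin⟩ := T.exists_min_image (fun p => f p.1 p.2) hT
    simp only [T, mem_filter, mem_univ, true_and] at hp hmin
    have : f p.1 p.2 ∈ S := by
      simp only [S, mem_filter, mem_image, mem_univ, true_and]
      refine ⟨⟨p, rfl⟩, h0.trans_lt hp, hc.le.trans (c2_mono fun u v h => hmin (u, v) h)⟩
    linarith [hS _ this]
  by_cases hS : S.Nonempty
  · have hm := S.max'_mem hS
    simp only [S, mem_filter] at hm
    exact ⟨S.max' hS, hm.2.1.le, aux _ hm.2.1.le fun s hs => S.le_max' s hs, fun _ => hm.2.2⟩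
  · refine ⟨0, le_rfl, aux 0 le_rfl fun s hs => (hS ⟨s, hs⟩).elim, fun h => (lt_irrefl _ h).elim⟩

end Pool.Agent.P.MP_224820_co
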