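import Pool.Agent.P.MP_224820_co.Ind

namespace Pool.Agent.P.MP_224820_co

open Finset

variable {V : Type*} [Fintype V]

def Dist (u v w : V) : Prop := u ≠ v ∧ u ≠ w ∧ v ≠ w

structure IsSym (a : V → V → V → Prop) : Prop where
  s12 : ∀ {u v w}, a u v w → a v u w
  s23 : ∀ {u v w}, a u v w → a u w v
  ne : ∀ {u v w}, a u v w → u ≠ v

omit [Fintype V] in
lemma IsSym.dist {a : V → V → V → Prop} (h : IsSym a) {u v w : V} (ha : a u v w) :
    Dist u v w :=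
  ⟨h.ne ha, h.ne (h.s23 ha), h.ne (h.s23 (h.s12 ha))⟩

/-- few kept cherries centred at vertices of low degree -/
def Cherry (a : V → V → V → Prop) (D γ : ℝ) : Prop :=
  ∀ S : V → V → Prop,
    c3 (fun u v w => a u v w ∧ S u v ∧ S u w ∧ c1 (S u) ≤ γ * Fintype.card V) ≤ D / 10 ^ 6 * c2 S

/-- large labelled families rooted at a vertex set keep their share of triangles -/
def Rooted (a : V → V → V → Prop) (D θ : ℝ) {Λ : Type*} (l0 : Λ) (Φ : Λ → Λ → Λ → Prop) : Prop :=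
  ∀ (H : V → Prop) (l : V → V → Λ), (∀ u v, ¬ H u → ¬ H v → l u v = l0) → (∃ u, H u) →
    θ * c1 H * (Fintype.card V : ℝ) ^ 2 ≤
      c3 (fun u v w => Dist u v w ∧ Φ (l u v) (l u w) (l v w)) →
    D / (24 * Fintype.card V) * c3 (fun u v w => Dist u v w ∧ Φ (l u v) (l u w) (l v w)) ≤
      c3 (fun u v w => a u v w ∧ Φ (l u v) (l u w) (l v w))

def Phi3 (p q r : Prop × Prop × Prop) : Prop := p.1 ∧ ¬ q.2.1 ∧ ¬ r.2.2

lemma Rooted.three {a : V → V → V → Prop} {D θ : ℝ}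
    (h : Rooted a D θ (False, False, False) Phi3) (H : V → Prop) (X1 X2 X3 : V → V → Prop)
    (h1 : ∀ u v, X1 u v → H u ∨ H v) (h2 : ∀ u v, X2 u v → H u ∨ H v)
    (h3 : ∀ u v, X3 u v → H u ∨ H v) (hH : ∃ u, H u)
    (hc : θ * c1 H * (Fintype.card V : ℝ) ^ 2 ≤
      c3 (fun u v w => Dist u v w ∧ X1 u v ∧ ¬ X2 u w ∧ ¬ X3 v w)) :
    D / (24 * Fintype.card V) * c3 (fun u v w => Dist u v w ∧ X1 u v ∧ ¬ X2 u w ∧ ¬ X3 v w) ≤
      c3 (fun u v w => a u v w ∧ X1 u v ∧ ¬ X2 u w ∧ ¬ X3 v w) := by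
  refine h H (fun u v => (X1 u v, X2 u v, X3 u v)) ?_ hH hc
  intro u v hu hv
  have e1 : X1 u v = False := propext ⟨fun h => by have := h1 u v h; tauto, False.elim⟩
  have e2 : X2 u v = False := propext ⟨fun h => by have := h2 u v h; tauto, False.elim⟩
  have e3 : X3 u v = False := propext ⟨fun h => by have := h3 u v h; tauto, False.elim⟩
  simp [e1, e2, e3]

lemma c2_touch {X : V → V → Prop} (hX : ∀ u v, X u v → X v u) (G : V → Prop) :
    c2 (fun u v => X u v ∧ (G u ∨ G v)) ≤ 2 * c2 (fun u v => G u ∧ X u v) := by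
  have h1 : c2 (fun u v => X u v ∧ (G u ∨ G v)) ≤
      c2 (fun u v => G u ∧ X u v) + c2 (fun u v => G v ∧ X v u) :=
    c2_le_add fun u v h => h.2.imp (fun g => ⟨g, h.1⟩) (fun g => ⟨g, hX _ _ h.1⟩)
  rw [c2_swap (fun u v => G u ∧ X u v)] at h1
  linarith

/-- a small graph has many triangles avoiding a not much larger graph -/
theorem many_triangles (X Y : V → V → Prop) (hX : ∀ u v, X u v → X v u)
    (hXd : ∀ u, ¬ X u u) (hXY : ∀ u v, X u v → ¬ Y u v)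
    (hn : 10 ^ 4 ≤ (Fintype.card V : ℝ)) (hY : c2 Y ≤ 6 * c2 X)
    (hx : c2 X ≤ (Fintype.card V : ℝ) ^ 2 / 10 ^ 7) :
    c2 X * Fintype.card V / 500 ≤ c3 (fun u v w => Dist u v w ∧ X u v ∧ ¬ Y u w ∧ ¬ Y v w) := by
  set n : ℝ := (Fintype.card V : ℝ) with hnd
  set x := c2 X with hxd
  have x0 : 0 ≤ x := c2_nonneg _
  have hn0 : 0 < n := by linarith
  set G : V → Prop := fun u => n / 4 ≤ c1 (Y u) with hG
  have hg : n / 4 * c1 G ≤ 6 * x := (mul_le_c2 fun u hu => hu).trans hY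
  have hne : ∀ u v, X u v → u ≠ v := fun u v h e => hXd u (by rw [← e] at h; exact h)
  have hsplit := c2_split X (fun u v => G u ∨ G v)
  by_cases hc : x / 2 ≤ c2 (fun u v => X u v ∧ ¬ (G u ∨ G v))
  · have h1 : n / 4 * c2 (fun u v => X u v ∧ ¬ (G u ∨ G v)) ≤
        c3 (fun u v w => (X u v ∧ ¬ (G u ∨ G v)) ∧ (w ≠ u ∧ w ≠ v ∧ ¬ Y u w ∧ ¬ Y v w)) := by
      refine mul_le_c3 fun u v h => ?_
      have hu : c1 (Y u) < n / 4 := by
        by_contra hh; exact h.2 (Or.inl (not_lt.1 hh))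
      have hv : c1 (Y v) < n / 4 := by
        by_contra hh; exact h.2 (Or.inr (not_lt.1 hh))
      have e := c1_not (fun w => w ≠ u ∧ w ≠ v ∧ ¬ Y u w ∧ ¬ Y v w)
      have a1 : c1 (fun w => ¬ (w ≠ u ∧ w ≠ v ∧ ¬ Y u w ∧ ¬ Y v w)) ≤
          c1 (fun w => w = u ∨ w = v) + c1 (fun w => Y u w ∨ Y v w) :=
        c1_le_add fun w hw => by tauto
      have a2 : c1 (fun w => w = u ∨ w = v) ≤ c1 (fun w => w = u) + c1 (fun w => w = v) :=
        c1_le_add fun w hw => hw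
      have a3 : c1 (fun w => Y u w ∨ Y v w) ≤ c1 (Y u) + c1 (Y v) := c1_le_add fun w hw => hw
      have := c1_eq_le u
      have := c1_eq_le v
      linarith
    have h2 : c3 (fun u v w => (X u v ∧ ¬ (G u ∨ G v)) ∧ (w ≠ u ∧ w ≠ v ∧ ¬ Y u w ∧ ¬ Y v w)) ≤
        c3 (fun u v w => Dist u v w ∧ X u v ∧ ¬ Y u w ∧ ¬ Y v w) :=
      c3_mono fun u v w h => ⟨⟨hne _ _ h.1.1, h.2.1.symm, h.2.2.1.symm⟩, h.1.1, h.2.2.2⟩
    nlinarith
  · replace hc := not_le.1 hc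
    have h1 : x / 4 ≤ c2 (fun u v => G u ∧ X u v) := by
      have := c2_touch hX G
      linarith
    have h1' : c2 (fun u v => G u ∧ X u v) = ∑ u, ind (G u) * c1 (X u) := by
      simp only [c2_eq, c1_and_left]
    have h2 : c3 (fun u v w => G u ∧ X u v ∧ X u w) = ∑ u, ind (G u) * c1 (X u) ^ 2 := by
      simp only [c3, ind_and, ← mul_sum, ← sum_mul, sq]
      rfl
    have cs : (∑ u, ind (G u) * c1 (X u)) ^ 2 ≤ c1 G * ∑ u, ind (G u) * c1 (X u) ^ 2 := by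
      have := sum_mul_sq_le_sq_mul_sq univ (fun u => ind (G u)) (fun u => ind (G u) * c1 (X u))
      have e : ∀ u, ind (G u) * ind (G u) = ind (G u) := fun u => by
        rw [← ind_and, and_self]
      simp only [← mul_assoc, e, mul_pow, sq (ind _)] at this
      exact this
    have h3 : c3 (fun u v w => G u ∧ X u v ∧ X u w) ≤
        c3 (fun u v w => Dist u v w ∧ X u v ∧ ¬ Y u w ∧ ¬ Y v w) +
        c3 (fun u v w => X u v ∧ w = v) + c3 (fun u v w => G u ∧ Y v w) := by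
      refine c3_le_add3 fun u v w h => ?_
      by_cases e : w = v
      · exact Or.inr (Or.inl ⟨h.2.1, e⟩)
      by_cases e' : Y v w
      · exact Or.inr (Or.inr ⟨h.1, e'⟩)
      exact Or.inl ⟨⟨hne _ _ h.2.1, hne _ _ h.2.2, fun e2 => e e2.symm⟩, h.2.1, hXY _ _ h.2.2, e'⟩
    have h4 : c3 (fun u v w => X u v ∧ w = v) ≤ 1 * x := c3_le_mul fun u v _ => c1_eq_le v
    have h5 : c3 (fun u v w => G u ∧ Y v w) = c1 G * c2 Y := by
      simp only [c3, ind_and, ← mul_sum, ← sum_mul]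
      rfl
    rw [h2, h5] at h3
    rw [h1'] at h1
    set T := ∑ u, ind (G u) * c1 (X u) ^ 2 with hT
    set g := c1 G
    have g0 : 0 ≤ g := c1_nonneg _
    have T0 : 0 ≤ T := sum_nonneg fun u _ => mul_nonneg (ind_nonneg _) (sq_nonneg _)
    have xpos : 0 < x := by
      have := c2_nonneg (fun u v => X u v ∧ ¬ (G u ∨ G v))
      linarith
    have k1 : (x / 4) ^ 2 ≤ g * T := (pow_le_pow_left₀ (by positivity) h1 2).trans cs
    have k2 : x * n / 384 ≤ T := by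
      have : n / 4 * (x / 4) ^ 2 ≤ 6 * x * T := by nlinarith
      have h7 : x * (x * n / 384) ≤ x * T := by nlinarith
      exact le_of_mul_le_mul_left h7 xpos
    have k3 : g * c2 Y ≤ 144 / 10 ^ 7 * x * n := by
      have y0 : 0 ≤ c2 Y := c2_nonneg _
      have h8 : n * (g * c2 Y) ≤ n * (144 / 10 ^ 7 * x * n) := by
        have : n * g * c2 Y ≤ 24 * x * (6 * x) :=
          mul_le_mul (by linarith) hY y0 (by positivity)
        nlinarith
      exact le_of_mul_le_mul_left h8 hn0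
    nlinarith

/-- the low part: edges of `X` with both ends of low degree are less than half -/
theorem low_half {a : V → V → V → Prop} (ha : IsSym a) {D γ : ℝ} (hD : 10 ^ 5 ≤ D)
    (hC : Cherry a D γ) (X S : V → V → Prop) (hX : ∀ u v, X u v → X v u)
    (hXS : ∀ u v, X u v → S u v) (hS : c2 S ≤ 4 * c2 X) (hx : 0 < c2 X)
    (hdeg : ∀ u v, X u v → D / 200 ≤ c1 (a u v))
    (hbad : ∀ u v, X u v → c1 (fun w => a u v w ∧ ¬ S u w ∧ ¬ S v w) ≤ 3) :
    c2 X / 2 ≤ c2 (fun u v => X u v ∧ (γ * Fintype.card V < c1 (S u) ∨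
      γ * Fintype.card V < c1 (S v))) := by
  set H : V → Prop := fun u => γ * Fintype.card V < c1 (S u) with hH
  have hsplit := c2_split X (fun u v => H u ∨ H v)
  by_contra hc
  push Not at hc
  have h1 : (D / 200 - 3) * c2 (fun u v => X u v ∧ ¬ (H u ∨ H v)) ≤
      c3 (fun u v w => (X u v ∧ ¬ (H u ∨ H v)) ∧ (a u v w ∧ (S u w ∨ S v w))) := by
    refine mul_le_c3 fun u v h => ?_
    have : c1 (a u v) ≤ c1 (fun w => a u v w ∧ (S u w ∨ S v w)) +
        c1 (fun w => a u v w ∧ ¬ S u w ∧ ¬ S v w) := c1_le_add fun w hw => by tauto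
    linarith [hdeg u v h.1, hbad u v h.1]
  have h2 : c3 (fun u v w => (X u v ∧ ¬ (H u ∨ H v)) ∧ (a u v w ∧ (S u w ∨ S v w))) ≤
      c3 (fun u v w => a u v w ∧ S u v ∧ S u w ∧ c1 (S u) ≤ γ * Fintype.card V) +
      c3 (fun u v w => a v u w ∧ S v u ∧ S v w ∧ c1 (S v) ≤ γ * Fintype.card V) := by
    refine c3_le_add fun u v w h => ?_
    obtain ⟨⟨hx, hh⟩, haa, hs⟩ := h
    simp only [hH, not_or, not_lt] at hh
    rcases hs with hs | hs
    · exact Or.inl ⟨haa, hXS _ _ hx, hs, hh.1⟩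
    · exact Or.inr ⟨ha.s12 haa, hXS _ _ (hX _ _ hx), hs, hh.2⟩
  rw [c3_swap12 (fun u v w => a u v w ∧ S u v ∧ S u w ∧ c1 (S u) ≤ γ * Fintype.card V)] at h2
  have h3 := hC S
  have h4 : D / 10 ^ 6 * c2 S ≤ D / 10 ^ 6 * (4 * c2 X) :=
    mul_le_mul_of_nonneg_left hS (by positivity)
  have h5 : (D / 200 - 3) * (c2 X / 2) ≤ (D / 200 - 3) * c2 (fun u v => X u v ∧ ¬ (H u ∨ H v)) :=
    mul_le_mul_of_nonneg_left (by linarith) (by linarith)
  nlinarith

/-- small set expansion -/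
theorem expand {a : V → V → V → Prop} (ha : IsSym a) {D γ : ℝ} (hD : 10 ^ 5 ≤ D)
    (hn : 10 ^ 4 ≤ (Fintype.card V : ℝ))
    (hC : Cherry a D γ) (hR : Rooted a D (γ / 4000) (False, False, False) Phi3)
    (X Y : V → V → Prop) (hX : ∀ u v, X u v → X v u) (hXd : ∀ u, ¬ X u u)
    (hXY : ∀ u v, X u v → ¬ Y u v)
    (hx : c2 X ≤ (Fintype.card V : ℝ) ^ 2 / 10 ^ 7)
    (hdeg : ∀ u v, X u v → D / 200 ≤ c1 (a u v))
    (hbad : ∀ u v, X u v → c1 (fun w => a u v w ∧ ¬ Y u w ∧ ¬ Y v w) ≤ 3) :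
    3 * c2 X ≤ c2 Y := by
  by_contra hY
  push Not at hY
  set n : ℝ := (Fintype.card V : ℝ) with hnd
  have hn0 : 0 < n := by linarith
  have xpos : 0 < c2 X := by linarith [c2_nonneg Y]
  set S : V → V → Prop := fun u v => X u v ∨ Y u v with hSd
  have hS : c2 S ≤ 4 * c2 X := by
    have : c2 S ≤ c2 X + c2 Y := c2_le_add fun u v h => h
    linarith
  have h1 := low_half ha hD hC X S hX (fun u v h => Or.inl h) hS xpos hdeg
    (fun u v h => (c1_mono fun w hw => ⟨hw.1, fun y => hw.2.1 (Or.inr y),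
      fun y => hw.2.2 (Or.inr y)⟩).trans (hbad u v h))
  set H : V → Prop := fun u => γ * n < c1 (S u) with hH
  set X' : V → V → Prop := fun u v => X u v ∧ (H u ∨ H v) with hX'
  set Y' : V → V → Prop := fun u v => Y u v ∧ (H u ∨ H v) with hY'
  change c2 X / 2 ≤ c2 X' at h1
  have hX'le : c2 X' ≤ c2 X := c2_mono fun u v h => h.1
  have hY'le : c2 Y' ≤ c2 Y := c2_mono fun u v h => h.1
  have h2 := many_triangles X' Y' (fun u v h => ⟨hX _ _ h.1, h.2.symm⟩) (fun u h => hXd u h.1)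
    (fun u v h h' => hXY u v h.1 h'.1) hn (by linarith) (by linarith)
  have hHne : ∃ u, H u := by
    obtain ⟨u, v, h⟩ := c2_pos_iff.1 (show 0 < c2 X' by linarith)
    rcases h.2 with h | h
    · exact ⟨u, h⟩
    · exact ⟨v, h⟩
  have hh : γ * n * c1 H ≤ 4 * c2 X := (mul_le_c2 fun u hu => le_of_lt hu).trans hS
  set Q := c3 (fun u v w => Dist u v w ∧ X' u v ∧ ¬ Y' u w ∧ ¬ Y' v w) with hQ
  have hQ1 : c2 X * n / 1000 ≤ Q := by nlinarith
  have h3 := hR.three H X' Y' Y' (fun u v h => h.2) (fun u v h => h.2) (fun u v h => h.2) hHne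
    (by nlinarith)
  have h4 : c3 (fun u v w => a u v w ∧ X' u v ∧ ¬ Y' u w ∧ ¬ Y' v w) ≤
      c3 (fun u v w => X u v ∧ (a u v w ∧ ¬ Y u w ∧ ¬ Y v w)) +
      c3 (fun u v w => a u v w ∧ S u v ∧ S u w ∧ c1 (S u) ≤ γ * n) +
      c3 (fun u v w => a v u w ∧ S v u ∧ S v w ∧ c1 (S v) ≤ γ * n) := by
    refine c3_le_add3 fun u v w h => ?_
    obtain ⟨haa, hx', hu, hv⟩ := h
    by_cases y1 : Y u w
    · refine Or.inr (Or.inl ⟨haa, Or.inl hx'.1, Or.inr y1, ?_⟩)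
      by_contra hh
      exact hu ⟨y1, Or.inl (not_le.1 hh)⟩
    by_cases y2 : Y v w
    · refine Or.inr (Or.inr ⟨ha.s12 haa, Or.inl (hX _ _ hx'.1), Or.inr y2, ?_⟩)
      by_contra hh
      exact hv ⟨y2, Or.inl (not_le.1 hh)⟩
    exact Or.inl ⟨hx'.1, haa, y1, y2⟩
  rw [c3_swap12 (fun u v w => a u v w ∧ S u v ∧ S u w ∧ c1 (S u) ≤ γ * n)] at h4
  have h5 : c3 (fun u v w => X u v ∧ (a u v w ∧ ¬ Y u w ∧ ¬ Y v w)) ≤ 3 * c2 X :=
    c3_le_mul hbad
  have h6 := hC S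
  have h7 : D / 10 ^ 6 * c2 S ≤ D / 10 ^ 6 * (4 * c2 X) :=
    mul_le_mul_of_nonneg_left hS (by positivity)
  have h8 : D / (24 * n) * (c2 X * n / 1000) ≤ D / (24 * n) * Q :=
    mul_le_mul_of_nonneg_left hQ1 (by positivity)
  have h9 : D / (24 * n) * (c2 X * n / 1000) = D * c2 X / 24000 := by
    field_simp; norm_num
  nlinarith

end Pool.Agent.P.MP_224820_co
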