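import Pool.Agent.P.MP_224820_co.Bulk
import Pool.Agent.P.MP_224820_co.Expand

namespace Pool.Agent.P.MP_224820_co

open Finset

variable {V : Type*} [Fintype V]

def Phi4 (M : ℕ) (p q r : Set.Icc (-(M : ℤ)) (2 * M)) : Prop := p.1 + q.1 + r.1 < 0

def lab0 (M : ℕ) : Set.Icc (-(M : ℤ)) (2 * M) := ⟨0, by constructor <;> omega⟩

lemma c1_prod (P : V → V → Prop) : c1 (fun p : V × V => P p.1 p.2) = c2 P := by
  unfold c1 c2
  rw [Fintype.sum_prod_type]

lemma c1_true : c1 (fun _ : V => True) = Fintype.card V := by simp [c1, ind]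

lemma c3_not_dist : c3 (fun u v w : V => ¬ Dist u v w) ≤ 3 * (Fintype.card V : ℝ) ^ 2 := by
  have h : c3 (fun u v w : V => True ∧ w = v) ≤ 1 * c2 (fun _ _ : V => True) :=
    c3_le_mul fun u v _ => c1_eq_le v
  have h0 := c2_le (fun _ _ : V => True)
  have h1 : c3 (fun u v w : V => ¬ Dist u v w) ≤ c3 (fun u v w : V => True ∧ w = v) +
      c3 (fun u v w : V => True ∧ w = u) + c3 (fun u v w : V => True ∧ u = v) := by
    refine c3_le_add3 fun u v w h => ?_
    unfold Dist at h
    by_cases e1 : w = v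
    · exact Or.inl ⟨trivial, e1⟩
    by_cases e2 : w = u
    · exact Or.inr (Or.inl ⟨trivial, e2⟩)
    refine Or.inr (Or.inr ⟨trivial, ?_⟩)
    by_contra e3
    exact h ⟨e3, fun e => e2 e.symm, fun e => e1 e.symm⟩
  rw [c3_swap12 (fun u v w : V => True ∧ w = v),
    ← c3_rot (fun u v w : V => True ∧ u = v), ← c3_rot (fun u v w : V => True ∧ v = w)] at h1
  have h2 : c3 (fun u v w : V => True ∧ w = u) = c3 (fun u v w : V => True ∧ w = v) :=
    c3_swap12 (fun u v w : V => True ∧ w = v)
  linarith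

/-- few kept triangles of negative weight -/
lemma neg_count {a : V → V → V → Prop} (ha : IsSym a) (X : V → V → Prop)
    (B : V → V → V → Prop) (hB1 : ∀ u v w, B u v w → B u w v) (hB2 : ∀ u v w, B u v w → B v w u)
    (hX : ∀ u v w, B u v w → X u v ∨ X u w ∨ X v w)
    (hbad : ∀ u v, X u v → c1 (fun w => a u v w ∧ B u v w) ≤ 3) :
    c3 (fun u v w => a u v w ∧ B u v w) ≤ 9 * c2 X := by
  have h : c3 (fun u v w => X u v ∧ (a u v w ∧ B u v w)) ≤ 3 * c2 X := c3_le_mul hbad
  have h1 : c3 (fun u v w => a u v w ∧ B u v w) ≤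
      c3 (fun u v w => X u v ∧ (a u v w ∧ B u v w)) +
      c3 (fun u v w => X u w ∧ (a u w v ∧ B u w v)) +
      c3 (fun u v w => X v w ∧ (a v w u ∧ B v w u)) := by
    refine c3_le_add3 fun u v w h => ?_
    rcases hX u v w h.2 with e | e | e
    · exact Or.inl ⟨e, h⟩
    · exact Or.inr (Or.inl ⟨e, ha.s23 h.1, hB1 _ _ _ h.2⟩)
    · exact Or.inr (Or.inr ⟨e, ha.s23 (ha.s12 h.1), hB2 _ _ _ h.2⟩)
  rw [c3_swap23 (fun u v w => X u v ∧ (a u v w ∧ B u v w)),
    c3_rot (fun u v w => X u v ∧ (a u v w ∧ B u v w))] at h1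
  linarith

theorem bulk_kept {a : V → V → V → Prop} {D : ℝ} (hD : 10 ^ 20 ≤ D)
    (hn : 10 ^ 17 ≤ (Fintype.card V : ℝ)) {M : ℕ} (hM : 10 ^ 16 ≤ (M : ℝ))
    (hR : Rooted a D (1 / 10 ^ 17) (lab0 M) (Phi4 M))
    (z : V → V → ℝ) (hs : ∀ u v, z u v = z v u) (hlo : ∀ u v, -1 ≤ z u v) (hhi : ∀ u v, z u v ≤ 2)
    (hneg : c3 (fun u v w => a u v w ∧ z u v + z u w + z v w < 0) ≤
      9 * (Fintype.card V : ℝ) ^ 2)
    (hX : (Fintype.card V : ℝ) ^ 2 / 10 ^ 7 ≤ c2 (fun u v => z u v = -1)) :
    3 * ((Fintype.card V : ℝ) ^ 2 / 10 ^ 7) < ∑ u, ∑ v, z u v := by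
  set n : ℝ := (Fintype.card V : ℝ) with hnd
  have hn0 : 0 < n := by linarith [show (0 : ℝ) < 10 ^ 17 by norm_num]
  have hM0 : (0 : ℝ) < M := by linarith [show (0 : ℝ) < 10 ^ 16 by norm_num]
  let l : V → V → Set.Icc (-(M : ℤ)) (2 * M) := fun u v => ⟨⌈M * z u v⌉, by
    constructor
    · have : ((-(M : ℤ) : ℤ) : ℝ) ≤ M * z u v := by
        push_cast; nlinarith [hlo u v]
      exact (Int.le_ceil_iff).2 (by linarith)
    · refine Int.ceil_le.2 ?_
      push_cast; nlinarith [hhi u v]⟩
  have hl : ∀ u v, ((l u v).1 : ℝ) = ⌈M * z u v⌉ := fun _ _ => rfl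
  set Q := c3 (fun u v w => Dist u v w ∧ Phi4 M (l u v) (l u w) (l v w)) with hQ
  have hQ1 : Q ≤ n ^ 3 / 10 ^ 17 := by
    by_contra hc
    replace hc := not_le.1 hc
    obtain ⟨u0⟩ : Nonempty V := Fintype.card_pos_iff.1 (by rw [hnd] at hn0; exact_mod_cast hn0)
    have h1 := hR (fun _ => True) l (fun u v h => (h trivial).elim) ⟨u0, trivial⟩
      (by rw [c1_true]; nlinarith)
    have h2 : c3 (fun u v w => a u v w ∧ Phi4 M (l u v) (l u w) (l v w)) ≤
        c3 (fun u v w => a u v w ∧ z u v + z u w + z v w < 0) := by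
      refine c3_mono fun u v w h => ⟨h.1, ?_⟩
      have h3 : ((l u v).1 : ℝ) + (l u w).1 + (l v w).1 < 0 := by exact_mod_cast h.2
      rw [hl, hl, hl] at h3
      have := Int.le_ceil (M * z u v)
      have := Int.le_ceil (M * z u w)
      have := Int.le_ceil (M * z v w)
      by_contra hh
      replace hh := not_lt.1 hh
      nlinarith
    have h4 : D / (24 * n) * (n ^ 3 / 10 ^ 17) ≤ D / (24 * n) * Q :=
      mul_le_mul_of_nonneg_left hc.le (by positivity)
    have h5 : D / (24 * n) * (n ^ 3 / 10 ^ 17) = D * n ^ 2 / (24 * 10 ^ 17) := by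
      field_simp
    have : 0 < n ^ 2 := by positivity
    nlinarith
  refine bulk z hs hn0 (fun u v w => max (-(z u v + z u w + z v w)) 0)
    (fun u v w => le_max_right _ _) (fun u v w => by linarith [le_max_left (-(z u v + z u w + z v w)) 0]) ?_ hX
  have p : ∀ u v w, max (-(z u v + z u w + z v w)) 0 ≤ 3 / 10 ^ 16 +
      3 * ind (Dist u v w ∧ Phi4 M (l u v) (l u w) (l v w)) + 3 * ind (¬ Dist u v w) := by
    intro u v w
    have := hlo u v
    have := hlo u w
    have := hlo v w
    have i1 := ind_nonneg (Dist u v w ∧ Phi4 M (l u v) (l u w) (l v w))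
    have i2 := ind_nonneg (¬ Dist u v w)
    refine max_le ?_ (by positivity)
    by_cases hd : Dist u v w
    swap
    · rw [ind_pos hd]; linarith [show (0 : ℝ) < 3 / 10 ^ 16 by norm_num]
    by_cases hp : Phi4 M (l u v) (l u w) (l v w)
    · rw [ind_pos (And.intro hd hp)]; linarith [show (0 : ℝ) < 3 / 10 ^ 16 by norm_num]
    have h3 : (0 : ℝ) ≤ ((l u v).1 : ℝ) + (l u w).1 + (l v w).1 := by
      exact_mod_cast not_lt.1 hp
    rw [hl, hl, hl] at h3
    have := Int.ceil_lt_add_one (M * z u v)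
    have := Int.ceil_lt_add_one (M * z u w)
    have := Int.ceil_lt_add_one (M * z v w)
    have h4 : -(z u v + z u w + z v w) ≤ 3 / 10 ^ 16 := by
      by_contra hh
      replace hh := not_le.1 hh
      nlinarith
    linarith
  have := sum_le_sum fun u (_ : u ∈ univ) => sum_le_sum fun v (_ : v ∈ univ) =>
    sum_le_sum fun w (_ : w ∈ univ) => p u v w
  refine this.trans ?_
  simp only [sum_add_distrib, ← mul_sum]
  rw [sum3_const]
  change 3 / 10 ^ 16 * n ^ 3 + 3 * Q + 3 * c3 (fun u v w : V => ¬ Dist u v w) ≤ _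
  have h6 := c3_not_dist (V := V)
  have : 10 ^ 17 * n ^ 2 ≤ n ^ 3 := by nlinarith [sq_nonneg n]
  nlinarith

theorem core_real {a : V → V → V → Prop} (ha : IsSym a) {D γ : ℝ} (hD : 10 ^ 20 ≤ D)
    (hn : 10 ^ 17 ≤ (Fintype.card V : ℝ)) {M : ℕ} (hM : 10 ^ 16 ≤ (M : ℝ))
    (hC : Cherry a D γ) (hR3 : Rooted a D (γ / 4000) (False, False, False) Phi3)
    (hR4 : Rooted a D (1 / 10 ^ 17) (lab0 M) (Phi4 M))
    (y : V → V → ℝ) (hs : ∀ u v, y u v = y v u) (hd : ∀ u, y u u = 0)
    (hdeg : ∀ u v, y u v < 0 → D / 200 ≤ c1 (a u v))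
    (hbad : ∀ u v, y u v < 0 → c1 (fun w => a u v w ∧ y u v + y u w + y v w < 0) ≤ 3)
    (hsum : ∑ u, ∑ v, y u v ≤ 0) (u v : V) : y u v = 0 := by
  set n : ℝ := (Fintype.card V : ℝ) with hnd
  obtain ⟨s0, hs0, hL1, hL2⟩ := exists_level (fun u v => - y u v) (n ^ 2 / 10 ^ 7) (by positivity)
  have hexp : ∀ s, s0 < s → 3 * c2 (fun u v => s ≤ - y u v) ≤ c2 (fun u v => s / 2 ≤ y u v) := by
    intro s hss
    refine expand ha (by linarith [show (10 : ℝ) ^ 5 ≤ 10 ^ 20 by norm_num])
      (by linarith [show (10 : ℝ) ^ 4 ≤ 10 ^ 17 by norm_num]) hC hR3 _ _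
      (fun u v h => by rwa [hs v u]) (fun u h => by rw [hd] at h; linarith)
      (fun u v h h' => by linarith) ((c2_mono fun u v h => hss.trans_le h).trans hL1)
      (fun u v h => hdeg u v (by linarith)) (fun u v h => ?_)
    refine (c1_mono fun w hw => ⟨hw.1, ?_⟩).trans (hbad u v (by linarith))
    have := not_le.1 hw.2.1
    have := not_le.1 hw.2.2
    linarith
  have hlc := layer_cake (fun p : V × V => - y p.1 p.2 - 4 * s0)
    (fun p : V × V => 2 * (y p.1 p.2 - 2 * s0)) 3 (by
      intro s hs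
      have := hexp (4 * s0 + s) (by linarith)
      rw [← c1_prod, ← c1_prod] at this
      push_cast
      refine le_trans (le_of_eq ?_) (this.trans (le_of_eq ?_))
      · congr 2; funext p; apply propext; constructor <;> intro h <;> linarith
      · congr 1; funext p; apply propext; constructor <;> intro h <;> linarith)
  rw [Fintype.sum_prod_type, Fintype.sum_prod_type] at hlc
  push_cast at hlc
  rcases hs0.eq_or_lt with h0 | h0
  · subst h0
    have p : ∀ u v, |y u v| ≤ 5 * y u v + (6 * max (- y u v - 4 * 0) 0 - 2 * max (2 * (y u v - 2 * 0)) 0) := by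
      intro u v
      rcases le_total 0 (y u v) with h | h
      · rw [abs_of_nonneg h, max_eq_right (by linarith), max_eq_left (by linarith)]; linarith
      · rw [abs_of_nonpos h, max_eq_left (by linarith), max_eq_right (by linarith)]; linarith
    have := sum_le_sum fun u (_ : u ∈ univ) => sum_le_sum fun v (_ : v ∈ univ) => p u v
    simp only [sum_add_distrib, sum_sub_distrib, ← mul_sum] at this
    have h1 : ∑ u, ∑ v, |y u v| ≤ 0 := by linarith
    have h2 : ∑ v, |y u v| ≤ ∑ u, ∑ v, |y u v| :=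
      single_le_sum (f := fun u => ∑ v, |y u v|)
        (fun _ _ => sum_nonneg fun _ _ => abs_nonneg _) (mem_univ u)
    have h3 : |y u v| ≤ ∑ v, |y u v| :=
      single_le_sum (f := fun v => |y u v|) (fun _ _ => abs_nonneg _) (mem_univ v)
    exact abs_nonpos_iff.1 (by linarith)
  exfalso
  let z : V → V → ℝ := fun u v => max (-1) (min (y u v / s0) 2)
  have hz : ∀ u v, z u v = max (-1) (min (y u v / s0) 2) := fun _ _ => rfl
  have hb := bulk_kept hD hn hM hR4 z (fun u v => by rw [hz, hz, hs]) (fun u v => le_max_left _ _)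
    (fun u v => max_le (by norm_num) (min_le_right _ _)) ?_ ?_
  · have p : ∀ u v, s0 * z u v + (1 / 2 * max (2 * (y u v - 2 * s0)) 0 - max (- y u v - 4 * s0) 0)
        - 3 * s0 * ind (s0 < - y u v) ≤ y u v := by
      intro u v
      have e : y u v = s0 * (y u v / s0) := by field_simp
      rw [hz]
      set t := y u v / s0
      have i0 := ind_nonneg (s0 < - y u v)
      rcases le_total t 2 with h1 | h1
      · rw [min_eq_left h1, max_eq_right (a := 2 * (y u v - 2 * s0)) (by nlinarith)]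
        rcases le_total (-1) t with h2 | h2
        · rw [max_eq_right h2]
          have := le_max_right (- y u v - 4 * s0) 0
          nlinarith
        · rw [max_eq_left h2]
          have := le_max_right (- y u v - 4 * s0) 0
          have := le_max_left (- y u v - 4 * s0) 0
          by_cases h3 : s0 < - y u v
          · rw [ind_pos h3]; linarith
          · rw [ind_neg h3]; linarith [not_lt.1 h3]
      · rw [min_eq_right h1, max_eq_right (by norm_num), max_eq_left (by nlinarith)]
        have := le_max_right (- y u v - 4 * s0) 0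
        nlinarith
    have := sum_le_sum fun u (_ : u ∈ univ) => sum_le_sum fun v (_ : v ∈ univ) => p u v
    simp only [sum_add_distrib, sum_sub_distrib, ← mul_sum] at this
    change _ - 3 * s0 * c2 (fun u v => s0 < - y u v) ≤ _ at this
    have h1 : 0 ≤ ∑ u, ∑ v, max (- y u v - 4 * s0) 0 :=
      sum_nonneg fun _ _ => sum_nonneg fun _ _ => le_max_right _ _
    nlinarith
  · have h1 := neg_count ha (fun u v => y u v < 0) (fun u v w => y u v + y u w + y v w < 0)
      (fun u v w h => by rw [hs w v]; linarith) (fun u v w h => by rw [hs v u, hs w u]; linarith)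
      (fun u v w h => by by_contra hh; push Not at hh; linarith [hh.1, hh.2.1, hh.2.2]) hbad
    have h2 := c2_le (fun u v => y u v < 0)
    refine le_trans (c3_mono fun u v w h => ⟨h.1, ?_⟩) (h1.trans (by linarith))
    have h3 := h.2
    have q : ∀ u v, z u v < 2 → y u v / s0 ≤ z u v := by
      intro u v h
      rw [hz] at h ⊢
      rcases le_total (y u v / s0) 2 with h1 | h1
      · rw [min_eq_left h1]; exact le_max_right _ _
      · rw [min_eq_right h1, max_eq_right (by norm_num)] at h; linarith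
    have l1 : -1 ≤ z u v := le_max_left _ _
    have l2 : -1 ≤ z u w := le_max_left _ _
    have l3 : -1 ≤ z v w := le_max_left _ _
    have := q u v (by linarith)
    have := q u w (by linarith)
    have := q v w (by linarith)
    have h5 : (y u v + y u w + y v w) / s0 < 0 := by
      rw [add_div, add_div]; linarith
    exact (div_neg_iff.1 h5).elim (fun h => by linarith [h.2]) (fun h => h.1)
  · refine (hL2 h0).trans (c2_mono fun u v h => ?_)
    rw [hz]
    have : y u v / s0 ≤ -1 := by rw [div_le_iff₀ h0]; linarith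
    exact max_eq_left ((min_le_left _ _).trans this)

end Pool.Agent.P.MP_224820_co
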