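import Mathlib

namespace Pool.Agent.P.MP_224820_co

/-- the triangles (3-subsets) on the vertex set `V` -/
abbrev Tri (V : Type) : Type := {T : Finset V // T.card = 3}

/-- every edge lies in a triangle of `K` -/
def Covers {V : Type} (K : Set (Tri V)) : Prop :=
  ∀ e : Finset V, e.card = 2 → ∃ T ∈ K, e ⊆ T.1

/-- a multiset of triangles of `K` covers every edge exactly `m` times -/
def HasFold {V : Type} [Fintype V] [DecidableEq V] (K : Set (Tri V)) (m : ℕ) : Prop :=
  ∃ c : Tri V → ℕ, (∀ T, T ∉ K → c T = 0) ∧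
    ∀ e : Finset V, e.card = 2 → ∑ T : Tri V with e ⊆ T.1, c T = m

end Pool.Agent.P.MP_224820_co
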