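import Pool.Agent.P.MP_224820_co.Core

namespace Pool.Agent.P.MP_224820_co

open Finset

variable {V : Type*} [Fintype V] {G : Type*} [AddCommGroup G]

lemma exists_le_avg (hn : 0 < (Fintype.card V : ℝ)) (f : V → ℝ) (k : ℝ)
    (h : ∑ u, f u ≤ k * Fintype.card V) : ∃ u, f u ≤ k := by
  have : Nonempty V := Fintype.card_pos_iff.1 (by exact_mod_cast hn)
  obtain ⟨u, -, hu⟩ := exists_le_of_sum_le (s := univ) (f := f) (g := fun _ => k) univ_nonempty
    (by simpa [mul_comm] using h)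
  exact ⟨u, hu⟩

lemma c2_fst (P : V → Prop) : c2 (fun u _ => P u) = c1 P * Fintype.card V := by
  simp only [c2, c1, sum_const, card_univ, nsmul_eq_mul, mul_comm, mul_sum]

lemma c3_fst2 (P : V → V → Prop) : c3 (fun u v _ => P u v) = c2 P * Fintype.card V := by
  simp only [c3, c2, sum_const, card_univ, nsmul_eq_mul, mul_comm, mul_sum]

lemma c3_fst1 (P : V → Prop) : c3 (fun u _ _ => P u) = c1 P * (Fintype.card V : ℝ) ^ 2 := by
  rw [c3_fst2 (fun u _ => P u), c2_fst]; ring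

/-- testability of trivial solutions -/
theorem testable (hn : 0 < (Fintype.card V : ℝ)) (y : V → V → G)
    {ζ : ℝ} (hζ : ζ < 1 / 16)
    (h : c3 (fun u v w => y u v + y u w + y v w ≠ 0) ≤ ζ * (Fintype.card V : ℝ) ^ 3) :
    ∃ (α : V → G) (β : G), (∀ u, α u + α u = β) ∧ β + β + β = 0 ∧
      c2 (fun u v => y u v ≠ α u + α v) ≤ 9 * ζ * (Fintype.card V : ℝ) ^ 2 := by
  classical
  set n : ℝ := (Fintype.card V : ℝ) with hnd
  obtain ⟨r, hr⟩ := exists_le_avg hn (fun u => c2 (fun v w => y u v + y u w + y v w ≠ 0))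
    (ζ * n ^ 2) (h.trans (le_of_eq (by ring)))
  set α0 : V → G := fun u => - y r u with hα0
  set B1 : V → V → Prop := fun u v => y u v ≠ α0 u + α0 v with hB1
  have h1 : c2 B1 ≤ ζ * n ^ 2 := by
    refine (c2_mono fun u v hb e => hb ?_).trans hr
    simp only [hα0]
    rw [← sub_eq_zero, ← e]; abel
  set B2 : V → V → V → Prop := fun v w u => (α0 u + α0 u) + (α0 v + α0 v) + (α0 w + α0 w) ≠ 0
    with hB2
  have h2 : c3 B2 ≤ 4 * ζ * n ^ 3 := by
    have a1 : c3 B2 ≤ c3 (fun u v w => y u v + y u w + y v w ≠ 0) +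
        c3 (fun u v w => B1 u v ∨ B1 u w ∨ B1 v w) := by
      refine c3_le_add fun u v w hb => ?_
      by_contra hc
      simp only [hB1, not_or, not_not] at hc
      apply hb
      rw [← hc.1, hc.2.1, hc.2.2.1, hc.2.2.2]; abel
    have a2 : c3 (fun u v w => B1 u v ∨ B1 u w ∨ B1 v w) ≤ c3 (fun u v _ => B1 u v) +
        c3 (fun u _ w => B1 u w) + c3 (fun _ v w => B1 v w) := c3_le_add3 fun u v w hb => hb
    rw [c3_swap23 (fun u v _ => B1 u v), c3_rot (fun u v _ => B1 u v), c3_fst2] at a2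
    nlinarith
  obtain ⟨v0, hv0⟩ := exists_le_avg hn (fun v => c2 (B2 v)) (4 * ζ * n ^ 2)
    (h2.trans (le_of_eq (by ring)))
  obtain ⟨w0, hw0⟩ := exists_le_avg hn (fun w => c1 (B2 v0 w)) (4 * ζ * n)
    (hv0.trans (le_of_eq (by ring)))
  set β : G := -((α0 v0 + α0 v0) + (α0 w0 + α0 w0)) with hβ
  set B3 : V → Prop := fun u => α0 u + α0 u ≠ β with hB3
  have h3 : c1 B3 ≤ 4 * ζ * n := by
    refine (c1_mono fun u hb e => hb ?_).trans hw0
    rw [hβ, ← sub_eq_zero, ← e]; abel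
  have h4 : β + β + β = 0 := by
    by_contra hc
    have a1 : c3 (fun _ _ _ : V => True) ≤ c3 B2 + c3 (fun u v w => B3 u ∨ B3 v ∨ B3 w) := by
      refine c3_le_add fun u v w _ => ?_
      by_contra hh
      simp only [hB2, hB3, not_or, not_not] at hh
      apply hc
      rw [← hh.1, hh.2.1, hh.2.2.1, hh.2.2.2]
    have a2 : c3 (fun u v w => B3 u ∨ B3 v ∨ B3 w) ≤ c3 (fun u _ _ => B3 u) +
        c3 (fun _ v _ => B3 v) + c3 (fun _ _ w => B3 w) := c3_le_add3 fun u v w hb => hb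
    rw [c3_swap12 (fun u _ _ => B3 u), ← c3_rot (fun _ _ w => B3 w),
      ← c3_rot (fun u _ _ => B3 u), c3_swap12 (fun u _ _ => B3 u), c3_fst1] at a2
    rw [c3_fst1 (fun _ => True), c1_true] at a1
    have : 0 < n ^ 3 := by positivity
    nlinarith
  refine ⟨fun u => if B3 u then β + β else α0 u, β, fun u => ?_, h4, ?_⟩
  · by_cases hb : B3 u
    · simp only [if_pos hb]
      rw [← sub_eq_zero, ← h4]; abel
    · simp only [if_neg hb]
      exact not_not.1 hb
  · have a1 : c2 (fun u v => y u v ≠ (if B3 u then β + β else α0 u) +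
        (if B3 v then β + β else α0 v)) ≤ c2 B1 + c2 (fun u v => B3 u ∨ B3 v) := by
      refine c2_le_add fun u v hb => ?_
      by_contra hh
      rw [not_or, not_or] at hh
      rw [if_neg hh.2.1, if_neg hh.2.2] at hb
      exact hh.1 hb
    have a2 : c2 (fun u v => B3 u ∨ B3 v) ≤ c2 (fun u _ => B3 u) + c2 (fun _ v => B3 v) :=
      c2_le_add fun u v hb => hb
    rw [c2_swap (fun u _ => B3 u), c2_fst] at a2
    nlinarith

/-- two large sets with no cancelling values -/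
theorem exists_sets (hn : 0 < (Fintype.card V : ℝ)) (h : V → G)
    (hmin : ∀ g : G, g + g = 0 → c1 (fun v => h v = g) ≤ c1 (fun v => h v = 0)) :
    ∃ S S' : V → Prop, (∀ v w, S v → S' w → h v + h w ≠ 0) ∧
      c1 (fun v => h v ≠ 0) * Fintype.card V / 64 ≤ c1 S * c1 S' := by
  classical
  set n : ℝ := (Fintype.card V : ℝ) with hnd
  have d0 := c1_nonneg (fun v => h v ≠ 0)
  have d1 : c1 (fun v => h v ≠ 0) ≤ n := c1_le _
  by_cases h0 : n / 4 ≤ c1 (fun v => h v = 0)
  · refine ⟨fun v => h v ≠ 0, fun v => h v = 0, fun v w a b => by rw [b, add_zero]; exact a, ?_⟩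
    nlinarith
  replace h0 := not_le.1 h0
  by_cases h1 : ∃ g, g + g ≠ 0 ∧ n / 8 ≤ c1 (fun v => h v = g)
  · obtain ⟨g, hg, hc⟩ := h1
    refine ⟨fun v => h v = g, fun v => h v = g, fun v w a b => by rw [a, b]; exact hg, ?_⟩
    nlinarith
  push Not at h1
  have h2 : ∀ g, c1 (fun v => h v = g) < n / 4 := by
    intro g
    by_cases hg : g + g = 0
    · exact (hmin g hg).trans_lt h0
    · linarith [h1 g hg]
  let P : Finset V → V → Prop := fun U v => ∃ u ∈ U, h v = h u ∨ h v = - h u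
  obtain ⟨U, hU, hUmin⟩ := exists_min_image (univ.filter fun U : Finset V => n / 4 ≤ c1 (P U))
    card ⟨univ, by
      simp only [mem_filter, mem_univ, true_and]
      have : c1 (fun _ : V => True) ≤ c1 (P univ) :=
        c1_mono fun v _ => ⟨v, mem_univ _, Or.inl rfl⟩
      rw [c1_true] at this
      linarith⟩
  simp only [mem_filter, mem_univ, true_and] at hU hUmin
  obtain ⟨v1, u, hu, -⟩ := c1_pos_iff.1 (show 0 < c1 (P U) by linarith)
  have h3 : c1 (P (U.erase u)) < n / 4 := by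
    by_contra hc
    have := hUmin _ (not_lt.1 hc)
    have := card_erase_lt_of_mem hu
    omega
  have h4 : c1 (P U) ≤ c1 (P (U.erase u)) + c1 (fun v => h v = h u ∨ h v = - h u) := by
    refine c1_le_add fun v hv => ?_
    obtain ⟨u', hu', e⟩ := hv
    by_cases e' : u' = u
    · exact Or.inr (e' ▸ e)
    · exact Or.inl ⟨u', mem_erase.2 ⟨e', hu'⟩, e⟩
  have h5 : c1 (fun v => h v = h u ∨ h v = - h u) ≤
      c1 (fun v => h v = h u) + c1 (fun v => h v = - h u) := c1_le_add fun v hv => hv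
  have h6 := c1_not (P U)
  refine ⟨P U, fun v => ¬ P U v, fun v w a b e => b ?_, ?_⟩
  · obtain ⟨u', hu', e'⟩ := a
    have e2 : h w = - h v := by rw [← sub_eq_zero, ← e]; abel
    refine ⟨u', hu', ?_⟩
    rcases e' with e' | e'
    · exact Or.inr (by rw [e2, e'])
    · exact Or.inl (by rw [e2, e', neg_neg])
  · have := h2 (h u)
    have := h2 (- h u)
    have h7 : n / 4 ≤ c1 (fun v => ¬ P U v) := by linarith
    have : n / 4 * (n / 4) ≤ c1 (P U) * c1 (fun v => ¬ P U v) :=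
      mul_le_mul hU h7 (by positivity) (c1_nonneg _)
    nlinarith

lemma c2_not_dist (u : V) : c2 (fun v w : V => ¬ Dist u v w) ≤ 3 * (Fintype.card V : ℝ) := by
  have h : c2 (fun v w : V => w = v) ≤ Fintype.card V := by
    calc _ ≤ ∑ _v : V, (1 : ℝ) := sum_le_sum fun v _ => c1_eq_le v
      _ = _ := by simp
  have h' : c2 (fun v _ : V => v = u) ≤ Fintype.card V := by
    rw [c2_fst]
    have := c1_eq_le u
    nlinarith [show (0 : ℝ) ≤ Fintype.card V by positivity]
  have h1 : c2 (fun v w : V => ¬ Dist u v w) ≤ c2 (fun v w : V => w = v) +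
      c2 (fun v w : V => v = u ∨ w = u) := by
    refine c2_le_add fun v w h => ?_
    by_contra hc
    simp only [not_or] at hc
    exact h ⟨fun e => hc.2.1 e.symm, fun e => hc.2.2 e.symm, fun e => hc.1 e.symm⟩
  have h2 : c2 (fun v w : V => v = u ∨ w = u) ≤ c2 (fun v _ : V => v = u) +
      c2 (fun _ w : V => w = u) := c2_le_add fun v w h => h
  rw [c2_swap (fun v _ : V => v = u)] at h2
  linarith

/-- small support expansion over a group -/
theorem expand_group {a : V → V → V → Prop} (ha : IsSym a) {D γ : ℝ} (hD : 10 ^ 5 ≤ D)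
    (hγ : 0 < γ) (hn : 10 ^ 5 ≤ γ * (Fintype.card V : ℝ))
    (hC : Cherry a D γ) (hR : Rooted a D (γ / 4000) (False, False, False) Phi3)
    (f : V → V → G) (hs : ∀ u v, f u v = f v u)
    (hmin : ∀ u (g : G), g + g = 0 → c1 (fun v => f u v = g) ≤ c1 (fun v => f u v = 0))
    (hx : c2 (fun u v => f u v ≠ 0) ≤ γ / 10 ^ 4 * (Fintype.card V : ℝ) ^ 2)
    (hdeg : ∀ u v, f u v ≠ 0 → D / 200 ≤ c1 (a u v))
    (hbad : ∀ u v, f u v ≠ 0 → c1 (fun w => a u v w ∧ f u v + f u w + f v w ≠ 0) ≤ 3)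
    (u v : V) : f u v = 0 := by
  by_contra hne
  set n : ℝ := (Fintype.card V : ℝ) with hnd
  have hn0 : 0 < n := by
    by_contra hc
    nlinarith [not_lt.1 hc]
  set X : V → V → Prop := fun u v => f u v ≠ 0 with hXd
  have hX : ∀ u v, X u v → X v u := fun u v h => by simpa only [hXd, hs v u] using h
  have xpos : 0 < c2 X := c2_pos_iff.2 ⟨u, v, hne⟩
  have h1 := low_half ha hD hC X X hX (fun u v h => h) (by linarith) xpos hdeg
    (fun u v h => (c1_mono fun w hw => ⟨hw.1, by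
      rw [not_not.1 hw.2.1, not_not.1 hw.2.2]; simpa using h⟩).trans (hbad u v h))
  set H : V → Prop := fun u => γ * n < c1 (X u) with hH
  have h2 : c2 X / 4 ≤ c2 (fun u v => H u ∧ X u v) := by
    have := c2_touch hX H
    linarith
  have hHne : ∃ u, H u := by
    obtain ⟨u, v, h⟩ := c2_pos_iff.1 (show 0 < c2 (fun u v => H u ∧ X u v) by linarith)
    exact ⟨u, h.1⟩
  have hh : γ * n * c1 H ≤ c2 X := mul_le_c2 fun u hu => le_of_lt hu
  choose S S' hSS hSc using fun u => exists_sets hn0 (f u) (hmin u)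
  have h3 : c2 (fun u v => H u ∧ X u v) * n / 64 ≤ c3 (fun u v w => H u ∧ S u v ∧ S' u w) := by
    have e1 : c2 (fun u v => H u ∧ X u v) = ∑ u, ind (H u) * c1 (X u) := by
      simp only [c2_eq, c1_and_left]
    have e2 : c3 (fun u v w => H u ∧ S u v ∧ S' u w) = ∑ u, ind (H u) * (c1 (S u) * c1 (S' u)) := by
      simp only [c3, ind_and, ← mul_sum, ← sum_mul]
      rfl
    rw [e1, e2, sum_mul, sum_div]
    refine sum_le_sum fun u _ => ?_
    have := mul_le_mul_of_nonneg_left (hSc u) (ind_nonneg (H u))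
    refine le_trans (le_of_eq ?_) this
    ring
  set X1 : V → V → Prop := fun u v => H u ∧ S u v
  set X2 : V → V → Prop := fun u w => H u ∧ ¬ S' u w
  set X3 : V → V → Prop := fun v w => X v w ∧ (H v ∨ H w)
  set Q := c3 (fun u v w => Dist u v w ∧ X1 u v ∧ ¬ X2 u w ∧ ¬ X3 v w) with hQ
  have h4 : c3 (fun u v w => H u ∧ S u v ∧ S' u w) ≤ Q + c3 (fun u v w => H u ∧ ¬ Dist u v w) +
      c3 (fun u v w => H u ∧ X v w) := by
    refine c3_le_add3 fun u v w h => ?_
    by_cases e1 : Dist u v w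
    swap
    · exact Or.inr (Or.inl ⟨h.1, e1⟩)
    by_cases e2 : X v w
    · exact Or.inr (Or.inr ⟨h.1, e2⟩)
    exact Or.inl ⟨e1, ⟨h.1, h.2.1⟩, fun k => k.2 h.2.2, fun k => e2 k.1⟩
  have h5 : c3 (fun u v w => H u ∧ X v w) = c1 H * c2 X := by
    simp only [c3, ind_and, ← mul_sum, ← sum_mul]
    rfl
  have h6 : c3 (fun u v w => H u ∧ ¬ Dist u v w) ≤ c1 H * (3 * n) := by
    simp only [c3, ind_and, ← mul_sum]
    rw [c1, sum_mul]
    exact sum_le_sum fun u _ => mul_le_mul_of_nonneg_left (c2_not_dist u) (ind_nonneg _)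
  have H0 := c1_nonneg H
  have h7 : c1 H * c2 X ≤ c2 X * n / 10 ^ 4 := by
    have := mul_le_mul_of_nonneg_left hx H0
    nlinarith
  have h8 : c1 H * (3 * n) ≤ 3 * (c2 X * n) / 10 ^ 5 := by
    have : 10 ^ 5 * c1 H ≤ c2 X := by nlinarith
    nlinarith
  have hQ1 : c2 X * n / 300 ≤ Q := by nlinarith
  have h9 := hR.three H X1 X2 X3 (fun u v h => Or.inl h.1) (fun u v h => Or.inl h.1)
    (fun u v h => h.2) hHne (by nlinarith)
  have h10 : c3 (fun u v w => a u v w ∧ X1 u v ∧ ¬ X2 u w ∧ ¬ X3 v w) ≤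
      c3 (fun u v w => (X u v ∧ (a u v w ∧ f u v + f u w + f v w ≠ 0)) ∨
        (X u w ∧ (a u w v ∧ f u w + f u v + f w v ≠ 0))) +
      c3 (fun u v w => a v u w ∧ X v u ∧ X v w ∧ c1 (X v) ≤ γ * n) +
      c3 (fun u v w => a w u v ∧ X w u ∧ X w v ∧ c1 (X w) ≤ γ * n) := by
    refine c3_le_add3 fun u v w h => ?_
    obtain ⟨haa, k1, k2, k3⟩ := h
    have k4 : f u v + f u w ≠ 0 := hSS u v w k1.2 (by
      by_contra hc; exact k2 ⟨k1.1, hc⟩)
    have k5 : X u v ∨ X u w := by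
      by_contra hc
      simp only [hXd, not_or, not_not] at hc
      exact k4 (by rw [hc.1, hc.2, add_zero])
    by_cases e : f u v + f u w + f v w = 0
    · have k6 : X v w := fun e' => k4 (by rwa [e', add_zero] at e)
      have k7 : ¬ H v := fun e' => k3 ⟨k6, Or.inl e'⟩
      have k8 : ¬ H w := fun e' => k3 ⟨k6, Or.inr e'⟩
      rcases k5 with k5 | k5
      · exact Or.inr (Or.inl ⟨ha.s12 haa, hX _ _ k5, k6, not_lt.1 k7⟩)
      · exact Or.inr (Or.inr ⟨ha.s12 (ha.s23 haa), hX _ _ k5, hX _ _ k6, not_lt.1 k8⟩)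
    · rcases k5 with k5 | k5
      · exact Or.inl (Or.inl ⟨k5, haa, e⟩)
      · refine Or.inl (Or.inr ⟨k5, ha.s23 haa, fun e' => e ?_⟩)
        rw [← e', hs w v]; abel
  have h11 : c3 (fun u v w => (X u v ∧ (a u v w ∧ f u v + f u w + f v w ≠ 0)) ∨
        (X u w ∧ (a u w v ∧ f u w + f u v + f w v ≠ 0))) ≤
      c3 (fun u v w => X u v ∧ (a u v w ∧ f u v + f u w + f v w ≠ 0)) +
      c3 (fun u v w => X u w ∧ (a u w v ∧ f u w + f u v + f w v ≠ 0)) := c3_le_add fun _ _ _ h => h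
  rw [c3_swap23 (fun u v w => X u v ∧ (a u v w ∧ f u v + f u w + f v w ≠ 0))] at h11
  have h12 : c3 (fun u v w => X u v ∧ (a u v w ∧ f u v + f u w + f v w ≠ 0)) ≤ 3 * c2 X :=
    c3_le_mul hbad
  rw [c3_swap12 (fun u v w => a u v w ∧ X u v ∧ X u w ∧ c1 (X u) ≤ γ * n),
    ← c3_rot (fun u v w => a w u v ∧ X w u ∧ X w v ∧ c1 (X w) ≤ γ * n)] at h10
  have h13 := hC X
  have h14 : D / (24 * n) * (c2 X * n / 300) ≤ D / (24 * n) * Q :=
    mul_le_mul_of_nonneg_left hQ1 (by positivity)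
  have h15 : D / (24 * n) * (c2 X * n / 300) = D * c2 X / 7200 := by
    field_simp; norm_num
  nlinarith

lemma c2_star {X : V → V → Prop} (hX : ∀ u v, X u v → X v u) (hd : ∀ u, ¬ X u u) (u : V) :
    c2 X = 2 * c1 (X u) + c2 (fun v w => X v w ∧ v ≠ u ∧ w ≠ u) := by
  classical
  have e1 : c2 (fun v w => X v w ∧ v = u) = c1 (X u) := by
    rw [c2_eq, sum_eq_single u]
    · congr 1; funext w; simp
    · intro v _ hv
      exact sum_eq_zero fun w _ => ind_neg fun h => hv h.2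
    · simp
  have e2 : c2 (fun v w => (X v w ∧ ¬ v = u) ∧ w = u) = c1 (X u) := by
    rw [← e1, ← c2_swap (fun v w => X v w ∧ v = u)]
    congr 1; funext v w; apply propext
    constructor
    · rintro ⟨⟨h1, _⟩, h2⟩; exact ⟨hX _ _ h1, h2⟩
    · rintro ⟨h1, rfl⟩; exact ⟨⟨hX _ _ h1, fun e => hd w (by rw [e] at h1; exact h1)⟩, rfl⟩
  rw [c2_split X (fun v _ => v = u), c2_split (fun v w => X v w ∧ ¬ v = u) (fun _ w => w = u),
    e1, e2]
  simp only [and_assoc]
  ring

theorem core_group {a : V → V → V → Prop} (ha : IsSym a) {D γ : ℝ} (hD : 10 ^ 5 ≤ D)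
    (hγ : 0 < γ) (hγ1 : γ ≤ 1) (hn : 10 ^ 5 ≤ γ * (Fintype.card V : ℝ))
    (hC : Cherry a D γ) (hR : Rooted a D (γ / 4000) (False, False, False) Phi3)
    (R : V → V → Prop) (hRs : ∀ u v, R u v → R v u)
    (hdeg : ∀ u v, u ≠ v → ¬ R u v → D / 200 ≤ c1 (a u v))
    (hbad : ∀ u v, u ≠ v → ¬ R u v → c1 (fun w => a u v w ∧ (R u w ∨ R v w)) ≤ 3)
    (y : V → V → G) (hs : ∀ u v, y u v = y v u)
    (hz : ∀ u v w, a u v w → ¬ R u v → ¬ R u w → ¬ R v w → y u v + y u w + y v w = 0)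
    (ht : c3 (fun u v w => y u v + y u w + y v w ≠ 0) ≤
      γ / 10 ^ 5 * (Fintype.card V : ℝ) ^ 3) :
    ∃ (α : V → G) (β : G), (∀ u, α u + α u = β) ∧ β + β + β = 0 ∧
      ∀ u v, u ≠ v → ¬ R u v → y u v = α u + α v := by
  classical
  set n : ℝ := (Fintype.card V : ℝ) with hnd
  have hn0 : 0 < n := by
    by_contra hc
    nlinarith [not_lt.1 hc]
  obtain ⟨α1, β, hα1, hβ, hc⟩ := testable hn0 y (by linarith) ht
  let X : (V → G) → V → V → Prop := fun α u v => (u ≠ v ∧ ¬ R u v) ∧ y u v ≠ α u + α v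
  let m : (V → G) → ℕ := fun α => (univ.filter fun p : V × V => X α p.1 p.2).card
  have hm : ∀ α, c2 (X α) = m α := fun α => by
    rw [← c1_prod, c1_eq_card]
    congr
  obtain ⟨α, hα, hmin⟩ := (InvImage.wf m Nat.lt_wfRel.wf).has_min {α | ∀ u, α u + α u = β}
    ⟨α1, hα1⟩
  replace hmin : ∀ α' : V → G, (∀ u, α' u + α' u = β) → c2 (X α) ≤ c2 (X α') := by
    intro α' h'
    rw [hm, hm]
    exact_mod_cast not_lt.1 (hmin α' h')
  have hXs : ∀ α u v, X α u v → X α v u := fun α u v h =>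
    ⟨⟨h.1.1.symm, fun r => h.1.2 (hRs _ _ r)⟩, by rw [hs v u, add_comm]; exact h.2⟩
  have hXd : ∀ α u, ¬ X α u u := fun α u h => h.1.1 rfl
  refine ⟨α, β, hα, hβ, ?_⟩
  let f : V → V → G := fun u v => if u ≠ v ∧ ¬ R u v then y u v - (α u + α v) else 0
  have hf1 : ∀ u v, u ≠ v → ¬ R u v → f u v = y u v - (α u + α v) := fun u v h1 h2 =>
    if_pos ⟨h1, h2⟩
  have hf0 : ∀ u v, f u v ≠ 0 → u ≠ v ∧ ¬ R u v := fun u v h => by
    by_contra hc; exact h (if_neg hc)
  have hfX : ∀ u v, f u v ≠ 0 → X α u v := fun u v h =>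
    ⟨hf0 u v h, fun e => h (by rw [hf1 u v (hf0 u v h).1 (hf0 u v h).2, e, sub_self])⟩
  have key := expand_group ha hD hγ hn hC hR f ?_ ?_ ?_
    (fun u v h => hdeg u v (hf0 u v h).1 (hf0 u v h).2) ?_
  · intro u v h1 h2
    have := key u v
    rwa [hf1 u v h1 h2, sub_eq_zero] at this
  · intro u v
    by_cases h : u ≠ v ∧ ¬ R u v
    · rw [hf1 u v h.1 h.2, hf1 v u h.1.symm fun r => h.2 (hRs _ _ r), hs v u, add_comm]
    · have h' : ¬ (v ≠ u ∧ ¬ R v u) := fun k => h ⟨k.1.symm, fun r => k.2 (hRs _ _ r)⟩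
      simp only [f, if_neg h, if_neg h']
  · intro u g hg
    by_cases g0 : g = 0
    · rw [g0]
    let α' := Function.update α u (α u + g)
    have h1 := hmin α' (fun v => by
      by_cases e : v = u
      · subst e
        simp only [α', Function.update_self]
        rw [← hα v, ← add_zero (α v + α v), ← hg]; abel
      · simp only [α', Function.update_of_ne e]; exact hα v)
    rw [c2_star (hXs α) (hXd α) u, c2_star (hXs α') (hXd α') u] at h1
    have e : c2 (fun v w => X α' v w ∧ v ≠ u ∧ w ≠ u) =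
        c2 (fun v w => X α v w ∧ v ≠ u ∧ w ≠ u) := by
      congr 1; funext v w; apply propext
      refine and_congr_left fun h => ?_
      simp only [X, α', Function.update_of_ne h.1, Function.update_of_ne h.2]
    rw [e] at h1
    let ok : V → Prop := fun v => u ≠ v ∧ ¬ R u v
    have s1 : c1 ok = c1 (fun v => ok v ∧ f u v = g) + c1 (X α' u) := by
      unfold c1
      rw [← sum_add_distrib]
      refine sum_congr rfl fun v _ => ?_
      rw [ind_split (ok v) (f u v = g)]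
      congr 1
      refine ind_congr (and_congr_right fun h => ?_)
      simp only [α', Function.update_self, Function.update_of_ne h.1.symm, hf1 u v h.1 h.2]
      refine not_congr ?_
      rw [sub_eq_iff_eq_add, add_comm g, add_right_comm]
    have s2 : c1 ok = c1 (fun v => ok v ∧ f u v = 0) + c1 (X α u) := by
      unfold c1
      rw [← sum_add_distrib]
      refine sum_congr rfl fun v _ => ?_
      rw [ind_split (ok v) (f u v = 0)]
      congr 1
      refine ind_congr (and_congr_right fun h => ?_)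
      rw [hf1 u v h.1 h.2, sub_eq_zero]
    have s3 : c1 (fun v => f u v = g) ≤ c1 (fun v => ok v ∧ f u v = g) :=
      c1_mono fun v h => ⟨hf0 u v (by rw [h]; exact g0), h⟩
    have s4 : c1 (fun v => ok v ∧ f u v = 0) ≤ c1 (fun v => f u v = 0) := c1_mono fun v h => h.2
    linarith
  · have h1 : c2 (fun u v => f u v ≠ 0) ≤ c2 (X α) := c2_mono hfX
    have h2 := hmin α1 hα1
    have h3 : c2 (X α1) ≤ c2 (fun u v => y u v ≠ α1 u + α1 v) := c2_mono fun u v h => h.2
    have : 0 ≤ γ * n ^ 2 := by positivity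
    linarith
  · intro u v h
    obtain ⟨h1, h2⟩ := hf0 u v h
    refine (c1_mono fun w hw => ⟨hw.1, ?_⟩).trans (hbad u v h1 h2)
    by_contra hc
    rw [not_or] at hc
    have d := ha.dist hw.1
    apply hw.2
    rw [hf1 u v h1 h2, hf1 u w d.2.1 hc.1, hf1 v w d.2.2 hc.2]
    have e1 := hz u v w hw.1 h2 hc.1 hc.2
    have : y u v - (α u + α v) + (y u w - (α u + α w)) + (y v w - (α v + α w)) =
        (y u v + y u w + y v w) - ((α u + α u) + (α v + α v) + (α w + α w)) := by abel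
    rw [this, e1, hα u, hα v, hα w, hβ, sub_zero]

end Pool.Agent.P.MP_224820_co
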