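import Pool.Agent.P.MP_224820_co.Geom
import Pool.Agent.P.MP_224820_co.Lattice
import Pool.Agent.P.MP_224820_co.Algebra

namespace Pool.Agent.P.MP_224820_co

open Finset

variable {V : Type} [Fintype V] [DecidableEq V]

def inc (T : Tri V) : Edge V → ℤ := fun g => if g.1 ⊆ T.1 then 1 else 0

/-- triangles outside the lattice of a small kept family are kept in quantity -/
def Closed (A : Set (Tri V)) (ζ : ℝ) : Prop :=
  ∀ J : Finset (Tri V), (J : Set (Tri V)) ⊆ A → J.card ≤ 7 * Fintype.card V ^ 2 →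
    ζ * (Fintype.card V : ℝ) ^ 3 ≤ c1 (fun T => inc T ∉ AddSubgroup.closure (inc '' (J : Set (Tri V)))) →
    9 * (Fintype.card V : ℝ) ^ 2 <
      c1 (fun T => inc T ∉ AddSubgroup.closure (inc '' (J : Set (Tri V))) ∧ T ∈ A)

/-- edges of low degree are far apart -/
def Far (A B : Set (Tri V)) (D : ℝ) : Prop :=
  ∀ (e1 : Edge V) (T1 : Tri V) (g1 : Edge V) (T2 : Tri V) (g2 : Edge V) (T3 : Tri V) (g3 : Edge V)
    (T4 : Tri V) (e2 : Edge V), e1.1 ⊆ T1.1 → g1.1 ⊆ T1.1 → g1.1 ⊆ T2.1 → g2.1 ⊆ T2.1 →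
    g2.1 ⊆ T3.1 → g3.1 ⊆ T3.1 → g3.1 ⊆ T4.1 → e2.1 ⊆ T4.1 → T1 ∈ B → T2 ∈ B → T3 ∈ B → T4 ∈ B →
    deg A e1 < D / 200 → deg A e2 < D / 200 → e1 = e2

lemma sum_inc (T : Tri V) : ∑ g, inc T g = 3 := by
  simp only [inc]
  rw [← sum_filter, sum_const, card_edge_in]
  rfl

lemma test_of_closed {G : Type*} [AddCommGroup G] {A : Set (Tri V)} {γ : ℝ}
    (hn : 10 ^ 6 ≤ γ * (Fintype.card V : ℝ)) (hA : Closed A (γ / 10 ^ 6)) (f : Edge V → G)
    (hbad : ∀ u v, pf f u v ≠ 0 →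
      c1 (fun w => rel A u v w ∧ pf f u v + pf f u w + pf f v w ≠ 0) ≤ 3) :
    c3 (fun u v w => pf f u v + pf f u w + pf f v w ≠ 0) ≤
      γ / 10 ^ 5 * (Fintype.card V : ℝ) ^ 3 := by
  classical
  set n : ℝ := (Fintype.card V : ℝ) with hnd
  let φ : (Edge V → ℤ) →+ G :=
    { toFun := fun x => ∑ g, x g • f g
      map_zero' := by simp
      map_add' := fun x y => by simp [add_smul, sum_add_distrib] }
  have hφ : ∀ (T : Tri V) u v w, T.1 = {u, v, w} →
      φ (inc T) = pf f u v + pf f u w + pf f v w := by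
    intro T u v w e
    rw [← sum_tri f (card_three_iff.1 (e ▸ T.2)), sum_filter, ← e]
    change ∑ g, inc T g • f g = _
    exact sum_congr rfl fun g _ => by by_cases h : g.1 ⊆ T.1 <;> simp [inc, h]
  obtain ⟨J, hJ1, hJ2, hJ3⟩ := small_generators (inc : Tri V → Edge V → ℤ)
    (fun t e => by unfold inc; split_ifs <;> norm_num) sum_inc
    (univ.filter fun T => T ∈ A ∧ φ (inc T) = 0)
  have hker : ∀ x ∈ AddSubgroup.closure (inc '' (J : Set (Tri V))), φ x = 0 := by
    intro x hx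
    refine (AddSubgroup.closure_le φ.ker).2 ?_ hx
    rintro _ ⟨T, hT, rfl⟩
    exact (mem_filter.1 (hJ1 hT)).2.2
  set B : V → V → V → Prop := fun u v w => pf f u v + pf f u w + pf f v w ≠ 0 with hB
  have h1 : c1 (fun T => inc T ∉ AddSubgroup.closure (inc '' (J : Set (Tri V))) ∧ T ∈ A) ≤
      9 * n ^ 2 := by
    have a1 : c1 (fun T => inc T ∉ AddSubgroup.closure (inc '' (J : Set (Tri V))) ∧ T ∈ A) ≤
        c1 (fun T => T ∈ fam B ∧ T ∈ A) := by
      refine c1_mono fun T h => ⟨?_, h.2⟩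
      obtain ⟨u, v, w, -, e⟩ := tri_rep T
      refine ⟨u, v, w, fun e0 => h.1 (hJ3 T ?_), e⟩
      simp only [mem_filter, mem_univ, true_and]
      exact ⟨h.2, by rw [hφ T u v w e, e0]⟩
    have a2 := fam_le A B
    have a3 := neg_count (rel_sym A) (fun u v => pf f u v ≠ 0) B
      (fun u v w h e => h (by rw [← e, pf_comm f w v]; abel))
      (fun u v w h e => h (by rw [← e, pf_comm f v u, pf_comm f w u]; abel))
      (fun u v w h => by
        by_contra hc
        simp only [not_or, not_not] at hc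
        exact h (by rw [hc.1, hc.2.1, hc.2.2]; simp)) hbad
    have a4 := c2_le (fun u v => pf f u v ≠ 0)
    linarith
  have h2 : c1 (fun T => inc T ∉ AddSubgroup.closure (inc '' (J : Set (Tri V)))) ≤
      γ / 10 ^ 6 * n ^ 3 := by
    by_contra hc
    have := hA J (fun T hT => (mem_filter.1 (hJ1 hT)).2.1)
      (hJ2.trans (Nat.mul_le_mul_left 7 card_edge_le)) (not_le.1 hc).le
    linarith
  have h3 : c3 B ≤ c3 (fun u v w => rel Set.univ u v w ∧ B u v w) +
      c3 (fun u v w : V => ¬ Dist u v w) :=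
    c3_le_add fun u v w h => by
      by_cases d : Dist u v w
      · exact Or.inl ⟨rel_univ.2 d, h⟩
      · exact Or.inr d
  have h4 := le_fam Set.univ B
  have h5 : c1 (fun T => T ∈ fam B ∧ T ∈ Set.univ) ≤
      c1 (fun T => inc T ∉ AddSubgroup.closure (inc '' (J : Set (Tri V)))) := by
    refine c1_mono ?_
    rintro T ⟨⟨u, v, w, hb, e⟩, -⟩ hc
    exact hb (by rw [← hφ T u v w e]; exact hker _ hc)
  have h6 := c3_not_dist (V := V)
  have : 10 ^ 6 * n ^ 2 ≤ γ * n * n ^ 2 := mul_le_mul_of_nonneg_right hn (sq_nonneg n)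
  nlinarith

lemma sum_ext {α M : Type*} [Fintype α] [AddCommMonoid M] (p : α → Prop) [DecidablePred p]
    (F : {a // p a} → M) : ∑ a, (if h : p a then F ⟨a, h⟩ else 0) = ∑ a, F a := by
  rw [Finset.sum_dite]
  simp only [sum_const_zero, add_zero]
  refine Fintype.sum_equiv (Equiv.subtypeEquivRight (by simp)) _ _ fun a => rfl

lemma trivial_sum {G : Type*} [AddCommGroup G] (α : V → G) (β : G) (hα : ∀ u, α u + α u = β)
    (hβ : β + β + β = 0) (m : ℕ) (h2 : 2 ∣ m * (Fintype.card V - 1))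
    (h6 : 6 ∣ m * Fintype.card V * (Fintype.card V - 1)) :
    m • ∑ g : Edge V, ∑ u ∈ g.1, α u = 0 := by
  have e1 : ∑ g : Edge V, ∑ u ∈ g.1, α u = (Fintype.card V - 1) • ∑ u, α u := by
    have : ∀ g : Edge V, ∑ u ∈ g.1, α u = ∑ u, if u ∈ g.1 then α u else 0 := fun g => by simp
    simp only [this]
    rw [sum_comm, smul_sum]
    refine sum_congr rfl fun u _ => ?_
    rw [← sum_filter, sum_const, card_edge_at]
  obtain ⟨k, hk⟩ := h2
  have h3 : 3 ∣ k * Fintype.card V := by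
    have : m * Fintype.card V * (Fintype.card V - 1) = 2 * (k * Fintype.card V) := by
      rw [mul_right_comm, hk]; ring
    omega
  obtain ⟨j, hj⟩ := h3
  have e2 : (2 : ℕ) • ∑ u, α u = Fintype.card V • β := by
    rw [two_nsmul, ← sum_add_distrib]
    simp [hα]
  rw [e1, ← mul_smul, hk, mul_comm 2 k, mul_smul, e2, ← mul_smul, hj, mul_comm 3 j, mul_smul,
    three'_nsmul, hβ, smul_zero]

theorem det_main {A K B : Set (Tri V)} {D γ : ℝ} {M : ℕ} (hAK : A ⊆ K) (hKB : K ⊆ B)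
    (hK : Covers K) (hD : 10 ^ 20 ≤ D) (hn : 10 ^ 17 ≤ (Fintype.card V : ℝ))
    (hM : 10 ^ 16 ≤ (M : ℝ)) (hγ : 0 < γ) (hγ1 : γ ≤ 1)
    (hγn : 10 ^ 6 ≤ γ * (Fintype.card V : ℝ))
    (hC : Cherry (rel A) D γ) (hR3 : Rooted (rel A) D (γ / 4000) (False, False, False) Phi3)
    (hR4 : Rooted (rel A) D (1 / 10 ^ 17) (lab0 M) (Phi4 M))
    (hA : Closed A (γ / 10 ^ 6)) (hF : Far A B D) :
    ∀ᶠ m : ℕ in Filter.atTop, 2 ∣ m * (Fintype.card V - 1) →
      6 ∣ m * Fintype.card V * (Fintype.card V - 1) → HasFold K m := by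
  classical
  choose τ hτK hτ using fun e : Edge V => hK e.1 e.2
  let R : Edge V → Prop := fun g => ∃ e, deg A e < D / 200 ∧ g.1 ⊆ (τ e).1
  let Mt : Tri V → Prop := fun T => ∃ e, deg A e < D / 200 ∧ T = τ e
  let K1 : Tri V → Prop := fun T => T ∈ A ∧ ∀ g : Edge V, g.1 ⊆ T.1 → ¬ R g
  let Rp : V → V → Prop := fun u v => ∃ h : u ≠ v, R (pr h)
  have hRp : ∀ {u v} (h : u ≠ v), Rp u v ↔ R (pr h) := fun h => ⟨fun ⟨_, r⟩ => r, fun r => ⟨h, r⟩⟩
  have hRs : ∀ u v, Rp u v → Rp v u := fun u v ⟨h, r⟩ => ⟨h.symm, by rwa [pr_comm]⟩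
  have cntM : ∀ g : Edge V, (univ.filter fun T : Tri V => g.1 ⊆ T.1 ∧ Mt T).card =
      if R g then 1 else 0 := by
    intro g
    split_ifs with h
    · obtain ⟨e, he, hg⟩ := h
      refine card_eq_one.2 ⟨τ e, ?_⟩
      ext T
      simp only [mem_filter, mem_univ, true_and, mem_singleton]
      constructor
      · rintro ⟨h1, e', he', rfl⟩
        rw [hF e' (τ e') g (τ e) g (τ e) g (τ e) e (hτ _) h1 hg hg hg hg hg (hτ _)
          (hKB (hτK _)) (hKB (hτK _)) (hKB (hτK _)) (hKB (hτK _)) he' he]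
      · rintro rfl
        exact ⟨hg, e, he, rfl⟩
    · rw [card_eq_zero, filter_eq_empty_iff]
      rintro T - ⟨h1, e, he, rfl⟩
      exact h ⟨e, he, h1⟩
  have hdeg : ∀ u v, u ≠ v → ¬ Rp u v → D / 200 ≤ c1 (rel A u v) := by
    intro u v h hr
    refine le_trans ?_ (deg_le A h)
    by_contra hc
    exact hr ⟨h, pr h, not_le.1 hc, hτ _⟩
  have hbad : ∀ u v, c1 (fun w => rel A u v w ∧ (Rp u w ∨ Rp v w)) ≤ 3 := by
    intro u v
    have aux : ∀ w, rel A u v w ∧ (Rp u w ∨ Rp v w) → ∃ (T : Tri V) (g e : Edge V), T ∈ A ∧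
        {u, v} ⊆ T.1 ∧ g.1 ⊆ T.1 ∧ w ∈ g.1 ∧ deg A e < D / 200 ∧ g.1 ⊆ (τ e).1 := by
      rintro w ⟨⟨T, hT, eT⟩, ⟨h, e, he, hg⟩ | ⟨h, e, he, hg⟩⟩
      · exact ⟨T, pr h, e, hT, by simp [eT, insert_subset_iff], by simp [eT, pr, insert_subset_iff],
          by simp [pr], he, hg⟩
      · exact ⟨T, pr h, e, hT, by simp [eT, insert_subset_iff], by simp [eT, pr, insert_subset_iff],
          by simp [pr], he, hg⟩
    by_cases hex : ∃ w, rel A u v w ∧ (Rp u w ∨ Rp v w)
    swap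
    · by_contra hc
      exact hex (c1_pos_iff.1 (by linarith [not_le.1 hc]))
    obtain ⟨w0, hw0⟩ := hex
    have huv : u ≠ v := (rel_sym A).ne hw0.1
    obtain ⟨T0, g0, e0, a1, a2, a3, -, a5, a6⟩ := aux w0 hw0
    have : c1 (fun w => rel A u v w ∧ (Rp u w ∨ Rp v w)) ≤ c1 (fun w => w ∈ (τ e0).1) := by
      refine c1_mono fun w hw => ?_
      obtain ⟨T, g, e, b1, b2, b3, b4, b5, b6⟩ := aux w hw
      have := hF e (τ e) g T (pr huv) T0 g0 (τ e0) e0 (hτ _) b6 b3 b2 a2 a3 a6 (hτ _)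
        (hKB (hτK _)) (hKB (hAK b1)) (hKB (hAK a1)) (hKB (hτK _)) b5 a5
      exact this ▸ b6 b4
    rw [c1_mem, (τ e0).2] at this
    exact_mod_cast this
  have hK1 : ∀ u v w, rel A u v w → ¬ Rp u v → ¬ Rp u w → ¬ Rp v w →
      ∃ T, K1 T ∧ T.1 = {u, v, w} := by
    rintro u v w ⟨T, hT, e⟩ r1 r2 r3
    have d := card_three_iff.1 (e ▸ T.2)
    refine ⟨T, ⟨hT, fun g hg => ?_⟩, e⟩
    have : g ∈ univ.filter fun g : Edge V => g.1 ⊆ {u, v, w} := by simpa [← e] using hg
    rw [(edges_in d).1] at this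
    simp only [mem_insert, mem_singleton] at this
    rcases this with rfl | rfl | rfl
    · exact fun r => r1 ⟨_, r⟩
    · exact fun r => r2 ⟨_, r⟩
    · exact fun r => r3 ⟨_, r⟩
  let v' : {T // K1 T} → {g // ¬ R g} → ℤ := fun T g => inc T.1 g.1
  have ext_tri : ∀ {N : Type} [AddCommMonoid N] (F : {g // ¬ R g} → N) (T : Tri V) u v w,
      T.1 = {u, v, w} → ∑ g : {g // ¬ R g}, (if g.1.1 ⊆ T.1 then F g else 0) =
        pf (fun g => if h : ¬ R g then F ⟨g, h⟩ else 0) u v +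
        pf (fun g => if h : ¬ R g then F ⟨g, h⟩ else 0) u w +
        pf (fun g => if h : ¬ R g then F ⟨g, h⟩ else 0) v w := by
    intro N _ F T u v w e
    rw [← sum_tri _ (card_three_iff.1 (e ▸ T.2)), sum_filter, ← e, ← sum_ext (fun g => ¬ R g)]
    refine sum_congr rfl fun g _ => ?_
    split_ifs <;> rfl
  have pf_ne0 : ∀ {N : Type} [Zero N] (F : {g // ¬ R g} → N) u v,
      pf (fun g => if h : ¬ R g then F ⟨g, h⟩ else 0) u v ≠ 0 → u ≠ v ∧ ¬ Rp u v := by
    intro N _ F u v h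
    have huv : u ≠ v := fun e => h (by rw [e, pf_self])
    refine ⟨huv, fun r => h ?_⟩
    rw [pf_ne _ huv, dif_neg (not_not.2 ((hRp huv).1 r))]
  obtain ⟨w, hw0, hw1⟩ := pos_sol (fun T g => (v' T g : ℝ)) (fun T => by
      have h1 := sum_inc T.1
      rw [← sum_ext (fun g => ¬ R g) (fun g => (v' T g : ℝ))]
      have : ((∑ g, inc T.1 g : ℤ) : ℝ) = 3 := by rw [h1]; norm_num
      rw [← this]
      push_cast
      refine sum_congr rfl fun g _ => ?_
      split_ifs with h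
      · simp only [inc, if_neg fun k => T.2.2 g k h]; simp
      · rfl) (by
    intro y hy hs
    let f : Edge V → ℝ := fun g => if h : ¬ R g then y ⟨g, h⟩ else 0
    have key := core_real (rel_sym A) hD hn hM hC hR3 hR4 (pf f) (pf_comm f) (pf_self f)
      (fun u v h => hdeg u v (pf_ne0 y u v h.ne).1 (pf_ne0 y u v h.ne).2)
      (fun u v h => (c1_mono fun w hw => ⟨hw.1, by
        by_contra hc
        rw [not_or] at hc
        obtain ⟨T, hT, e⟩ := hK1 u v w hw.1 (pf_ne0 y u v h.ne).2 hc.1 hc.2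
        have h1 := hy ⟨T, hT⟩
        have h2 := ext_tri y T u v w e
        have h3 : ∑ e, y e * (v' ⟨T, hT⟩ e : ℝ) =
            ∑ g : {g // ¬ R g}, (if g.1.1 ⊆ T.1 then y g else 0) :=
          sum_congr rfl fun g _ => by by_cases k : g.1.1 ⊆ T.1 <;> simp [v', inc, k]
        linarith [hw.2]⟩).trans (hbad u v))
      (by rw [sum_pairs, sum_ext (fun g => ¬ R g) y]; linarith)
    funext g
    obtain ⟨u, v, h, e⟩ := edge_rep g.1
    have := key u v
    rw [pf_ne f h, ← e] at this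
    simp only [f, dif_pos g.2] at this
    exact this)
  filter_upwards [semigroup v' (fun t e => by simp only [v', inc]; split_ifs <;> norm_num)
    (fun t e => by simp only [v', inc]; split_ifs <;> norm_num) w hw0 hw1] with m hm h2 h6
  obtain ⟨c, hc⟩ := hm (by
    let L := AddSubgroup.closure (Set.range v')
    let F : {g // ¬ R g} → ({g // ¬ R g} → ℤ) ⧸ L := fun g => QuotientAddGroup.mk' L (Pi.single g 1)
    let f : Edge V → ({g // ¬ R g} → ℤ) ⧸ L := fun g => if h : ¬ R g then F ⟨g, h⟩ else 0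
    have rep : ∀ x : {g // ¬ R g} → ℤ, QuotientAddGroup.mk' L x = ∑ g, x g • F g := by
      intro x
      conv_lhs => rw [pi_eq_sum_univ' x]
      rw [map_sum]
      exact sum_congr rfl fun g _ => map_zsmul _ _ _
    have hz : ∀ u v w, rel A u v w → ¬ Rp u v → ¬ Rp u w → ¬ Rp v w →
        pf f u v + pf f u w + pf f v w = 0 := by
      intro u v w ha r1 r2 r3
      obtain ⟨T, hT, e⟩ := hK1 u v w ha r1 r2 r3
      rw [← ext_tri F T u v w e]
      have h1 : QuotientAddGroup.mk' L (v' ⟨T, hT⟩) = 0 :=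
        (QuotientAddGroup.eq_zero_iff _).2 (AddSubgroup.subset_closure (Set.mem_range_self _))
      rw [rep] at h1
      refine Eq.trans ?_ h1
      exact sum_congr rfl fun g _ => by by_cases k : g.1.1 ⊆ T.1 <;> simp [v', inc, k]
    obtain ⟨α, β, hα, hβ, hy⟩ := core_group (rel_sym A)
      (by linarith [show (10 : ℝ) ^ 5 ≤ 10 ^ 20 by norm_num]) hγ hγ1
      (by linarith [show (10 : ℝ) ^ 5 ≤ 10 ^ 6 by norm_num]) hC hR3 Rp hRs hdeg
      (fun u v _ _ => hbad u v) (pf f) (pf_comm f) hz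
      (test_of_closed hγn hA f fun u v h => (c1_mono fun w hw => ⟨hw.1, by
        by_contra hc
        rw [not_or] at hc
        exact hw.2 (hz u v w hw.1 (pf_ne0 F u v h).2 hc.1 hc.2)⟩).trans (hbad u v))
    let y0 : Edge V → ({g // ¬ R g} → ℤ) ⧸ L := fun g => ∑ u ∈ g.1, α u
    have hy0 : ∀ {u v} (h : u ≠ v), pf y0 u v = α u + α v := fun h => by
      rw [pf_ne _ h]; exact sum_pair h
    have s1 : ∀ g, f g = y0 g - if R g then y0 g else 0 := by
      intro g
      by_cases r : R g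
      · simp [f, r]
      · obtain ⟨u, v, h, rfl⟩ := edge_rep g
        rw [if_neg r, sub_zero, ← pf_ne f h, ← pf_ne y0 h, hy0 h]
        exact hy u v h fun k => r ((hRp h).1 k)
    have s2 : ∑ g, (if R g then y0 g else 0) = 0 := by
      have : ∀ g, (if R g then y0 g else 0) =
          ∑ T : Tri V, if g.1 ⊆ T.1 ∧ Mt T then y0 g else 0 := fun g => by
        rw [← sum_filter, sum_const, cntM]
        split_ifs <;> simp
      simp only [this]
      rw [sum_comm]
      refine sum_eq_zero fun T _ => ?_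
      by_cases hT : Mt T
      · obtain ⟨u, v, w, d, e⟩ := tri_rep T
        simp only [hT, and_true]
        rw [← sum_filter, e, sum_tri y0 d, hy0 d.1, hy0 d.2.1, hy0 d.2.2, ← hβ]
        nth_rewrite 1 [← hα u]
        nth_rewrite 1 [← hα v]
        rw [← hα w]
        abel
      · simp [hT]
    have s3 := trivial_sum α β hα hβ m h2 h6
    rw [← QuotientAddGroup.eq_zero_iff]
    change QuotientAddGroup.mk' L _ = 0
    rw [rep]
    change ∑ g, (m : ℤ) • F g = 0
    simp only [natCast_zsmul]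
    rw [sum_nsmul, ← sum_ext (fun g => ¬ R g) F]
    change m • ∑ g, f g = 0
    simp only [s1, sum_sub_distrib, s2, sub_zero]
    exact s3)
  refine ⟨fun T => (if h : K1 T then c ⟨T, h⟩ else 0) + if Mt T then m else 0, fun T hT => ?_,
    fun e he => ?_⟩
  · have h1 : ¬ K1 T := fun h => hT (hAK h.1)
    have h2 : ¬ Mt T := fun ⟨e, _, h⟩ => hT (h ▸ hτK e)
    simp [h1, h2]
  · let g : Edge V := ⟨e, he⟩
    rw [sum_add_distrib]
    have s1 : ∑ T : Tri V with e ⊆ T.1, (if Mt T then m else 0) = if R g then m else 0 := by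
      rw [← sum_filter, filter_filter, sum_const]
      have := cntM g
      change (univ.filter fun T : Tri V => e ⊆ T.1 ∧ Mt T).card = _ at this
      rw [this]
      split_ifs <;> simp
    have s2 : ∑ T : Tri V with e ⊆ T.1, (if h : K1 T then c ⟨T, h⟩ else 0) =
        ∑ T : {T // K1 T}, if e ⊆ T.1.1 then c T else 0 := by
      rw [sum_filter, ← sum_ext K1]
      refine sum_congr rfl fun T _ => ?_
      split_ifs <;> rfl
    rw [s1, s2]
    by_cases r : R g
    · rw [if_pos r, sum_eq_zero fun T _ => if_neg fun k => T.2.2 g k r, zero_add]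
    · rw [if_neg r, add_zero]
      have := hc ⟨g, r⟩
      have h3 : ((∑ T : {T // K1 T}, if e ⊆ T.1.1 then c T else 0 : ℕ) : ℤ) = m := by
        rw [← this]
        push_cast
        exact sum_congr rfl fun T _ => by by_cases k : e ⊆ T.1.1 <;> simp [v', inc, g, k]
      exact_mod_cast h3

end Pool.Agent.P.MP_224820_co
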