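import Pool.Agent.P.MP_224820_co.Prob
import Pool.Agent.P.MP_224820_co.Det

namespace Pool.Agent.P.MP_224820_co

open Finset MeasureTheory unitInterval

variable {V : Type} [Fintype V] [DecidableEq V]

def kept (U : Tri V → I) (a : ℝ) : Set (Tri V) := {T | (U T : ℝ) ≤ a}

lemma lab_mono {ι : Type} [Fintype ι] {S T : Set (ι → I)} (h : S ⊆ T) :
    (lab ι).real S ≤ (lab ι).real T := measureReal_mono h (measure_ne_top _ _)

lemma lab_le {ι : Type} [Fintype ι] {S T : Set (ι → I)} {c : ℝ} (hc : (lab ι).real T ≤ c)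
    (h : S ⊆ T) : (lab ι).real S ≤ c := (lab_mono h).trans hc

lemma fam_card_le (Q : V → V → V → Prop) : c1 (fun T => T ∈ fam Q) ≤ c3 Q := by
  have h1 := fam_le Set.univ Q
  have h2 : c3 (fun u v w => rel Set.univ u v w ∧ Q u v w) ≤ c3 Q := c3_mono fun _ _ _ h => h.2
  simp only [Set.mem_univ, and_true] at h1
  linarith

lemma le_fam_card (Q : V → V → V → Prop) :
    c3 (fun u v w => Dist u v w ∧ Q u v w) ≤ 6 * c1 (fun T => T ∈ fam Q) := by
  have h1 := le_fam Set.univ Q
  simpa only [Set.mem_univ, and_true, rel_univ] using h1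

theorem prob_cherry {a D : ℝ} (ha0 : 0 ≤ a) (ha1 : a ≤ 1) (hD : a * Fintype.card V = D) :
    (lab (Tri V)).real {U | ¬ Cherry (rel (kept U a)) D (Real.exp (-(3 * 10 ^ 7)))} ≤
      Real.exp ((Fintype.card V : ℝ) ^ 2 * Real.exp (-(4 * D))) - 1 := by
  set γ := Real.exp (-(3 * 10 ^ 7))
  set n : ℝ := (Fintype.card V : ℝ) with hnd
  let Q : Finset (V × V) → V → V → V → Prop := fun S u v w =>
    (u, v) ∈ S ∧ (u, w) ∈ S ∧ c1 (fun x => (u, x) ∈ S) ≤ γ * n
  have hc : ∀ S : Finset (V × V), c2 (fun u v => (u, v) ∈ S) = S.card := fun S => by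
    rw [← c1_prod, c1_mem]
  have := union_nonempty (lab (Tri V)) (fun S : Finset (V × V) =>
    {U | D / (6 * 10 ^ 6) * S.card ≤ c1 (fun T => T ∈ fam (Q S) ∧ (U T : ℝ) ≤ a)})
    (z := Real.exp (-(4 * D))) (by positivity) (by
      intro S _
      refine (upper_tail (fun T => T ∈ fam (Q S)) ha0 ha1 (s := 3 * 10 ^ 7) (by norm_num) _).trans ?_
      rw [← Real.exp_nat_mul, Real.exp_le_exp]
      have h1 : c1 (fun T => T ∈ fam (Q S)) ≤ γ * n * S.card := by
        refine (fam_card_le _).trans ?_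
        rw [← hc]
        refine c3_le_mul fun u v _ => ?_
        by_cases h : c1 (fun x => (u, x) ∈ S) ≤ γ * n
        · exact (c1_mono fun w hw => hw.1).trans h
        · have : c1 (fun w => (u, w) ∈ S ∧ c1 (fun x => (u, x) ∈ S) ≤ γ * n) = 0 :=
            sum_eq_zero fun w _ => ind_neg fun k => h k.2
          rw [this]; positivity
      have h2 : Real.exp (3 * 10 ^ 7) * γ = 1 := by rw [← Real.exp_add]; simp
      have h3 := mul_le_mul_of_nonneg_left h1
        (show 0 ≤ a * Real.exp (3 * 10 ^ 7) by positivity)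
      have h4 : a * Real.exp (3 * 10 ^ 7) * (γ * n * S.card) = D * S.card := by
        rw [← hD]; linear_combination a * n * S.card * h2
      rw [h4] at h3
      have h5 : 3 * 10 ^ 7 * (D / (6 * 10 ^ 6) * S.card) = 5 * (D * S.card) := by ring
      rw [h5]
      linarith)
  rw [Fintype.card_prod] at this
  push_cast at this
  rw [← sq] at this
  refine lab_le this ?_
  intro U hU
  classical
  simp only [Cherry, not_forall, not_le, Set.mem_ofPred_eq] at hU
  obtain ⟨S0, hS⟩ := hU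
  obtain ⟨S, rfl⟩ : ∃ S : Finset (V × V), S0 = fun u v => (u, v) ∈ S :=
    ⟨univ.filter fun p => S0 p.1 p.2, by funext u v; simp⟩
  have h1 := le_fam (kept U a) (Q S)
  rw [hc] at hS
  have h2 : D / (6 * 10 ^ 6) * S.card < c1 (fun T => T ∈ fam (Q S) ∧ (U T : ℝ) ≤ a) := by
    change c3 _ ≤ 6 * c1 (fun T => T ∈ fam (Q S) ∧ (U T : ℝ) ≤ a) at h1
    linarith
  simp only [Set.mem_iUnion]
  refine ⟨S, mem_erase.2 ⟨?_, mem_univ _⟩, h2.le⟩
  rintro rfl
  obtain ⟨T, ⟨u, v, w, hq, -⟩, -⟩ := c1_pos_iff.1 (show 0 < c1 (fun T => T ∈ fam (Q ∅) ∧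
    (U T : ℝ) ≤ a) by simpa using h2)
  simpa using hq.1

theorem prob_rooted {a D θ : ℝ} (ha0 : 0 ≤ a) (ha1 : a ≤ 1) (hD : a * Fintype.card V = D)
    (hn : 0 < (Fintype.card V : ℝ))
    {Λ : Type} [Fintype Λ] (l0 : Λ) (Φ : Λ → Λ → Λ → Prop) :
    (lab (Tri V)).real {U | ¬ Rooted (rel (kept U a)) D θ l0 Φ} ≤
      Real.exp (Fintype.card V * ((Fintype.card Λ : ℝ) ^ (2 * Fintype.card V) *
        Real.exp (-(θ * D * Fintype.card V / 24)))) - 1 := by
  classical
  set n : ℝ := (Fintype.card V : ℝ) with hnd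
  let L : Finset V → Finset (V × V → Λ) := fun H =>
    Fintype.piFinset fun p => if p.1 ∈ H ∨ p.2 ∈ H then univ else {l0}
  let Q : (V × V → Λ) → V → V → V → Prop := fun l u v w => Φ (l (u, v)) (l (u, w)) (l (v, w))
  let E : Finset V → (V × V → Λ) → Set (Tri V → I) := fun H l =>
    {U | θ * H.card * n ^ 2 ≤ 6 * c1 (fun T => T ∈ fam (Q l)) ∧
      c1 (fun T => T ∈ fam (Q l) ∧ (U T : ℝ) ≤ a) ≤ a / 4 * c1 (fun T => T ∈ fam (Q l))}
  have hΛ : 1 ≤ Fintype.card Λ := Fintype.card_pos_iff.2 ⟨l0⟩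
  have hL : ∀ H, (L H).card ≤ (Fintype.card Λ ^ (2 * Fintype.card V)) ^ H.card := by
    intro H
    rw [Fintype.card_piFinset, ← pow_mul]
    simp only [apply_ite card, card_univ, card_singleton, prod_ite, prod_const, one_pow, mul_one]
    refine Nat.pow_le_pow_right hΛ ?_
    have : (univ.filter fun p : V × V => p.1 ∈ H ∨ p.2 ∈ H) ⊆ H ×ˢ univ ∪ univ ×ˢ H := by
      intro p hp
      simpa using hp
    refine (card_le_card this).trans ((card_union_le _ _).trans (le_of_eq ?_))
    simp only [card_product, card_univ]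
    ring
  have hE : ∀ H l, (lab (Tri V)).real (E H l) ≤ Real.exp (-(θ * D * n / 24)) ^ H.card := by
    intro H l
    by_cases h : θ * H.card * n ^ 2 ≤ 6 * c1 (fun T => T ∈ fam (Q l))
    · have := lower_tail ∅ (fun T => T ∈ fam (Q l)) ha0 ha1 ha0 ha1 zero_le_one (by norm_num)
        half_le (a / 4 * c1 (fun T => T ∈ fam (Q l)))
      refine (lab_le this fun U hU => ⟨by simp, hU.2⟩).trans ?_
      rw [← Real.exp_nat_mul]
      simp only [card_empty, pow_zero, one_mul, Nat.cast_zero, sub_zero, Real.exp_le_exp]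
      have := mul_le_mul_of_nonneg_left h ha0
      rw [← hD]
      nlinarith
    · have : E H l = ∅ := Set.eq_empty_of_forall_notMem fun U hU => h hU.1
      rw [this, measureReal_empty]
      positivity
  have := union_nonempty (lab (Tri V)) (fun H : Finset V => ⋃ l ∈ L H, E H l)
    (z := (Fintype.card Λ : ℝ) ^ (2 * Fintype.card V) * Real.exp (-(θ * D * n / 24)))
    (by positivity) (by
      intro H _
      refine (measureReal_biUnion_finset_le _ _).trans ?_
      refine (sum_le_card_nsmul _ _ _ fun l _ => hE H l).trans ?_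
      rw [nsmul_eq_mul, mul_pow]
      refine mul_le_mul_of_nonneg_right ?_ (by positivity)
      exact_mod_cast hL H)
  refine lab_le this ?_
  intro U hU
  simp only [Rooted, not_forall, not_le, Set.mem_ofPred_eq] at hU
  obtain ⟨H0, l, h1, ⟨u0, h2⟩, h3, h4⟩ := hU
  obtain ⟨H, rfl⟩ : ∃ H : Finset V, H0 = fun u => u ∈ H :=
    ⟨univ.filter H0, by funext u; simp⟩
  simp only [Set.mem_iUnion]
  refine ⟨H, mem_erase.2 ⟨ne_empty_of_mem h2, mem_univ _⟩, fun p => l p.1 p.2, ?_, ?_, ?_⟩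
  · rw [Fintype.mem_piFinset]
    intro p
    split_ifs with h
    · exact mem_univ _
    · rw [not_or] at h
      exact mem_singleton.2 (h1 _ _ h.1 h.2)
  · rw [c1_mem] at h3
    exact h3.trans (le_fam_card _)
  · have a1 := fam_le (kept U a) (Q fun p => l p.1 p.2)
    have a2 := le_fam_card (Q fun p => l p.1 p.2)
    have a3 : D / (24 * n) = a / 24 := by rw [← hD]; field_simp
    rw [a3] at h4
    have a4 := mul_le_mul_of_nonneg_left a2 (show 0 ≤ a / 24 by positivity)
    change c1 (fun T => T ∈ fam (Q fun p => l p.1 p.2) ∧ (U T : ℝ) ≤ a) ≤ _ at a1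
    linarith

theorem prob_closed {a D ζ : ℝ} (ha0 : 0 ≤ a) (ha1 : a ≤ 1) (hD : a * Fintype.card V = D)
    (hζ0 : 0 < ζ) (hζ1 : ζ ≤ 1) :
    (lab (Tri V)).real {U | ¬ Closed (kept U a) ζ} ≤
      Real.exp ((Fintype.card V : ℝ) ^ 2 * (13 + 7 * Real.log (4 / ζ) - ζ * D / 4)) := by
  classical
  set n : ℝ := (Fintype.card V : ℝ) with hnd
  let F : Finset (Tri V) → Tri V → Prop := fun J T =>
    inc T ∉ AddSubgroup.closure (inc '' (J : Set (Tri V)))
  let E : Finset (Tri V) → Set (Tri V → I) := fun J =>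
    {U | (J.card ≤ 7 * Fintype.card V ^ 2 ∧ ζ * n ^ 3 ≤ c1 (F J)) ∧ (∀ T ∈ J, (U T : ℝ) ≤ a) ∧
      c1 (fun T => F J T ∧ (U T : ℝ) ≤ a) ≤ 9 * n ^ 2}
  have hlog : 0 ≤ Real.log (4 / ζ) := Real.log_nonneg (by rw [le_div_iff₀ hζ0]; linarith)
  have hE : ∀ J, (lab (Tri V)).real (E J) ≤ (a * (ζ / 4)) ^ J.card *
      Real.exp (n ^ 2 * (13 + 7 * Real.log (4 / ζ) - ζ * D / 2)) := by
    intro J
    by_cases h : J.card ≤ 7 * Fintype.card V ^ 2 ∧ ζ * n ^ 3 ≤ c1 (F J)
    · have := lower_tail J (F J) ha0 ha1 ha0 ha1 zero_le_one (by norm_num) half_le (9 * n ^ 2)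
      refine (lab_le this fun U hU => hU.2).trans ?_
      rw [mul_pow, mul_assoc (a ^ J.card)]
      refine mul_le_mul_of_nonneg_left ?_ (pow_nonneg ha0 _)
      have e : (ζ / 4) ^ J.card = Real.exp (-(J.card * Real.log (4 / ζ))) := by
        rw [Real.exp_neg, Real.exp_nat_mul, Real.exp_log (show 0 < 4 / ζ by positivity), ← inv_pow,
          inv_div]
      rw [e, ← Real.exp_add, Real.exp_le_exp]
      have h1 : (J.card : ℝ) ≤ 7 * n ^ 2 := by rw [hnd]; exact_mod_cast h.1
      have h2 := mul_le_mul_of_nonneg_left h.2 ha0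
      have h3 := mul_le_mul_of_nonneg_right h1 hlog
      have h4 : a * J.card ≤ 7 * n ^ 2 := by
        nlinarith [show (0 : ℝ) ≤ J.card by positivity]
      rw [← hD]
      nlinarith [sq_nonneg n]
    · have : E J = ∅ := Set.eq_empty_of_forall_notMem fun U hU => h hU.1
      rw [this, measureReal_empty]
      positivity
  have sub : {U | ¬ Closed (kept U a) ζ} ⊆ ⋃ J ∈ (univ : Finset (Finset (Tri V))), E J := by
    intro U hU
    simp only [Closed, not_forall, not_lt, Set.mem_ofPred_eq] at hU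
    obtain ⟨J, h1, h2, h3, h4⟩ := hU
    simp only [Set.mem_iUnion]
    exact ⟨J, mem_univ _, ⟨h2, h3⟩, fun T hT => h1 hT, h4⟩
  refine (lab_mono sub).trans ((measureReal_biUnion_finset_le _ _).trans ?_)
  refine (sum_le_sum fun J _ => hE J).trans ?_
  rw [← sum_mul]
  refine (mul_le_mul_of_nonneg_right (sum_pow_card_le (by positivity)) (by positivity)).trans ?_
  rw [← Real.exp_add, Real.exp_le_exp]
  have h1 : (Fintype.card (Tri V) : ℝ) ≤ n ^ 3 := by rw [hnd]; exact_mod_cast card_tri_le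
  have h2 := mul_le_mul_of_nonneg_right h1 (show 0 ≤ a * (ζ / 4) by positivity)
  rw [← hD]
  nlinarith

lemma common_le {e f : Edge V} (h : e ≠ f) :
    (univ.filter fun T : Tri V => e.1 ⊆ T.1 ∧ f.1 ⊆ T.1).card ≤ 1 := by
  rw [card_le_one]
  intro S hS T hT
  simp only [mem_filter, mem_univ, true_and] at hS hT
  have h3 : 3 ≤ (e.1 ∪ f.1).card := by
    by_contra hc
    apply h
    have e1 : e.1 = e.1 ∪ f.1 :=
      eq_of_subset_of_card_le subset_union_left (by rw [e.2]; omega)
    have e2 : f.1 = e.1 ∪ f.1 :=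
      eq_of_subset_of_card_le subset_union_right (by rw [f.2]; omega)
    exact Subtype.ext (e1.trans e2.symm)
  have e1 := eq_of_subset_of_card_le (union_subset hS.1 hS.2) (by rw [S.2]; exact h3)
  have e2 := eq_of_subset_of_card_le (union_subset hT.1 hT.2) (by rw [T.2]; exact h3)
  exact Subtype.ext (e1.symm.trans e2)

lemma card_union_at (e f : Edge V) :
    (univ.filter fun T : Tri V => e.1 ⊆ T.1 ∨ f.1 ⊆ T.1).card +
      (univ.filter fun T : Tri V => e.1 ⊆ T.1 ∧ f.1 ⊆ T.1).card =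
      (Fintype.card V - 2) + (Fintype.card V - 2) := by
  rw [filter_or, filter_and, card_union_add_card_inter, card_tri_at, card_tri_at]

def farBad (a b D : ℝ) (e1 : Edge V) : ℕ → Edge V → Finset (Tri V) → Set (Tri V → I)
  | 0, g, P => {U | e1 ≠ g ∧ (∀ T ∈ P, (U T : ℝ) ≤ b) ∧ deg (kept U a) e1 < D / 200 ∧
      deg (kept U a) g < D / 200}
  | k + 1, g, P => ⋃ T ∈ univ.filter (fun T : Tri V => g.1 ⊆ T.1),
      ⋃ g' ∈ univ.filter (fun g' : Edge V => g'.1 ⊆ T.1), farBad a b D e1 k g' (insert T P)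

lemma prob_farBad {a b D : ℝ} (ha0 : 0 ≤ a) (ha1 : a ≤ 1) (hb0 : 0 ≤ b) (hb1 : b ≤ 1)
    (hD : a * Fintype.card V = D) (hn : 2 ≤ Fintype.card V) (e1 : Edge V) (k : ℕ) :
    ∀ (g : Edge V) (P : Finset (Tri V)), P.card + k ≤ 4 →
      (lab (Tri V)).real (farBad a b D e1 k g P) ≤
        b ^ P.card * (3 * (4 + Fintype.card V * b)) ^ k * Real.exp (9 - 177 / 100 * D) := by
  induction k with
  | zero =>
    intro g P hP
    by_cases h : e1 = g
    · have : farBad a b D e1 0 g P = ∅ := Set.eq_empty_of_forall_notMem fun U hU => hU.1 h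
      rw [this, measureReal_empty]
      positivity
    have := lower_tail P (fun T : Tri V => e1.1 ⊆ T.1 ∨ g.1 ⊆ T.1) ha0 ha1 hb0 hb1 (s := 3)
      (by norm_num) (by norm_num) nine_le (D / 100)
    refine (lab_le this fun U hU => ⟨hU.2.1, ?_⟩).trans ?_
    · have : c1 (fun T : Tri V => (e1.1 ⊆ T.1 ∨ g.1 ⊆ T.1) ∧ (U T : ℝ) ≤ a) ≤
          deg (kept U a) e1 + deg (kept U a) g :=
        c1_le_add fun T h => h.1.imp (fun k => ⟨k, h.2⟩) (fun k => ⟨k, h.2⟩)
      linarith [hU.2.2.1, hU.2.2.2]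
    · rw [pow_zero, mul_one]
      refine mul_le_mul_of_nonneg_left (Real.exp_le_exp.2 ?_) (by positivity)
      have h1 := card_union_at e1 g
      have h2 := common_le h
      have h3 : 2 * (Fintype.card V : ℝ) - 5 ≤ c1 (fun T : Tri V => e1.1 ⊆ T.1 ∨ g.1 ⊆ T.1) := by
        rw [c1_eq_card]
        have : 2 * Fintype.card V ≤
            (univ.filter fun T : Tri V => e1.1 ⊆ T.1 ∨ g.1 ⊆ T.1).card + 5 := by omega
        have h4 : (2 * Fintype.card V : ℝ) ≤
            ((univ.filter fun T : Tri V => e1.1 ⊆ T.1 ∨ g.1 ⊆ T.1).card : ℝ) + 5 := by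
          exact_mod_cast this
        convert sub_le_iff_le_add.2 h4
      have h5 : (P.card : ℝ) ≤ 4 := by exact_mod_cast hP
      have h6 : a * (2 * (Fintype.card V : ℝ) - 9) ≤
          a * (c1 (fun T : Tri V => e1.1 ⊆ T.1 ∨ g.1 ⊆ T.1) - P.card) :=
        mul_le_mul_of_nonneg_left (by linarith) ha0
      rw [← hD]
      nlinarith
  | succ k ih =>
    intro g P hP
    set C := (3 * (4 + Fintype.card V * b)) ^ k * Real.exp (9 - 177 / 100 * D) with hC
    have C0 : 0 ≤ C := by positivity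
    have h1 : ∀ T : Tri V, (lab (Tri V)).real (⋃ g' ∈ univ.filter (fun g' : Edge V => g'.1 ⊆ T.1),
        farBad a b D e1 k g' (insert T P)) ≤
        3 * (b ^ P.card * ((if T ∈ P then 1 else 0) + b) * C) := by
      intro T
      refine (measureReal_biUnion_finset_le _ _).trans ?_
      refine (sum_le_card_nsmul _ _ _ fun g' _ => ih g' (insert T P)
        (by have := card_insert_le T P; omega)).trans ?_
      rw [card_edge_in, nsmul_eq_mul, mul_assoc, ← hC]
      push_cast
      refine mul_le_mul_of_nonneg_left (mul_le_mul_of_nonneg_right ?_ C0) (by norm_num)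
      split_ifs with h
      · rw [insert_eq_of_mem h]
        nlinarith [pow_nonneg hb0 P.card, mul_nonneg (pow_nonneg hb0 P.card) hb0]
      · rw [card_insert_of_notMem h, pow_succ, zero_add]
    refine (measureReal_biUnion_finset_le _ _).trans ((sum_le_sum fun T _ => h1 T).trans ?_)
    rw [← mul_sum, ← sum_mul, ← mul_sum, sum_add_distrib, sum_const, card_tri_at, nsmul_eq_mul]
    have h2 : ∑ T ∈ univ.filter (fun T : Tri V => g.1 ⊆ T.1), (if T ∈ P then (1 : ℝ) else 0) ≤
        4 := by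
      calc _ ≤ ∑ T, (if T ∈ P then (1 : ℝ) else 0) :=
            sum_le_sum_of_subset_of_nonneg (subset_univ _) fun _ _ _ => by positivity
        _ = P.card := by simp
        _ ≤ 4 := by exact_mod_cast (show P.card ≤ 4 by omega)
    have h3 : ((Fintype.card V - 2 : ℕ) : ℝ) * b ≤ Fintype.card V * b :=
      mul_le_mul_of_nonneg_right (by exact_mod_cast Nat.sub_le _ _) hb0
    have h4 := mul_le_mul_of_nonneg_right (mul_le_mul_of_nonneg_left (add_le_add h2 h3)
      (pow_nonneg hb0 P.card)) C0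
    rw [pow_succ]
    calc _ ≤ 3 * (b ^ P.card * (4 + Fintype.card V * b) * C) := by linarith
      _ = _ := by rw [hC]; ring

theorem prob_far {a b D : ℝ} (ha0 : 0 ≤ a) (ha1 : a ≤ 1) (hb0 : 0 ≤ b) (hb1 : b ≤ 1)
    (hD : a * Fintype.card V = D) (hn : 2 ≤ Fintype.card V) :
    (lab (Tri V)).real {U | ¬ Far (kept U a) (kept U b) D} ≤
      (Fintype.card V : ℝ) ^ 2 *
        ((3 * (4 + Fintype.card V * b)) ^ 4 * Real.exp (9 - 177 / 100 * D)) := by
  have sub : {U | ¬ Far (kept U a) (kept U b) D} ⊆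
      ⋃ e ∈ (univ : Finset (Edge V)), farBad a b D e 4 e ∅ := by
    intro U hU
    simp only [Far, not_forall, Set.mem_ofPred_eq] at hU
    obtain ⟨e1, T1, g1, T2, g2, T3, g3, T4, e2, i1, i2, i3, i4, i5, i6, i7, i8, k1, k2, k3, k4,
      l1, l2, hne⟩ := hU
    simp only [farBad, Set.mem_iUnion, mem_filter, mem_univ, true_and, exists_prop]
    refine ⟨e1, T1, i1, g1, i2, T2, i3, g2, i4, T3, i5, g3, i6, T4, i7, e2, i8, hne, ?_, l1, l2⟩
    intro T hT
    simp only [mem_insert, notMem_empty, or_false] at hT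
    rcases hT with rfl | rfl | rfl | rfl <;> assumption
  refine (lab_mono sub).trans ((measureReal_biUnion_finset_le _ _).trans ?_)
  refine (sum_le_card_nsmul _ _ _ fun e _ =>
    prob_farBad ha0 ha1 hb0 hb1 hD hn e 4 e ∅ (by simp)).trans ?_
  rw [nsmul_eq_mul, card_empty, pow_zero, one_mul, card_univ]
  refine mul_le_mul_of_nonneg_right ?_ (by positivity)
  exact_mod_cast card_edge_le

theorem prob_not_covers {b : ℝ} (hb0 : 0 ≤ b) (hb1 : b ≤ 1) :
    (lab (Tri V)).real {U | ¬ Covers (kept U b)} ≤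
      (Fintype.card V : ℝ) ^ 2 * (1 - b) ^ (Fintype.card V - 2) := by
  have sub : {U | ¬ Covers (kept U b)} ⊆ ⋃ e ∈ (univ : Finset (Edge V)),
      {U | ∀ T ∈ univ.filter (fun T : Tri V => e.1 ⊆ T.1), b < (U T : ℝ)} := by
    intro U hU
    simp only [Covers, not_forall, not_exists, not_and, Set.mem_ofPred_eq] at hU
    obtain ⟨e, he, h⟩ := hU
    simp only [Set.mem_iUnion]
    refine ⟨⟨e, he⟩, mem_univ _, fun T hT => ?_⟩
    by_contra hc
    exact h T (not_lt.1 hc) (mem_filter.1 hT).2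
  refine (lab_mono sub).trans ((measureReal_biUnion_finset_le _ _).trans ?_)
  simp only [prob_none _ hb0 hb1, card_tri_at, sum_const, card_univ, nsmul_eq_mul]
  refine mul_le_mul_of_nonneg_right ?_ (pow_nonneg (by linarith) _)
  exact_mod_cast card_edge_le

theorem prob_covers {a : ℝ} (ha0 : 0 ≤ a) (ha1 : a ≤ 1 / 2) (hn : 2 ≤ Fintype.card V) :
    (lab (Tri V)).real {U | Covers (kept U a)} ≤
      1 / ((Fintype.card V).choose 2 * (1 - a) ^ (Fintype.card V - 2)) +
        2 * Fintype.card V / (Fintype.card V).choose 2 := by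
  set q := (1 - a) ^ (Fintype.card V - 2) with hq
  set N : ℝ := ((Fintype.card V).choose 2 : ℝ) with hN
  have N0 : 0 < N := by rw [hN]; exact_mod_cast Nat.choose_pos hn
  have q0 : 0 < q := pow_pos (by linarith) _
  let F : Edge V → Finset (Tri V) := fun e => univ.filter fun T => e.1 ⊆ T.1
  let E : Edge V → Set (Tri V → I) := fun e => {U | ∀ T ∈ F e, a < (U T : ℝ)}
  have hEE : ∀ e f, (lab (Tri V)).real (E e ∩ E f) ≤ q ^ 2 + (if f = e then q else 0) +
      (if ¬ Disjoint e.1 f.1 then q ^ 2 else 0) := by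
    intro e f
    have e1 : E e ∩ E f = {U | ∀ T ∈ univ.filter (fun T : Tri V => e.1 ⊆ T.1 ∨ f.1 ⊆ T.1),
        a < (U T : ℝ)} := by
      ext U
      simp only [E, F, Set.mem_inter_iff, Set.mem_ofPred_eq, mem_filter, mem_univ, true_and,
        or_imp, forall_and]
    rw [e1, prob_none _ ha0 (by linarith)]
    have h1 := card_union_at e f
    by_cases h : f = e
    · subst h
      simp only [or_self, card_tri_at, if_true]
      have : 0 ≤ (if ¬ Disjoint f.1 f.1 then q ^ 2 else 0) := by positivity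
      nlinarith
    rw [if_neg h, add_zero]
    have h2 := common_le (Ne.symm h)
    by_cases hd : Disjoint e.1 f.1
    · have h3 : (univ.filter fun T : Tri V => e.1 ⊆ T.1 ∧ f.1 ⊆ T.1).card = 0 := by
        rw [card_eq_zero, filter_eq_empty_iff]
        intro T _ k
        have := card_le_card (union_subset k.1 k.2)
        rw [card_union_of_disjoint hd, e.2, f.2, T.2] at this
        omega
      rw [h3, add_zero] at h1
      rw [h1, if_neg (not_not.2 hd), pow_add, add_zero, sq]
    · rw [if_pos hd]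
      have h4 : q ^ 2 = (1 - a) ^ (univ.filter fun T : Tri V => e.1 ⊆ T.1 ∨ f.1 ⊆ T.1).card *
          (1 - a) ^ (univ.filter fun T : Tri V => e.1 ⊆ T.1 ∧ f.1 ⊆ T.1).card := by
        rw [← pow_add, h1, pow_add, sq]
      have h5 : (1 - a) ^ 1 ≤
          (1 - a) ^ (univ.filter fun T : Tri V => e.1 ⊆ T.1 ∧ f.1 ⊆ T.1).card :=
        pow_le_pow_of_le_one (by linarith) (by linarith) h2
      have h6 : 0 ≤ (1 - a) ^ (univ.filter fun T : Tri V => e.1 ⊆ T.1 ∨ f.1 ⊆ T.1).card :=
        pow_nonneg (by linarith) _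
      nlinarith
  have hmeet : ∀ e : Edge V,
      ((univ.filter fun f : Edge V => ¬ Disjoint e.1 f.1).card : ℝ) ≤ 2 * Fintype.card V := by
    intro e
    have : (univ.filter fun f : Edge V => ¬ Disjoint e.1 f.1) ⊆
        e.1.biUnion fun u => univ.filter fun f : Edge V => u ∈ f.1 := by
      intro f hf
      simpa [not_disjoint_iff] using hf
    have h2 := (card_le_card this).trans (card_biUnion_le_card_mul _ _ (Fintype.card V)
      fun u _ => by rw [card_edge_at]; omega)
    rw [e.2] at h2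
    exact_mod_cast h2
  have key := second_moment (lab (Tri V)) E (fun e => meas_none _ _) (m := N * q)
    (v := N * q + N * (2 * Fintype.card V * q ^ 2)) (by positivity)
    (by simp only [E, F, prob_none _ ha0 (show a ≤ 1 by linarith), card_tri_at, sum_const,
      card_univ, nsmul_eq_mul, card_edge]; rfl)
    (by
      have : ∀ e, ∑ f, (lab (Tri V)).real (E e ∩ E f) ≤
          N * q ^ 2 + q + 2 * Fintype.card V * q ^ 2 := by
        intro e
        refine (sum_le_sum fun f _ => hEE e f).trans ?_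
        rw [sum_add_distrib, sum_add_distrib, ← sum_filter (fun f : Edge V => ¬ Disjoint e.1 f.1)]
        simp only [sum_const, card_univ, nsmul_eq_mul, card_edge, sum_ite_eq', mem_univ, if_true]
        nlinarith [hmeet e, sq_nonneg q]
      refine (sum_le_sum fun e _ => this e).trans (le_of_eq ?_)
      simp only [sum_const, card_univ, nsmul_eq_mul, card_edge]
      ring)
  refine (lab_le key ?_).trans (le_of_eq ?_)
  · intro U hU e he
    obtain ⟨T, h1, h2⟩ := hU e.1 e.2
    exact absurd (he T (mem_filter.2 ⟨mem_univ _, h2⟩)) (not_lt.2 h1)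
  · field_simp

end Pool.Agent.P.MP_224820_co
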