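import Pool.Agent.P.MP_224820_co.Defs
import Pool.Agent.P.MP_224820_co.Core

namespace Pool.Agent.P.MP_224820_co

open Finset

lemma c1_le_of_rel {α β : Type*} [Fintype α] [Fintype β] (P : α → Prop) (Q : β → Prop)
    (r : α → β → Prop) (k : ℝ) (h1 : ∀ a, P a → ∃ b, Q b ∧ r a b)
    (h2 : ∀ b, Q b → c1 (fun a => r a b) ≤ k) : c1 P ≤ k * c1 Q := by
  calc c1 P ≤ ∑ a, c1 (fun b => Q b ∧ r a b) := by
        refine sum_le_sum fun a _ => ?_
        by_cases ha : P a
        · rw [ind_pos ha]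
          obtain ⟨b, hb⟩ := h1 a ha
          have : ind (Q b ∧ r a b) ≤ c1 (fun b => Q b ∧ r a b) :=
            single_le_sum (f := fun b => ind (Q b ∧ r a b)) (fun _ _ => ind_nonneg _) (mem_univ b)
          rwa [ind_pos hb] at this
        · rw [ind_neg ha]; exact c1_nonneg _
    _ = ∑ b, c1 (fun a => Q b ∧ r a b) := sum_comm
    _ ≤ k * c1 Q := by
        rw [c1, mul_sum]
        refine sum_le_sum fun b _ => ?_
        rw [c1_and_left]
        by_cases hb : Q b
        · rw [ind_pos hb]; linarith [h2 b hb]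
        · rw [ind_neg hb]; simp

lemma c1_le_one {α : Type*} [Fintype α] {P : α → Prop} (h : ∀ a b, P a → P b → a = b) :
    c1 P ≤ 1 := by
  by_cases hp : ∃ a, P a
  · obtain ⟨a, ha⟩ := hp
    exact (c1_mono fun b hb => h b a hb ha).trans (c1_eq_le a)
  · by_contra hc
    exact hp (c1_pos_iff.1 (by linarith [not_le.1 hc]))

lemma c1_mem {α : Type*} [Fintype α] (s : Finset α) : c1 (fun a => a ∈ s) = s.card := by
  rw [c1_eq_card]; congr; ext; simp

variable {V : Type} [Fintype V] [DecidableEq V]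

omit [DecidableEq V] in
lemma c1_prod3 (P : V → V → V → Prop) : c1 (fun p : V × V × V => P p.1 p.2.1 p.2.2) = c3 P := by
  unfold c1 c3
  simp only [Fintype.sum_prod_type]

abbrev Edge (V : Type) : Type := {e : Finset V // e.card = 2}

lemma card_super (k : ℕ) (s : Finset V) (h : s.card ≤ k) :
    (univ.filter fun t : {t : Finset V // t.card = k} => s ⊆ t.1).card =
      (Fintype.card V - s.card).choose (k - s.card) := by
  rw [← card_univ, ← card_filter_powersetCard_subset s univ k (subset_univ _) h]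
  refine card_bij (fun t _ => t.1) ?_ ?_ ?_
  · intro t ht
    simp only [mem_filter, mem_univ, true_and] at ht
    simp [t.2, ht]
  · intro a _ b _ e
    exact Subtype.ext e
  · intro b hb
    simp only [mem_filter, mem_powersetCard_univ] at hb
    exact ⟨⟨b, hb.1⟩, by simp [hb.2], rfl⟩

lemma card_sub (k : ℕ) (s : Finset V) :
    (univ.filter fun t : {t : Finset V // t.card = k} => t.1 ⊆ s).card = s.card.choose k := by
  rw [← card_powersetCard]
  refine card_bij (fun t _ => t.1) ?_ ?_ ?_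
  · intro t ht
    simp only [mem_filter, mem_univ, true_and] at ht
    simp [t.2, ht]
  · intro a _ b _ e
    exact Subtype.ext e
  · intro b hb
    rw [mem_powersetCard] at hb
    exact ⟨⟨b, hb.2⟩, by simp [hb.1], rfl⟩

omit [DecidableEq V] in
lemma card_edge : Fintype.card (Edge V) = (Fintype.card V).choose 2 := by
  simp

omit [DecidableEq V] in
lemma card_tri : Fintype.card (Tri V) = (Fintype.card V).choose 3 := by
  simp

omit [DecidableEq V] in
lemma card_edge_le : Fintype.card (Edge V) ≤ Fintype.card V ^ 2 := by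
  rw [card_edge]; exact Nat.choose_le_pow _ _

omit [DecidableEq V] in
lemma card_tri_le : Fintype.card (Tri V) ≤ Fintype.card V ^ 3 := by
  rw [card_tri]; exact Nat.choose_le_pow _ _

lemma card_tri_at (e : Edge V) :
    (univ.filter fun T : Tri V => e.1 ⊆ T.1).card = Fintype.card V - 2 := by
  rw [card_super 3 e.1 (by rw [e.2]; norm_num), e.2]; simp

lemma card_edge_in (T : Tri V) : (univ.filter fun g : Edge V => g.1 ⊆ T.1).card = 3 := by
  rw [card_sub, T.2]; rfl

lemma card_edge_at (u : V) :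
    (univ.filter fun g : Edge V => u ∈ g.1).card = Fintype.card V - 1 := by
  have := card_super 2 ({u} : Finset V) (by simp)
  simpa using this

omit [Fintype V] in
lemma card_three_iff {u v w : V} : ({u, v, w} : Finset V).card = 3 ↔ Dist u v w := by
  constructor
  · intro h
    refine ⟨?_, ?_, ?_⟩
    · rintro rfl
      have := card_le_two (a := u) (b := w)
      simp only [mem_insert, true_or, insert_eq_of_mem] at h
      omega
    · rintro rfl
      have := card_le_two (a := v) (b := u)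
      simp only [mem_insert, mem_singleton, or_true, insert_eq_of_mem] at h
      omega
    · rintro rfl
      have := card_le_two (a := u) (b := v)
      simp only [mem_singleton, insert_eq_of_mem] at h
      omega
  · rintro ⟨h1, h2, h3⟩
    exact card_eq_three.2 ⟨u, v, w, h1, h2, h3, rfl⟩

def pr {u v : V} (h : u ≠ v) : Edge V := ⟨{u, v}, card_pair h⟩

omit [Fintype V] in
lemma pr_comm {u v : V} (h : u ≠ v) : pr h.symm = pr h := Subtype.ext (pair_comm _ _)

omit [Fintype V] in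
lemma edge_rep (g : Edge V) : ∃ u v, ∃ h : u ≠ v, g = pr h := by
  obtain ⟨u, v, h, e⟩ := card_eq_two.1 g.2
  exact ⟨u, v, h, Subtype.ext e⟩

omit [Fintype V] in
lemma tri_rep (T : Tri V) : ∃ u v w, Dist u v w ∧ T.1 = {u, v, w} := by
  obtain ⟨u, v, w, h1, h2, h3, e⟩ := card_eq_three.1 T.2
  exact ⟨u, v, w, ⟨h1, h2, h3⟩, e⟩

def pf {M : Type*} [Zero M] (f : Edge V → M) (u v : V) : M := if h : u ≠ v then f (pr h) else 0

omit [Fintype V] in
lemma pf_ne {M : Type*} [Zero M] (f : Edge V → M) {u v : V} (h : u ≠ v) : pf f u v = f (pr h) :=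
  dif_pos h

omit [Fintype V] in
lemma pf_self {M : Type*} [Zero M] (f : Edge V → M) (u : V) : pf f u u = 0 := dif_neg (by simp)

omit [Fintype V] in
lemma pf_comm {M : Type*} [Zero M] (f : Edge V → M) (u v : V) : pf f u v = pf f v u := by
  by_cases h : u = v
  · rw [h]
  · rw [pf_ne f h, pf_ne f (Ne.symm h), pr_comm]

lemma edges_in {u v w : V} (d : Dist u v w) :
    (univ.filter fun g : Edge V => g.1 ⊆ {u, v, w}) = {pr d.1, pr d.2.1, pr d.2.2} ∧
      pr d.1 ≠ pr d.2.1 ∧ pr d.1 ≠ pr d.2.2 ∧ pr d.2.1 ≠ pr d.2.2 := by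
  obtain ⟨h1, h2, h3⟩ := d
  have n1 : pr h1 ≠ pr h2 := fun e => by
    have : w ∈ (pr h1).1 := by rw [e]; simp [pr]
    simp [pr, h2.symm, h3.symm] at this
  have n2 : pr h1 ≠ pr h3 := fun e => by
    have : w ∈ (pr h1).1 := by rw [e]; simp [pr]
    simp [pr, h2.symm, h3.symm] at this
  have n3 : pr h2 ≠ pr h3 := fun e => by
    have : v ∈ (pr h2).1 := by rw [e]; simp [pr]
    simp [pr, h1.symm, h3] at this
  refine ⟨(eq_of_subset_of_card_le ?_ ?_).symm, n1, n2, n3⟩
  · intro g hg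
    simp only [mem_insert, mem_singleton] at hg
    simp only [mem_filter, mem_univ, true_and]
    rcases hg with rfl | rfl | rfl <;> simp [pr, insert_subset_iff]
  · rw [card_sub, card_three_iff.2 ⟨h1, h2, h3⟩, card_eq_three.2 ⟨_, _, _, n1, n2, n3, rfl⟩]
    rfl

lemma sum_tri {M : Type*} [AddCommMonoid M] (f : Edge V → M) {u v w : V} (d : Dist u v w) :
    ∑ g : Edge V with g.1 ⊆ {u, v, w}, f g = pf f u v + pf f u w + pf f v w := by
  obtain ⟨e, n1, n2, n3⟩ := edges_in d
  rw [e, sum_insert (by simp [n1, n2]), sum_pair n3, pf_ne f d.1, pf_ne f d.2.1, pf_ne f d.2.2,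
    add_assoc]

lemma sum_pairs (f : Edge V → ℝ) : ∑ u, ∑ v, pf f u v = 2 * ∑ g, f g := by
  have e1 : ∀ u v, pf f u v = ∑ g : Edge V, if g.1 = {u, v} then f g else 0 := by
    intro u v
    by_cases h : u = v
    · subst h
      rw [pf_self]
      refine (sum_eq_zero fun g _ => if_neg fun e => ?_).symm
      have := g.2
      rw [e] at this
      simp at this
    · rw [pf_ne f h, sum_eq_single (pr h)]
      · simp [pr]
      · intro g _ hg
        exact if_neg fun e => hg (Subtype.ext e)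
      · simp
  simp only [e1]
  rw [mul_sum]
  simp_rw [sum_comm (s := (univ : Finset V)) (t := (univ : Finset (Edge V)))]
  refine sum_congr rfl fun g _ => ?_
  obtain ⟨a, b, h, rfl⟩ := edge_rep g
  rw [← Fintype.sum_prod_type', ← sum_filter]
  have : (univ.filter fun p : V × V => (pr h).1 = {p.1, p.2}) = {(a, b), (b, a)} := by
    ext ⟨x, y⟩
    simp only [mem_filter, mem_univ, true_and, mem_insert, mem_singleton, Prod.mk.injEq]
    change ({a, b} : Finset V) = {x, y} ↔ _
    rw [← coe_inj]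
    push_cast
    rw [Set.pair_eq_pair_iff]
    constructor
    · rintro (⟨rfl, rfl⟩ | ⟨rfl, rfl⟩) <;> simp
    · rintro (⟨rfl, rfl⟩ | ⟨rfl, rfl⟩) <;> simp
  rw [this, sum_pair (by simp [h])]
  ring

def rel (A : Set (Tri V)) (u v w : V) : Prop := ∃ T ∈ A, T.1 = {u, v, w}

omit [Fintype V] in
lemma rel_sym (A : Set (Tri V)) : IsSym (rel A) where
  s12 := by
    rintro u v w ⟨T, hT, e⟩
    exact ⟨T, hT, by rw [e, insert_comm]⟩
  s23 := by
    rintro u v w ⟨T, hT, e⟩
    exact ⟨T, hT, by rw [e, pair_comm]⟩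
  ne := by
    rintro u v w ⟨T, hT, e⟩
    exact (card_three_iff.1 (e ▸ T.2)).1

omit [Fintype V] in
lemma third_unique {u v w x : V} (d : Dist u v w) (e : ({u, v, w} : Finset V) = {u, v, x}) :
    w = x := by
  have : w ∈ ({u, v, x} : Finset V) := by rw [← e]; simp
  simpa [d.2.1.symm, d.2.2.symm] using this

lemma c3_orderings (T : Tri V) : c3 (fun u v w => T.1 = {u, v, w}) ≤ 6 := by
  have h1 : c3 (fun u v w => T.1 = {u, v, w}) ≤
      c3 (fun u v w => (u ∈ T.1 ∧ v ∈ T.1.erase u) ∧ T.1 = {u, v, w}) := by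
    refine c3_mono fun u v w e => ⟨?_, e⟩
    have d := card_three_iff.1 (e ▸ T.2)
    rw [e]
    simp [d.1.symm]
  have h2 : c3 (fun u v w => (u ∈ T.1 ∧ v ∈ T.1.erase u) ∧ T.1 = {u, v, w}) ≤
      1 * c2 (fun u v => u ∈ T.1 ∧ v ∈ T.1.erase u) :=
    c3_le_mul fun u v _ => c1_le_one fun w x e1 e2 =>
      third_unique (card_three_iff.1 (e1 ▸ T.2)) (e1.symm.trans e2)
  have h3 : c2 (fun u v => u ∈ T.1 ∧ v ∈ T.1.erase u) ≤ 6 := by
    calc _ ≤ ∑ u, ind (u ∈ T.1) * 2 := by
          refine sum_le_sum fun u _ => ?_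
          change c1 (fun v => u ∈ T.1 ∧ v ∈ T.1.erase u) ≤ _
          rw [c1_and_left, c1_mem]
          by_cases hu : u ∈ T.1
          · rw [card_erase_of_mem hu, T.2]; norm_num
          · rw [ind_neg hu]; simp
      _ = 6 := by
          rw [← sum_mul]
          change c1 (fun u => u ∈ T.1) * 2 = 6
          rw [c1_mem, T.2]; norm_num
  linarith

/-- the unordered family of an ordered one -/
def fam (Q : V → V → V → Prop) : Set (Tri V) := {T | ∃ u v w, Q u v w ∧ T.1 = {u, v, w}}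

lemma fam_le (A : Set (Tri V)) (Q : V → V → V → Prop) :
    c1 (fun T => T ∈ fam Q ∧ T ∈ A) ≤ c3 (fun u v w => rel A u v w ∧ Q u v w) := by
  rw [← c1_prod3]
  have := c1_le_of_rel (fun T => T ∈ fam Q ∧ T ∈ A)
    (fun p : V × V × V => rel A p.1 p.2.1 p.2.2 ∧ Q p.1 p.2.1 p.2.2)
    (fun T p => T.1 = {p.1, p.2.1, p.2.2}) 1 (by
      rintro T ⟨⟨u, v, w, hq, e⟩, hA⟩
      exact ⟨(u, v, w), ⟨⟨T, hA, e⟩, hq⟩, e⟩)
    (fun p _ => c1_le_one fun a b e1 e2 => Subtype.ext (e1.trans e2.symm))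
  linarith

lemma le_fam (A : Set (Tri V)) (Q : V → V → V → Prop) :
    c3 (fun u v w => rel A u v w ∧ Q u v w) ≤ 6 * c1 (fun T => T ∈ fam Q ∧ T ∈ A) := by
  rw [← c1_prod3]
  refine c1_le_of_rel _ _ (fun p T => T.1 = {p.1, p.2.1, p.2.2}) 6 ?_ ?_
  · rintro ⟨u, v, w⟩ ⟨⟨T, hA, e⟩, hq⟩
    exact ⟨T, ⟨⟨u, v, w, hq, e⟩, hA⟩, e⟩
  · intro T _
    rw [c1_prod3 (fun u v w => T.1 = {u, v, w})]
    exact c3_orderings T

omit [Fintype V] in
lemma rel_univ {u v w : V} : rel Set.univ u v w ↔ Dist u v w :=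
  ⟨fun h => (rel_sym _).dist h, fun d => ⟨⟨_, card_three_iff.2 d⟩, trivial, rfl⟩⟩

noncomputable def deg (A : Set (Tri V)) (e : Edge V) : ℝ := c1 fun T => e.1 ⊆ T.1 ∧ T ∈ A

lemma deg_le (A : Set (Tri V)) {u v : V} (h : u ≠ v) : deg A (pr h) ≤ c1 (rel A u v) := by
  have := c1_le_of_rel (fun T : Tri V => (pr h).1 ⊆ T.1 ∧ T ∈ A) (rel A u v)
    (fun T w => T.1 = {u, v, w}) 1 ?_
    (fun p _ => c1_le_one fun a b e1 e2 => Subtype.ext (e1.trans e2.symm))
  · unfold deg; linarith
  rintro T ⟨h1, h2⟩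
  have hc : (T.1 \ (pr h).1).card = 1 := by
    rw [card_sdiff_of_subset h1, T.2, (pr h).2]
  obtain ⟨w, hw⟩ := card_eq_one.1 hc
  have e : T.1 = {u, v, w} := by
    rw [← sdiff_union_of_subset h1, hw]
    ext; simp [pr]; tauto
  exact ⟨w, ⟨T, h2, e⟩, e⟩

end Pool.Agent.P.MP_224820_co
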