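import Mathlib

namespace Pool.Agent.P.MP_224820_co

open Finset

open Classical in
noncomputable def ind (p : Prop) : ℝ := if p then 1 else 0

lemma ind_pos {p : Prop} (h : p) : ind p = 1 := by simp [ind, h]
lemma ind_neg {p : Prop} (h : ¬ p) : ind p = 0 := by simp [ind, h]
lemma ind_nonneg (p : Prop) : 0 ≤ ind p := by unfold ind; split_ifs <;> norm_num
lemma ind_le_one (p : Prop) : ind p ≤ 1 := by unfold ind; split_ifs <;> norm_num
lemma ind_mono {p q : Prop} (h : p → q) : ind p ≤ ind q := by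
  by_cases hp : p
  · rw [ind_pos hp, ind_pos (h hp)]
  · rw [ind_neg hp]; exact ind_nonneg _
lemma ind_congr {p q : Prop} (h : p ↔ q) : ind p = ind q := by rw [propext h]
lemma ind_and (p q : Prop) : ind (p ∧ q) = ind p * ind q := by
  by_cases hp : p <;> by_cases hq : q <;> simp [ind, hp, hq]
lemma ind_or_le (p q : Prop) : ind (p ∨ q) ≤ ind p + ind q := by
  by_cases hp : p <;> by_cases hq : q <;> simp [ind, hp, hq]
lemma ind_le_add {p q r : Prop} (h : p → q ∨ r) : ind p ≤ ind q + ind r :=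
  (ind_mono h).trans (ind_or_le _ _)
lemma ind_le_add3 {p q r s : Prop} (h : p → q ∨ r ∨ s) : ind p ≤ ind q + ind r + ind s := by
  have := ind_le_add h
  have := ind_or_le r s
  linarith
lemma ind_not (p : Prop) : ind (¬ p) = 1 - ind p := by
  by_cases hp : p <;> simp [ind, hp]
lemma ind_split (p q : Prop) : ind p = ind (p ∧ q) + ind (p ∧ ¬ q) := by
  by_cases hp : p <;> by_cases hq : q <;> simp [ind, hp, hq]

variable {V : Type*} [Fintype V]

noncomputable def c1 (P : V → Prop) : ℝ := ∑ u, ind (P u)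
noncomputable def c2 (P : V → V → Prop) : ℝ := ∑ u, ∑ v, ind (P u v)
noncomputable def c3 (P : V → V → V → Prop) : ℝ := ∑ u, ∑ v, ∑ w, ind (P u v w)

lemma c1_nonneg (P : V → Prop) : 0 ≤ c1 P := sum_nonneg fun _ _ => ind_nonneg _
lemma c2_nonneg (P : V → V → Prop) : 0 ≤ c2 P :=
  sum_nonneg fun _ _ => sum_nonneg fun _ _ => ind_nonneg _
lemma c3_nonneg (P : V → V → V → Prop) : 0 ≤ c3 P :=
  sum_nonneg fun _ _ => sum_nonneg fun _ _ => sum_nonneg fun _ _ => ind_nonneg _

lemma c1_le (P : V → Prop) : c1 P ≤ Fintype.card V := by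
  calc c1 P ≤ ∑ _u : V, (1 : ℝ) := sum_le_sum fun _ _ => ind_le_one _
    _ = _ := by simp

lemma c1_mono {P Q : V → Prop} (h : ∀ u, P u → Q u) : c1 P ≤ c1 Q :=
  sum_le_sum fun u _ => ind_mono (h u)
lemma c2_mono {P Q : V → V → Prop} (h : ∀ u v, P u v → Q u v) : c2 P ≤ c2 Q :=
  sum_le_sum fun u _ => sum_le_sum fun v _ => ind_mono (h u v)
lemma c3_mono {P Q : V → V → V → Prop} (h : ∀ u v w, P u v w → Q u v w) : c3 P ≤ c3 Q :=
  sum_le_sum fun u _ => sum_le_sum fun v _ => sum_le_sum fun w _ => ind_mono (h u v w)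

lemma c1_le_add {P Q R : V → Prop} (h : ∀ u, P u → Q u ∨ R u) : c1 P ≤ c1 Q + c1 R := by
  unfold c1
  rw [← sum_add_distrib]
  exact sum_le_sum fun u _ => ind_le_add (h u)
lemma c2_le_add {P Q R : V → V → Prop} (h : ∀ u v, P u v → Q u v ∨ R u v) :
    c2 P ≤ c2 Q + c2 R := by
  unfold c2
  rw [← sum_add_distrib]
  exact sum_le_sum fun u _ => c1_le_add (h u)
lemma c3_le_add {P Q R : V → V → V → Prop} (h : ∀ u v w, P u v w → Q u v w ∨ R u v w) :
    c3 P ≤ c3 Q + c3 R := by
  unfold c3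
  rw [← sum_add_distrib]
  exact sum_le_sum fun u _ => c2_le_add (h u)
lemma c3_le_add3 {P Q R S : V → V → V → Prop}
    (h : ∀ u v w, P u v w → Q u v w ∨ R u v w ∨ S u v w) :
    c3 P ≤ c3 Q + c3 R + c3 S := by
  have h1 := c3_le_add h
  have h2 : c3 (fun u v w => R u v w ∨ S u v w) ≤ c3 R + c3 S := c3_le_add fun _ _ _ h => h
  linarith

lemma c2_swap (P : V → V → Prop) : c2 (fun u v => P v u) = c2 P := sum_comm
lemma c3_swap12 (P : V → V → V → Prop) : c3 (fun u v w => P v u w) = c3 P := sum_comm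
lemma c3_swap23 (P : V → V → V → Prop) : c3 (fun u v w => P u w v) = c3 P :=
  sum_congr rfl fun _ _ => sum_comm
lemma c3_rot (P : V → V → V → Prop) : c3 (fun u v w => P v w u) = c3 P := by
  rw [← c3_swap23 P, ← c3_swap12 (fun u v w => P u w v)]

lemma c2_eq (P : V → V → Prop) : c2 P = ∑ u, c1 (P u) := rfl
lemma c3_eq (P : V → V → V → Prop) : c3 P = ∑ u, ∑ v, c1 (P u v) := rfl

lemma c1_and_left (p : Prop) (P : V → Prop) : c1 (fun u => p ∧ P u) = ind p * c1 P := by
  simp only [c1, ind_and, mul_sum]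

lemma c1_eq_le (v : V) : c1 (fun w => w = v) ≤ 1 := by
  classical
  have : ∀ w, ind (w = v) = if w = v then 1 else 0 := fun w => by
    by_cases h : w = v <;> simp [ind, h]
  simp [c1, this]

lemma c1_not (P : V → Prop) : c1 (fun u => ¬ P u) = Fintype.card V - c1 P := by
  simp [c1, ind_not, sum_sub_distrib]

lemma c2_split (P Q : V → V → Prop) :
    c2 P = c2 (fun u v => P u v ∧ Q u v) + c2 (fun u v => P u v ∧ ¬ Q u v) := by
  unfold c2
  rw [← sum_add_distrib]
  refine sum_congr rfl fun u _ => ?_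
  rw [← sum_add_distrib]
  exact sum_congr rfl fun v _ => ind_split _ _

lemma c2_le (P : V → V → Prop) : c2 P ≤ (Fintype.card V : ℝ) ^ 2 := by
  calc c2 P ≤ ∑ _u : V, (Fintype.card V : ℝ) := sum_le_sum fun u _ => c1_le (P u)
    _ = _ := by simp [sq]

/-- a bound on the inner count gives a bound on the triple count -/
lemma c3_le_mul {X : V → V → Prop} {P : V → V → V → Prop} {k : ℝ}
    (h : ∀ u v, X u v → c1 (P u v) ≤ k) :
    c3 (fun u v w => X u v ∧ P u v w) ≤ k * c2 X := by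
  rw [c3_eq, c2, mul_sum]
  refine sum_le_sum fun u _ => ?_
  rw [mul_sum]
  refine sum_le_sum fun v _ => ?_
  rw [c1_and_left]
  by_cases hx : X u v
  · rw [ind_pos hx]; linarith [h u v hx]
  · rw [ind_neg hx]; simp

lemma mul_le_c3 {X : V → V → Prop} {P : V → V → V → Prop} {k : ℝ}
    (h : ∀ u v, X u v → k ≤ c1 (P u v)) :
    k * c2 X ≤ c3 (fun u v w => X u v ∧ P u v w) := by
  rw [c3_eq, c2, mul_sum]
  refine sum_le_sum fun u _ => ?_
  rw [mul_sum]
  refine sum_le_sum fun v _ => ?_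
  rw [c1_and_left]
  by_cases hx : X u v
  · rw [ind_pos hx]; linarith [h u v hx]
  · rw [ind_neg hx]; simp

lemma mul_le_c2 {H : V → Prop} {P : V → V → Prop} {k : ℝ}
    (h : ∀ u, H u → k ≤ c1 (P u)) : k * c1 H ≤ c2 P := by
  rw [c2_eq, c1, mul_sum]
  refine sum_le_sum fun u _ => ?_
  by_cases hx : H u
  · rw [ind_pos hx]; linarith [h u hx]
  · rw [ind_neg hx]; simpa using c1_nonneg _

lemma c1_pos_iff {P : V → Prop} : 0 < c1 P ↔ ∃ u, P u := by
  constructor
  · intro h
    by_contra hc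
    push Not at hc
    have : c1 P = 0 := sum_eq_zero fun u _ => ind_neg (hc u)
    linarith
  · rintro ⟨u, hu⟩
    have : ind (P u) ≤ c1 P :=
      single_le_sum (f := fun u => ind (P u)) (fun _ _ => ind_nonneg _) (mem_univ u)
    rw [ind_pos hu] at this
    linarith

lemma c2_pos_iff {P : V → V → Prop} : 0 < c2 P ↔ ∃ u v, P u v := by
  constructor
  · intro h
    by_contra hc
    push Not at hc
    have : c2 P = 0 := sum_eq_zero fun u _ => sum_eq_zero fun v _ => ind_neg (hc u v)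
    linarith
  · rintro ⟨u, v, hu⟩
    have h1 : c1 (P u) ≤ c2 P :=
      single_le_sum (f := fun u => c1 (P u)) (fun _ _ => c1_nonneg _) (mem_univ u)
    have := c1_pos_iff.2 ⟨v, hu⟩
    linarith

open Classical in
lemma c1_eq_card (P : V → Prop) : c1 P = ((univ.filter P).card : ℝ) := by
  simp [c1, ind]

end Pool.Agent.P.MP_224820_co
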