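import Pool.Agent.P.MP_224820_co.Events

namespace Pool.Agent.P.MP_224820_co

open Finset MeasureTheory unitInterval Filter Topology

lemma Covers.mono {V : Type} {K K' : Set (Tri V)} (h : K ⊆ K') (hK : Covers K) : Covers K' :=
  fun e he => let ⟨T, h1, h2⟩ := hK e he; ⟨T, h h1, h2⟩

lemma HasFold.mono {V : Type} [Fintype V] [DecidableEq V] {K K' : Set (Tri V)} (h : K ⊆ K')
    {m : ℕ} (hK : HasFold K m) : HasFold K' m :=
  let ⟨c, h1, h2⟩ := hK; ⟨c, fun T hT => h1 T fun k => hT (h k), h2⟩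

lemma kept_mono {V : Type} (U : Tri V → I) {s t : ℝ} (h : s ≤ t) : kept U s ⊆ kept U t :=
  fun _ k => le_trans k h

lemma tlog : Tendsto (fun n : ℕ => Real.log n) atTop atTop :=
  Real.tendsto_log_atTop.comp tendsto_natCast_atTop_atTop

lemma texp_log {c : ℝ} (hc : 0 < c) :
    Tendsto (fun n : ℕ => Real.exp (-(c * Real.log n))) atTop (𝓝 0) :=
  Real.tendsto_exp_neg_atTop_nhds_zero.comp (tlog.const_mul_atTop hc)

lemma texp_nat : Tendsto (fun n : ℕ => Real.exp (-(n : ℝ))) atTop (𝓝 0) :=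
  Real.tendsto_exp_neg_atTop_nhds_zero.comp tendsto_natCast_atTop_atTop

lemma texp_sub_one {f : ℕ → ℝ} (h : Tendsto f atTop (𝓝 0)) :
    Tendsto (fun n => Real.exp (f n) - 1) atTop (𝓝 0) := by
  have := ((Real.continuous_exp.tendsto 0).comp h).sub_const 1
  simpa using this

lemma tlog_div : Tendsto (fun n : ℕ => Real.log n / n) atTop (𝓝 0) :=
  Real.isLittleO_log_id_atTop.tendsto_div_nhds_zero.comp tendsto_natCast_atTop_atTop

lemma exp_two_log {n : ℕ} (hn : 1 ≤ n) : (n : ℝ) ^ 2 = Real.exp (2 * Real.log n) := by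
  have : (0 : ℝ) < n := by exact_mod_cast hn
  rw [two_mul, Real.exp_add, Real.exp_log this, sq]

lemma t1 : Tendsto (fun n : ℕ =>
    Real.exp ((n : ℝ) ^ 2 * Real.exp (-(4 * (3 / 2 * Real.log n)))) - 1) atTop (𝓝 0) := by
  refine texp_sub_one ((texp_log (c := 4) (by norm_num)).congr' ?_)
  filter_upwards [eventually_ge_atTop 1] with n hn
  rw [exp_two_log hn, ← Real.exp_add]
  congr 1; ring

lemma t2 {θ : ℝ} (hθ : 0 < θ) (c : ℕ) (hc : 1 ≤ c) : Tendsto (fun n : ℕ =>
    Real.exp (n * ((c : ℝ) ^ (2 * n) * Real.exp (-(θ * (3 / 2 * Real.log n) * n / 24)))) - 1)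
    atTop (𝓝 0) := by
  refine texp_sub_one (squeeze_zero' (Eventually.of_forall fun n => by positivity) ?_ texp_nat)
  filter_upwards [(tlog.const_mul_atTop (show 0 < θ / 16 by positivity)).eventually_ge_atTop
    (2 + 2 * Real.log c)] with n hn
  have c0 : (0 : ℝ) < c := by exact_mod_cast hc
  have h1 : (n : ℝ) ≤ Real.exp n := by linarith [Real.add_one_le_exp (n : ℝ)]
  have h2 : (c : ℝ) ^ (2 * n) = Real.exp ((2 * n : ℕ) * Real.log c) := by
    rw [Real.exp_nat_mul, Real.exp_log c0]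
  refine (mul_le_mul_of_nonneg_right h1 (by positivity)).trans ?_
  rw [h2, ← Real.exp_add, ← Real.exp_add, Real.exp_le_exp]
  push_cast
  nlinarith [mul_le_mul_of_nonneg_right hn (show (0 : ℝ) ≤ n by positivity)]

lemma t3 {ζ : ℝ} (hζ : 0 < ζ) (c : ℝ) : Tendsto (fun n : ℕ =>
    Real.exp ((n : ℝ) ^ 2 * (c - ζ * (3 / 2 * Real.log n) / 4))) atTop (𝓝 0) := by
  refine squeeze_zero' (Eventually.of_forall fun n => by positivity) ?_ texp_nat
  filter_upwards [(tlog.const_mul_atTop (show 0 < 3 * ζ / 8 by positivity)).eventually_ge_atTop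
    (c + 1), eventually_ge_atTop 1] with n hn h1
  have h2 : (1 : ℝ) ≤ n := by exact_mod_cast h1
  rw [Real.exp_le_exp]
  nlinarith [mul_le_mul_of_nonneg_right hn (show (0 : ℝ) ≤ n ^ 2 by positivity)]

lemma t4 : Tendsto (fun n : ℕ => (n : ℝ) ^ 2 * ((3 * (4 + n * (2 * (3 / 2 * Real.log n) / n))) ^ 4 *
    Real.exp (9 - 177 / 100 * (3 / 2 * Real.log n)))) atTop (𝓝 0) := by
  have h := ((isLittleO_pow_exp_pos_mul_atTop 4 (b := 131 / 200)
    (by norm_num)).tendsto_div_nhds_zero.comp tlog).const_mul (21 ^ 4 * Real.exp 9)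
  rw [mul_zero] at h
  refine squeeze_zero' (Eventually.of_forall fun n => by positivity) ?_ h
  filter_upwards [tlog.eventually_ge_atTop 1, eventually_ge_atTop 1] with n hn h1
  have n0 : (0 : ℝ) < n := by exact_mod_cast h1
  have e1 : (n : ℝ) * (2 * (3 / 2 * Real.log n) / n) = 3 * Real.log n := by field_simp
  have e2 : (3 * (4 + 3 * Real.log n)) ^ 4 ≤ (21 * Real.log n) ^ 4 :=
    pow_le_pow_left₀ (by positivity) (by linarith) 4
  have e3 : (n : ℝ) ^ 2 * Real.exp (9 - 177 / 100 * (3 / 2 * Real.log n)) =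
      Real.exp 9 / Real.exp (131 / 200 * Real.log n) := by
    rw [exp_two_log h1, ← Real.exp_add, ← Real.exp_sub]
    congr 1; ring
  rw [e1, mul_left_comm, e3]
  refine (mul_le_mul_of_nonneg_right e2 (by positivity)).trans (le_of_eq ?_)
  simp only [Function.comp]
  ring

lemma t5 : Tendsto (fun n : ℕ => (n : ℝ) ^ 2 * (1 - 2 * (3 / 2 * Real.log n) / n) ^ (n - 2))
    atTop (𝓝 0) := by
  have h := (texp_log one_pos).const_mul (Real.exp 2)
  rw [mul_zero] at h
  have ev := tlog_div.eventually_le_const (show (0 : ℝ) < 1 / 3 by norm_num)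
  refine squeeze_zero' ?_ ?_ h
  · filter_upwards [ev] with n hn
    have : 2 * (3 / 2 * Real.log n) / n = 3 * (Real.log n / n) := by ring
    exact mul_nonneg (by positivity) (pow_nonneg (by linarith) _)
  filter_upwards [ev, eventually_ge_atTop 2] with n hn h2
  have n0 : (0 : ℝ) < n := by exact_mod_cast (show 0 < n by omega)
  set b := 2 * (3 / 2 * Real.log n) / n with hb
  have hb' : b = 3 * (Real.log n / n) := by rw [hb]; ring
  have hbn : b * n = 3 * Real.log n := by rw [hb]; field_simp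
  have h1 : (1 - b) ^ (n - 2) ≤ Real.exp (-b) ^ (n - 2) :=
    pow_le_pow_left₀ (by linarith) (by linarith [Real.add_one_le_exp (-b)]) _
  refine (mul_le_mul_of_nonneg_left h1 (by positivity)).trans ?_
  rw [exp_two_log (by omega), ← Real.exp_nat_mul, ← Real.exp_add, ← Real.exp_add, Real.exp_le_exp,
    Nat.cast_sub h2]
  push_cast
  nlinarith

lemma t6 : Tendsto (fun n : ℕ => 1 / ((n.choose 2 : ℝ) * (1 - 3 / 2 * Real.log n / n) ^ (n - 2)) +
    2 * (n : ℝ) / (n.choose 2 : ℝ)) atTop (𝓝 0) := by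
  have h := ((texp_log (c := 7 / 20) (by norm_num)).const_mul 4).add
    (tendsto_const_div_atTop_nhds_zero_nat (8 : ℝ))
  rw [mul_zero, add_zero] at h
  have ev := tlog_div.eventually_le_const (show (0 : ℝ) < 1 / 20 by norm_num)
  refine squeeze_zero' ?_ ?_ h
  · filter_upwards [ev] with n hn
    have : 3 / 2 * Real.log n / n = 3 / 2 * (Real.log n / n) := by ring
    have : 0 ≤ (1 - 3 / 2 * Real.log n / n) ^ (n - 2) := pow_nonneg (by linarith) _
    positivity
  filter_upwards [ev, eventually_ge_atTop 2] with n hn h2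
  have n2 : (2 : ℝ) ≤ n := by exact_mod_cast h2
  set a := 3 / 2 * Real.log n / n with ha
  have ha' : a = 3 / 2 * (Real.log n / n) := by rw [ha]; ring
  have han : a * n = 3 / 2 * Real.log n := by rw [ha]; field_simp
  have a0 : 0 ≤ a := by
    have := Real.log_natCast_nonneg n
    positivity
  have hN : (n : ℝ) ^ 2 / 4 ≤ n.choose 2 := by
    rw [Nat.cast_choose_two]; nlinarith
  have h1 : Real.exp (-(11 / 10 * a)) ≤ 1 - a := by
    rw [Real.exp_neg, inv_le_iff_one_le_mul₀ (Real.exp_pos _)]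
    have := Real.add_one_le_exp (11 / 10 * a)
    nlinarith [mul_le_mul_of_nonneg_left this (show 0 ≤ 1 - a by linarith)]
  have h3 : Real.exp (-(33 / 20 * Real.log n)) ≤ (1 - a) ^ (n - 2) := by
    calc _ = Real.exp (-(11 / 10 * a)) ^ n := by
          rw [← Real.exp_nat_mul]; congr 1; linarith
      _ ≤ (1 - a) ^ n := pow_le_pow_left₀ (by positivity) h1 _
      _ ≤ _ := pow_le_pow_of_le_one (by linarith) (by linarith) (by omega)
  refine add_le_add ?_ ?_
  · have h4 : (n : ℝ) ^ 2 / 4 * Real.exp (-(33 / 20 * Real.log n)) ≤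
        n.choose 2 * (1 - a) ^ (n - 2) := mul_le_mul hN h3 (by positivity) (by positivity)
    refine (one_div_le_one_div_of_le (by positivity) h4).trans (le_of_eq ?_)
    rw [exp_two_log (by omega), div_mul_eq_mul_div, ← Real.exp_add, one_div_div, div_eq_mul_inv,
      ← Real.exp_neg]
    congr 2; ring
  · rw [div_le_div_iff₀ (by nlinarith) (by linarith)]
    nlinarith

theorem main : Tendsto (fun n : ℕ => lab (Tri (Fin n)) {U | ∃ t : ℝ, Covers (kept U t) ∧
    ¬ ∃ m0 : ℕ, ∀ m, m0 ≤ m → 2 ∣ m * (n - 1) → 6 ∣ m * n * (n - 1) → HasFold (kept U t) m})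
    atTop (𝓝 0) := by
  classical
  rw [← ENNReal.tendsto_toReal_iff (fun n => measure_ne_top _ _) ENNReal.zero_ne_top,
    ENNReal.toReal_zero]
  set γ := Real.exp (-(3 * 10 ^ 7)) with hγ
  have γ0 : 0 < γ := Real.exp_pos _
  have γ1 : γ ≤ 1 := Real.exp_le_one_iff.2 (by norm_num)
  obtain ⟨M, hM⟩ := exists_nat_ge ((10 : ℝ) ^ 16)
  have lim := (((((t1.add (t2 (show 0 < γ / 4000 by positivity) (Fintype.card (Prop × Prop × Prop))
    Fintype.card_pos)).add (t2 (show (0 : ℝ) < 1 / 10 ^ 17 by positivity)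
    (Fintype.card (Set.Icc (-(M : ℤ)) (2 * M))) (Fintype.card_pos_iff.2 ⟨lab0 M⟩))).add
    (t3 (show 0 < γ / 10 ^ 6 by positivity) (13 + 7 * Real.log (4 / (γ / 10 ^ 6))))).add t4).add
    t5).add t6
  simp only [add_zero] at lim
  refine squeeze_zero' (Eventually.of_forall fun n => ENNReal.toReal_nonneg) ?_ lim
  filter_upwards [tlog_div.eventually_le_const (show (0 : ℝ) < 1 / 3 by norm_num),
    tlog.eventually_ge_atTop (10 ^ 20), tendsto_natCast_atTop_atTop.eventually_ge_atTop
      ((10 : ℝ) ^ 17), (tendsto_natCast_atTop_atTop.const_mul_atTop γ0).eventually_ge_atTop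
      ((10 : ℝ) ^ 6), eventually_ge_atTop 2] with n h1 h2 h3 h4 h5
  set D := 3 / 2 * Real.log n with hD
  set a := D / n with ha
  set b := 2 * D / n with hb
  have n0 : (0 : ℝ) < n := by exact_mod_cast (show 0 < n by omega)
  have D0 : 0 ≤ D := by linarith [show (0 : ℝ) ≤ 10 ^ 20 by norm_num]
  have a0 : 0 ≤ a := by positivity
  have b0 : 0 ≤ b := by positivity
  have ha' : a = 3 / 2 * (Real.log n / n) := by rw [ha, hD]; ring
  have hb' : b = 3 * (Real.log n / n) := by rw [hb, hD]; ring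
  have hc : Fintype.card (Fin n) = n := Fintype.card_fin n
  have haD : a * Fintype.card (Fin n) = D := by rw [hc, ha]; field_simp
  have p1 := prob_cherry (V := Fin n) a0 (by linarith) haD
  have p2 := prob_rooted (V := Fin n) (θ := γ / 4000) a0 (by linarith) haD (by rwa [hc])
    (False, False, False) Phi3
  have p3 := prob_rooted (V := Fin n) (θ := 1 / 10 ^ 17) a0 (by linarith) haD (by rwa [hc])
    (lab0 M) (Phi4 M)
  have p4 := prob_closed (V := Fin n) (ζ := γ / 10 ^ 6) a0 (by linarith) haD (by positivity)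
    (by rw [div_le_one (by positivity)]; linarith [show (1 : ℝ) ≤ 10 ^ 6 by norm_num])
  have p5 := prob_far (V := Fin n) a0 (by linarith) b0 (by linarith) haD (by rwa [hc])
  have p6 := prob_not_covers (V := Fin n) b0 (by linarith)
  have p7 := prob_covers (V := Fin n) a0 (by linarith) (by rwa [hc])
  rw [hc] at p1 p2 p3 p4 p5 p6 p7
  refine le_trans (lab_mono ?_) ((measureReal_union_le _ _).trans (add_le_add
    ((measureReal_union_le _ _).trans (add_le_add ((measureReal_union_le _ _).trans (add_le_add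
    ((measureReal_union_le _ _).trans (add_le_add ((measureReal_union_le _ _).trans (add_le_add
    ((measureReal_union_le _ _).trans (add_le_add p1 p2)) p3)) p4)) p5)) p6)) p7))
  rintro U ⟨t, ht, hno⟩
  by_contra hbad
  simp only [Set.mem_union, Set.mem_ofPred_eq, not_or, not_not] at hbad
  obtain ⟨⟨⟨⟨⟨⟨q1, q2⟩, q3⟩, q4⟩, q5⟩, q6⟩, q7⟩ := hbad
  have hat : a ≤ t := by
    by_contra hh
    exact q7 (ht.mono (kept_mono U (not_le.1 hh).le))
  have hab : a ≤ b := by rw [ha', hb']; linarith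
  have hK : Covers (kept U (min t b)) := by
    rcases le_total t b with h | h
    · rwa [min_eq_left h]
    · rwa [min_eq_right h]
  have := det_main (kept_mono U (le_min hat hab)) (kept_mono U (min_le_right t b)) hK
    (D := D) (by linarith) (by rwa [hc]) hM γ0 γ1 (by rwa [hc]) q1 q2 q3 q4 q5
  rw [hc, eventually_atTop] at this
  obtain ⟨m0, hm0⟩ := this
  exact hno ⟨m0, fun m hm k2 k6 => (hm0 m hm k2 k6).mono (kept_mono U (min_le_left t b))⟩

end Pool.Agent.P.MP_224820_co
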