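import Pool.Agent.P.MP_224820_co.Geom

namespace Pool.Agent.P.MP_224820_co

open Finset MeasureTheory unitInterval

variable {ι : Type} [Fintype ι]

noncomputable abbrev lab (ι : Type) [Fintype ι] : Measure (ι → I) :=
  Measure.pi fun _ => (volume : Measure I)

lemma meas_le (a : ℝ) : MeasurableSet {x : I | (x : ℝ) ≤ a} :=
  measurableSet_le measurable_subtype_coe measurable_const

lemma vol_le {a : ℝ} (h0 : 0 ≤ a) (h1 : a ≤ 1) :
    (volume : Measure I).real {x : I | (x : ℝ) ≤ a} = a := by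
  have : {x : I | (x : ℝ) ≤ a} = Set.Iic (⟨a, h0, h1⟩ : I) := rfl
  rw [this, measureReal_def, unitInterval.volume_Iic, ENNReal.toReal_ofReal h0]

lemma ind_eq_indicator (a : ℝ) :
    (fun x : I => ind ((x : ℝ) ≤ a)) = {x : I | (x : ℝ) ≤ a}.indicator 1 := by
  funext x
  by_cases h : (x : ℝ) ≤ a <;> simp [ind, h, Set.indicator]

lemma integrable_ind (a : ℝ) : Integrable (fun x : I => ind ((x : ℝ) ≤ a)) volume := by
  rw [ind_eq_indicator]
  exact (integrable_const _).indicator (meas_le a)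

lemma integral_ind {a : ℝ} (h0 : 0 ≤ a) (h1 : a ≤ 1) : ∫ x : I, ind ((x : ℝ) ≤ a) = a := by
  rw [ind_eq_indicator, integral_indicator_one (meas_le a), vol_le h0 h1]

/-- the product Markov bound -/
theorem tilt (P : Finset ι) (F : ι → Prop) {a b : ℝ} (ha0 : 0 ≤ a) (ha1 : a ≤ 1) (hb0 : 0 ≤ b)
    (hb1 : b ≤ 1) (s k : ℝ) :
    (lab ι).real {U | (∀ T ∈ P, (U T : ℝ) ≤ b) ∧
      k ≤ s * c1 (fun T => (F T ∧ T ∉ P) ∧ (U T : ℝ) ≤ a)} ≤
      b ^ P.card * Real.exp (a * (Real.exp s - 1) * c1 (fun T => F T ∧ T ∉ P) - k) := by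
  classical
  let g : ι → I → ℝ := fun T x => if T ∈ P then ind ((x : ℝ) ≤ b) else
    1 + ind (F T) * (Real.exp s - 1) * ind ((x : ℝ) ≤ a)
  have hg : ∀ T x, T ∉ P → g T x = Real.exp (s * ind ((F T ∧ T ∉ P) ∧ (x : ℝ) ≤ a)) := by
    intro T x hT
    simp only [g, if_neg hT]
    by_cases h1 : F T <;> by_cases h2 : (x : ℝ) ≤ a <;> simp [ind, h1, h2, hT]
  have g0 : ∀ T x, 0 ≤ g T x := by
    intro T x
    by_cases hT : T ∈ P
    · simp only [g, if_pos hT]; exact ind_nonneg _
    · rw [hg T x hT]; positivity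
  have gi : ∀ T, Integrable (g T) volume := by
    intro T
    by_cases hT : T ∈ P
    · simp only [g, if_pos hT]; exact integrable_ind b
    · simp only [g, if_neg hT]; exact (integrable_const _).add ((integrable_ind a).const_mul _)
  have hint : ∫ U, ∏ T, g T (U T) ∂(lab ι) ≤
      b ^ P.card * Real.exp (a * (Real.exp s - 1) * c1 (fun T => F T ∧ T ∉ P)) := by
    rw [integral_fintype_prod_eq_prod]
    have : b ^ P.card * Real.exp (a * (Real.exp s - 1) * c1 (fun T => F T ∧ T ∉ P)) =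
        ∏ T, (if T ∈ P then b else 1) * Real.exp (a * (Real.exp s - 1) * ind (F T ∧ T ∉ P)) := by
      rw [prod_mul_distrib, ← Real.exp_sum, ← mul_sum]
      simp [c1]
    rw [this]
    refine prod_le_prod (fun T _ => integral_nonneg (g0 T)) fun T _ => ?_
    by_cases hT : T ∈ P
    · simp only [g, if_pos hT]
      rw [integral_ind hb0 hb1, ind_neg (fun h => h.2 hT)]
      simp
    · simp only [g, if_neg hT]
      rw [integral_add (integrable_const _) ((integrable_ind a).const_mul _), integral_const_mul,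
        integral_ind ha0 ha1, ind_congr (and_iff_left hT), one_mul]
      have := Real.add_one_le_exp (a * (Real.exp s - 1) * ind (F T))
      simp only [integral_const, probReal_univ, smul_eq_mul, mul_one]
      linarith
  have mk := mul_meas_ge_le_integral_of_nonneg (μ := lab ι) (f := fun U => ∏ T, g T (U T))
    (Filter.Eventually.of_forall fun U => prod_nonneg fun T _ => g0 T _)
    (Integrable.fintype_prod gi) (Real.exp k)
  have sub : {U : ι → I | (∀ T ∈ P, (U T : ℝ) ≤ b) ∧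
      k ≤ s * c1 (fun T => (F T ∧ T ∉ P) ∧ (U T : ℝ) ≤ a)} ⊆
      {U | Real.exp k ≤ ∏ T, g T (U T)} := by
    rintro U ⟨h1, h2⟩
    have : ∏ T, g T (U T) = Real.exp (s * c1 (fun T => (F T ∧ T ∉ P) ∧ (U T : ℝ) ≤ a)) := by
      rw [c1, mul_sum, Real.exp_sum]
      refine prod_congr rfl fun T _ => ?_
      by_cases hT : T ∈ P
      · simp only [g, if_pos hT]
        rw [ind_pos (h1 T hT), ind_neg (fun h => h.1.2 hT)]
        simp
      · exact hg T _ hT
    rw [Set.mem_ofPred_eq, this]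
    exact Real.exp_le_exp.2 h2
  refine (measureReal_mono sub).trans ?_
  rw [Real.exp_sub, ← mul_div_assoc, le_div_iff₀ (Real.exp_pos k)]
  linarith

theorem lower_tail (P : Finset ι) (F : ι → Prop) {a b : ℝ} (ha0 : 0 ≤ a) (ha1 : a ≤ 1)
    (hb0 : 0 ≤ b) (hb1 : b ≤ 1) {s κ : ℝ} (hs : 0 ≤ s) (hκ0 : 0 ≤ κ)
    (hκ : κ ≤ 1 - Real.exp (-s)) (k : ℝ) :
    (lab ι).real {U | (∀ T ∈ P, (U T : ℝ) ≤ b) ∧ c1 (fun T => F T ∧ (U T : ℝ) ≤ a) ≤ k} ≤
      b ^ P.card * Real.exp (s * k - a * κ * (c1 F - P.card)) := by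
  refine le_trans (measureReal_mono ?_) ((tilt P F ha0 ha1 hb0 hb1 (-s) (-(s * k))).trans ?_)
  · rintro U ⟨h1, h2⟩
    refine ⟨h1, ?_⟩
    have : c1 (fun T => (F T ∧ T ∉ P) ∧ (U T : ℝ) ≤ a) ≤ c1 (fun T => F T ∧ (U T : ℝ) ≤ a) :=
      c1_mono fun T h => ⟨h.1.1, h.2⟩
    nlinarith
  · refine mul_le_mul_of_nonneg_left (Real.exp_le_exp.2 ?_) (by positivity)
    have h1 : c1 F ≤ c1 (fun T => F T ∧ T ∉ P) + c1 (fun T => T ∈ P) :=
      c1_le_add fun T h => by tauto
    rw [c1_mem] at h1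
    have h2 := c1_nonneg (fun T => F T ∧ T ∉ P)
    have h3 : a * κ * (c1 F - P.card) ≤ a * κ * c1 (fun T => F T ∧ T ∉ P) :=
      mul_le_mul_of_nonneg_left (by linarith) (by positivity)
    have h4 : a * κ * c1 (fun T => F T ∧ T ∉ P) ≤
        a * (1 - Real.exp (-s)) * c1 (fun T => F T ∧ T ∉ P) :=
      mul_le_mul_of_nonneg_right (mul_le_mul_of_nonneg_left hκ ha0) h2
    linarith

theorem upper_tail (F : ι → Prop) {a : ℝ} (ha0 : 0 ≤ a) (ha1 : a ≤ 1) {s : ℝ} (hs : 0 ≤ s)
    (k : ℝ) :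
    (lab ι).real {U | k ≤ c1 (fun T => F T ∧ (U T : ℝ) ≤ a)} ≤
      Real.exp (a * Real.exp s * c1 F - s * k) := by
  refine le_trans (measureReal_mono ?_) ((tilt ∅ F ha0 ha1 ha0 ha1 s (s * k)).trans ?_)
  · intro U h
    refine ⟨by simp, mul_le_mul_of_nonneg_left ?_ hs⟩
    simpa using h
  · simp only [card_empty, pow_zero, one_mul, notMem_empty, not_false_eq_true, and_true]
    refine Real.exp_le_exp.2 ?_
    have := c1_nonneg F
    nlinarith [mul_nonneg ha0 this]

lemma half_le : (1 / 2 : ℝ) ≤ 1 - Real.exp (-1) := by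
  have := Real.add_one_le_exp (1 : ℝ)
  rw [Real.exp_neg]
  have : (Real.exp 1)⁻¹ ≤ 1 / 2 := by
    rw [inv_le_comm₀ (Real.exp_pos 1) (by norm_num)]; linarith
  linarith

lemma nine_le : (9 / 10 : ℝ) ≤ 1 - Real.exp (-3) := by
  have h := Real.sum_le_exp_of_nonneg (x := 3) (by norm_num) 4
  norm_num [sum_range_succ, Nat.factorial] at h
  rw [Real.exp_neg]
  have : (Real.exp 3)⁻¹ ≤ 1 / 10 := by
    rw [inv_le_comm₀ (Real.exp_pos 3) (by norm_num)]; linarith
  linarith

lemma sum_pow_card_le {α : Type*} [Fintype α] {z : ℝ} (hz : 0 ≤ z) :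
    ∑ S : Finset α, z ^ S.card ≤ Real.exp (Fintype.card α * z) := by
  have := Fintype.sum_pow_mul_eq_add_pow α z 1
  simp only [one_pow, mul_one] at this
  rw [this, Real.exp_nat_mul]
  exact pow_le_pow_left₀ (by positivity) (Real.add_one_le_exp z) _

lemma union_nonempty {Ω α : Type*} [MeasurableSpace Ω] (μ : Measure Ω) [Fintype α] [DecidableEq α]
    (E : Finset α → Set Ω) {z : ℝ} (hz : 0 ≤ z)
    (h : ∀ S : Finset α, S.Nonempty → μ.real (E S) ≤ z ^ S.card) :
    μ.real (⋃ S ∈ (univ.erase ∅ : Finset (Finset α)), E S) ≤ Real.exp (Fintype.card α * z) - 1 := by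
  refine (measureReal_biUnion_finset_le _ _).trans ?_
  have h1 : ∑ S ∈ (univ.erase ∅ : Finset (Finset α)), μ.real (E S) ≤
      ∑ S ∈ (univ.erase ∅ : Finset (Finset α)), z ^ S.card :=
    sum_le_sum fun S hS => h S (nonempty_iff_ne_empty.2 (ne_of_mem_erase hS))
  have h2 := add_sum_erase univ (fun S : Finset α => z ^ S.card) (mem_univ ∅)
  have h3 := sum_pow_card_le (α := α) hz
  simp only [card_empty, pow_zero] at h2
  linarith

theorem prob_none (F : Finset ι) {a : ℝ} (ha0 : 0 ≤ a) (ha1 : a ≤ 1) :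
    (lab ι).real {U | ∀ T ∈ F, a < (U T : ℝ)} = (1 - a) ^ F.card := by
  classical
  have e : {U : ι → I | ∀ T ∈ F, a < (U T : ℝ)} =
      Set.pi Set.univ fun T => if T ∈ F then {x : I | (x : ℝ) ≤ a}ᶜ else Set.univ := by
    ext U
    simp only [Set.mem_ofPred_eq, Set.mem_pi, Set.mem_univ, true_imp_iff]
    refine forall_congr' fun T => ?_
    by_cases hT : T ∈ F <;> simp [hT]
  rw [e, measureReal_def, Measure.pi_pi, ENNReal.toReal_prod]
  have : ∀ T, ((volume : Measure I) (if T ∈ F then {x : I | (x : ℝ) ≤ a}ᶜ else Set.univ)).toReal =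
      if T ∈ F then 1 - a else 1 := by
    intro T
    split_ifs
    · rw [← measureReal_def, probReal_compl_eq_one_sub (meas_le a), vol_le ha0 ha1]
    · simp
  simp [this]

lemma meas_none (F : Finset ι) (a : ℝ) : MeasurableSet {U : ι → I | ∀ T ∈ F, a < (U T : ℝ)} := by
  simp only [Set.ofPred_forall]
  refine MeasurableSet.iInter fun T => MeasurableSet.iInter fun _ => ?_
  exact measurableSet_lt measurable_const (measurable_subtype_coe.comp (measurable_pi_apply T))

/-- second moment bound -/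
theorem second_moment {Ω α : Type*} [MeasurableSpace Ω] (μ : Measure Ω) [IsProbabilityMeasure μ]
    [Fintype α] (E : α → Set Ω) (hE : ∀ i, MeasurableSet (E i)) {m v : ℝ} (hm : 0 < m)
    (h1 : ∑ i, μ.real (E i) = m) (h2 : ∑ i, ∑ j, μ.real (E i ∩ E j) ≤ m ^ 2 + v) :
    μ.real {ω | ∀ i, ω ∉ E i} ≤ v / m ^ 2 := by
  let X : α → Ω → ℝ := fun i => (E i).indicator 1
  have iX : ∀ i, Integrable (X i) μ := fun i => (integrable_const _).indicator (hE i)
  have XX : ∀ i j ω, X i ω * X j ω = (E i ∩ E j).indicator 1 ω := fun i j ω => by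
    simp only [X, Set.inter_indicator_one, Pi.mul_apply]
  have iXX : ∀ i j, Integrable (fun ω => X i ω * X j ω) μ := fun i j => by
    simp only [XX]
    exact (integrable_const _).indicator ((hE i).inter (hE j))
  have e : ∀ ω, (∑ i, X i ω - m) ^ 2 = ∑ i, ∑ j, X i ω * X j ω - 2 * m * ∑ i, X i ω + m ^ 2 := by
    intro ω
    rw [← sum_mul_sum]; ring
  have i1 : Integrable (fun ω => ∑ i, ∑ j, X i ω * X j ω) μ :=
    integrable_finsetSum _ fun i _ => integrable_finsetSum _ fun j _ => iXX i j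
  have i2 : Integrable (fun ω => 2 * m * ∑ i, X i ω) μ :=
    (integrable_finsetSum _ fun i _ => iX i).const_mul _
  have mk := mul_meas_ge_le_integral_of_nonneg (μ := μ) (f := fun ω => (∑ i, X i ω - m) ^ 2)
    (Filter.Eventually.of_forall fun ω => sq_nonneg _)
    (by simp only [e]; exact (i1.sub i2).add (integrable_const _)) (m ^ 2)
  have hint : ∫ ω, (∑ i, X i ω - m) ^ 2 ∂μ ≤ v := by
    simp only [e]
    have i3 : Integrable (fun ω => ∑ i, ∑ j, X i ω * X j ω - 2 * m * ∑ i, X i ω) μ := i1.sub i2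
    rw [integral_add i3 (integrable_const _), integral_sub i1 i2, integral_const_mul,
      integral_finsetSum _ fun i _ => iX i,
      integral_finsetSum _ fun i _ => integrable_finsetSum _ fun j _ => iXX i j]
    have a1 : ∀ i, ∫ ω, X i ω ∂μ = μ.real (E i) := fun i => integral_indicator_one (hE i)
    have a2 : ∀ i, ∫ ω, ∑ j, X i ω * X j ω ∂μ = ∑ j, μ.real (E i ∩ E j) := fun i => by
      rw [integral_finsetSum _ fun j _ => iXX i j]
      refine sum_congr rfl fun j _ => ?_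
      simp only [XX]
      exact integral_indicator_one ((hE i).inter (hE j))
    simp only [a1, a2, h1, integral_const, probReal_univ, smul_eq_mul, one_mul]
    nlinarith
  have sub : {ω | ∀ i, ω ∉ E i} ⊆ {ω | m ^ 2 ≤ (∑ i, X i ω - m) ^ 2} := by
    intro ω h
    have : ∑ i, X i ω = 0 := sum_eq_zero fun i _ => Set.indicator_of_notMem (h i) _
    simp [this]
  rw [le_div_iff₀ (by positivity)]
  nlinarith [measureReal_mono (μ := μ) sub, sq_nonneg m]

end Pool.Agent.P.MP_224820_co
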